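import Pool.Agent.Lib.MP_d9512b_co.Ear

set_option autoImplicit false

/-!
Interface of the far case of 4-connected graphs: webs, states, fragments, the property (PL), and
the statement of the chain of states (Claim C).
-/

namespace Pool.Agent.Lib.MP_d9512b_co

open Set

variable {V : Type*}

/-- A 4-connected web `W` with frame `c`, `m1`, `c'`, `m2`: there are no disjoint connections
inside `W` between `c` and `c'` and between `m1` and `m2`. -/
structure Web (G : SimpleGraph V) (W : Set V) (c c' m1 m2 : V) : Prop where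
  con : Con G W
  nb : Nb G W = {c, c', m1, m2}
  four : ∀ E ⊆ W, E.Nonempty → 4 ≤ (Nb G E).ncard
  nox : ∀ F F' : Set V, F ⊆ W → F' ⊆ W → Con G F → Con G F' → Disjoint F F' →
    c ∈ Nb G F → c' ∈ Nb G F → m1 ∈ Nb G F' → m2 ∈ Nb G F' → False

/-- States: connected sets `S` in `W ∪ {c}` which contain `c`, such that each nonempty subset of
`W \ S` has at least two neighbours outside of `S`. -/
structure St (G : SimpleGraph V) (W : Set V) (c : V) (S : Set V) : Prop where
  mem : c ∈ S
  sub : S ⊆ insert c W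
  con : Con G S
  two : ∀ E ⊆ W \ S, E.Nonempty → 2 ≤ (Nb G E \ S).ncard

/-- Fragments of a state. -/
def Frag (G : SimpleGraph V) (W S E : Set V) : Prop :=
  E ⊆ W \ S ∧ E.Nonempty ∧ (Nb G E \ S).ncard ≤ 2

/-- Minimal fragments of a state. -/
def MFrag (G : SimpleGraph V) (W S E : Set V) : Prop :=
  Frag G W S E ∧ ∀ E' ⊆ E, Frag G W S E' → E' = E

/-- The vertices with at most two neighbours outside of `S`. -/
def Thr (G : SimpleGraph V) (W S : Set V) : Set V := {v | v ∈ W \ S ∧ (Nb G {v} \ S).ncard ≤ 2}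

/-- The properties of a web which are needed for the chain of states. -/
structure Plw (G : SimpleGraph V) (W : Set V) (c : V) : Prop where
  cW : c ∉ W
  four : ∀ E ⊆ W, E.Nonempty → 4 ≤ (Nb G E).ncard
  nbr : ∀ S, St G W c S → (W \ S).Nonempty → ∃ z ∈ W \ S, z ∈ Nb G S
  /-- (PL): at most two minimal fragments of `S ∪ {z}` are adjacent to `z`. -/
  pl : ∀ S z, St G W c S → z ∈ W \ S → z ∈ Nb G S → St G W c (insert z S) →
    ∀ F1 F2 F3, MFrag G W (insert z S) F1 → MFrag G W (insert z S) F2 →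
      MFrag G W (insert z S) F3 → z ∈ Nb G F1 → z ∈ Nb G F2 → z ∈ Nb G F3 →
      F1 = F2 ∨ F1 = F3 ∨ F2 = F3

/-- Claim C: the chain of states from `{c}` to `W ∪ {c}`, the `k`-th state has at most `2 k`
vertices (`c` included) for `k ≥ 1`. -/
def Chn (G : SimpleGraph V) (W : Set V) (c : V) : Prop :=
  ∃ (M : ℕ) (s : ℕ → Set V), s 0 = {c} ∧ s M = insert c W ∧ (∀ k < M, s k ⊆ s (k + 1)) ∧
    (∀ k < M, (s k).ncard < (s (k + 1)).ncard) ∧ (∀ k ≤ M, St G W c (s k)) ∧
    ∀ k, 1 ≤ k → k ≤ M → (s k).ncard ≤ 2 * k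

/-- (A) Webs have (PL): Lemma R and the partition lemma of mco_helper96_1. -/
def StWebPl : Prop :=
  ∀ (V : Type) [Finite V] (G : SimpleGraph V) (W : Set V) (c c' m1 m2 : V),
    Web G W c c' m1 m2 → Plw G W c

/-- (B) The chain of states from (PL). -/
def StChain : Prop :=
  ∀ (V : Type) [Finite V] (G : SimpleGraph V) (W : Set V) (c : V), Plw G W c → Chn G W c

/-- Claim C for webs. -/
def StClaimC : Prop :=
  ∀ (V : Type) [Finite V] (G : SimpleGraph V) (W : Set V) (c c' m1 m2 : V),
    Web G W c c' m1 m2 → Chn G W c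

theorem stClaimC_of (hA : StWebPl) (hB : StChain) : StClaimC :=
  fun V _ G W c c' m1 m2 h => hB V G W c (hA V G W c c' m1 m2 h)

end Pool.Agent.Lib.MP_d9512b_co
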