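import Pool.Agent.Lib.MP_d9512b_co.CC.Thread
import Pool.Agent.Lib.MP_d9512b_co.CC.Defs

set_option autoImplicit false

/-!
Claim C: the chain of states of a web.
-/

namespace Pool.Agent.Lib.MP_d9512b_co.Wb

open Set

variable {V : Type*} {G : SimpleGraph V} {W S D A E F K L : Set V} {t : Fin 4 → V}
  {c x y z v p : V}

theorem Web.exists_nb [Finite V] (h : Web G W t) (hS : St G W (t 0) S) (hne : (W \ S).Nonempty) :
    ∃ z ∈ W, z ∈ Nb G S := by
  obtain ⟨y, hy, x, hx, hxy⟩ := h.exists_adj (S := S) hne sdiff_subset (by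
    have h1 : Nb G (W \ S) \ S ⊆ {t 1, t 2, t 3} := by
      rintro v ⟨⟨hv, u, hu, huv⟩, hvS⟩
      rcases h.nb u hu.1 v huv with h2 | ⟨j, rfl⟩
      · exact absurd ⟨h2, hvS⟩ hv
      · fin_cases j
        · exact absurd hS.mem hvS
        · exact Or.inl rfl
        · exact Or.inr (Or.inl rfl)
        · exact Or.inr (Or.inr rfl)
    have h2 := ncard_le_ncard h1
    have h3 := ncard_insert_le (t 1) ({t 2, t 3} : Set V)
    have h4 := ncard_insert_le (t 2) ({t 3} : Set V)
    have h5 := ncard_singleton (t 3)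
    omega)
  exact ⟨x, hx.1, hx.2, y, hy, hxy.symm⟩

/-- The next state. -/
theorem Web.next [Finite V] (h : Web G W t) (hS : St G W (t 0) S) (hne : (W \ S).Nonempty)
    {k : ℕ} (hk : S.ncard + nfr G W S ≤ 2 * k + 2) (hk2 : S.ncard ≤ 2 * k ∨
      S.ncard ≤ 2 * k + 1 ∧ ∀ E, ¬ Frg G W S E) :
    ∃ S', St G W (t 0) S' ∧ S ⊆ S' ∧ S.ncard < S'.ncard ∧
      S'.ncard + nfr G W S' ≤ 2 * (k + 1) + 2 ∧ S'.ncard ≤ 2 * (k + 1) := by
  by_cases hno : ∀ E, ¬ Frg G W S E
  · obtain ⟨z, hz, hzS⟩ := h.exists_nb hS hne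
    have h1 := h.nfr_first hS hno hz hzS
    have h2 : (insert z S).ncard = S.ncard + 1 := ncard_insert_of_notMem hzS.1
    exact ⟨insert z S, hS.ins_of_no_frg hno hz hzS, subset_insert z S, by omega, by omega,
      by omega⟩
  have hk3 : S.ncard ≤ 2 * k := by
    rcases hk2 with h1 | h1
    · exact h1
    · exact absurd h1.2 hno
  by_cases hbig : ∃ K, MFr G W S K ∧ 2 ≤ K.ncard
  · obtain ⟨K, hK, hK2⟩ := hbig
    obtain ⟨z, hz, hzS⟩ := hK.frg.exists_nb h
    have hzW : z ∈ W := (hK.frg.sub hz).1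
    have hS' := hS.ins_of_mfr hK hK2 hz hzS
    have h1 := h.nfr_ins hS hS' hzW hzS hK hz
    have h2 : (insert z S).ncard = S.ncard + 1 := ncard_insert_of_notMem hzS.1
    exact ⟨insert z S, hS', subset_insert z S, by omega, by omega, by omega⟩
  · push Not at hno hbig
    obtain ⟨E, hE⟩ := hno
    obtain ⟨K, hKE, hK⟩ := hE.exists_min
    obtain ⟨u, hu⟩ := hK.frg.ne
    have hKu : K = {u} := by
      refine subset_antisymm ?_ (singleton_subset_iff.2 hu)
      intro w hw
      by_contra hwu
      have h3 : ({w, u} : Set V) ⊆ K := by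
        rintro a (rfl | ha)
        · exact hw
        · exact (mem_singleton_iff.1 ha) ▸ hu
      have h4 := ncard_le_ncard h3
      rw [ncard_pair hwu] at h4
      have := hbig K hK
      omega
    have huD : u ∈ D2 G W S := ⟨hK.frg.sub hu, by
      rw [← hKu]
      exact hK.frg.two⟩
    obtain ⟨v, hv, hvno⟩ := exists_thread hS (fun K hK => by
      have := hbig K hK
      omega) ⟨u, huD⟩
    have hLD : cmp G (D2 G W S) v ⊆ D2 G W S := cmp_subset
    have hL : Con G (cmp G (D2 G W S) v) := con_cmp hv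
    have hS' := hS.union_thread h hL hLD hvno
    have h1 := nfr_thread hS hS' hL hLD
    have hdis : Disjoint S (cmp G (D2 G W S) v) := by
      rw [Set.disjoint_left]
      exact fun a ha ha' => (hLD ha').1.2 ha
    have h2 : (S ∪ cmp G (D2 G W S) v).ncard = S.ncard + (cmp G (D2 G W S) v).ncard :=
      ncard_union_eq hdis
    have h3 : 0 < (cmp G (D2 G W S) v).ncard := (ncard_pos (toFinite _)).2 hL.1
    have h4 : (cmp G (D2 G W S) v).ncard ≤ nfr G W S := by
      have h5 : ((fun v => ({v} : Set V)) '' (cmp G (D2 G W S) v)) ⊆ {E | MFr G W S E} := by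
        rintro _ ⟨w, hw, rfl⟩
        exact mfr_singleton (hLD hw)
      have h6 := ncard_le_ncard h5
      rwa [ncard_image_of_injective _ singleton_injective] at h6
    exact ⟨S ∪ cmp G (D2 G W S) v, hS', subset_union_left, by omega, by omega, by omega⟩

/-- Chains from a given state. -/
theorem Web.chain_aux [Finite V] (h : Web G W t) : ∀ (n : ℕ) (S : Set V) (k : ℕ),
    (W \ S).ncard = n → St G W (t 0) S → S.ncard + nfr G W S ≤ 2 * k + 2 →
    (S.ncard ≤ 2 * k ∨ S.ncard ≤ 2 * k + 1 ∧ ∀ E, ¬ Frg G W S E) →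
    ∃ (M : ℕ) (s : ℕ → Set V), s 0 = S ∧ s M = insert (t 0) W ∧ (∀ j < M, s j ⊆ s (j + 1)) ∧
      (∀ j < M, (s j).ncard < (s (j + 1)).ncard) ∧ (∀ j ≤ M, St G W (t 0) (s j)) ∧
      ∀ j, 1 ≤ j → j ≤ M → (s j).ncard ≤ 2 * (k + j) := by
  intro n
  induction n using Nat.strong_induction_on with
  | _ n ih =>
    intro S k hn hS hk hk2
    by_cases hne : (W \ S).Nonempty
    · obtain ⟨S', hS', hSS, hlt, hk', hk2'⟩ := h.next hS hne hk hk2
      have h1 : (W \ S').ncard < n := by
        rw [← hn]
        refine ncard_lt_ncard ⟨fun x hx => ⟨hx.1, fun e => hx.2 (hSS e)⟩, fun hsub => ?_⟩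
        have h2 : S' ⊆ S := by
          intro x hx
          by_contra hxS
          rcases hS'.sub x hx with h3 | h3
          · exact (hsub ⟨h3, hxS⟩).2 hx
          · exact hxS (h3 ▸ hS.mem)
        have := ncard_le_ncard h2
        omega
      obtain ⟨M, s, h0, hM, h3, h4, h5, h6⟩ := ih _ h1 S' (k + 1) rfl hS' hk' (Or.inl hk2')
      refine ⟨M + 1, fun j => Nat.casesOn j S s, rfl, hM, ?_, ?_, ?_, ?_⟩
      · intro j hj
        cases j with
        | zero => exact (h0 ▸ hSS : S ⊆ s 0)
        | succ j => exact h3 j (by omega)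
      · intro j hj
        cases j with
        | zero => exact (h0 ▸ hlt : S.ncard < (s 0).ncard)
        | succ j => exact h4 j (by omega)
      · intro j hj
        cases j with
        | zero => exact hS
        | succ j => exact h5 j (by omega)
      · intro j hj hjM
        cases j with
        | zero => omega
        | succ j =>
          change (s j).ncard ≤ 2 * (k + (j + 1))
          cases j with
          | zero =>
            rw [h0]
            omega
          | succ j =>
            have := h6 (j + 1) (by omega) (by omega)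
            omega
    · refine ⟨0, fun _ => S, rfl, ?_, fun j hj => absurd hj (Nat.not_lt_zero j),
        fun j hj => absurd hj (Nat.not_lt_zero j), fun _ _ => hS, fun j h1 h2 => by omega⟩
      refine subset_antisymm ?_ ?_
      · intro x hx
        rcases hS.sub x hx with h1 | h1
        · exact Or.inr h1
        · exact Or.inl h1
      · refine insert_subset hS.mem ?_
        intro x hx
        by_contra hxS
        exact hne ⟨x, hx, hxS⟩

/-- The chain of states of a web. -/
theorem Web.chain [Finite V] (h : Web G W t) : ∃ (M : ℕ) (s : ℕ → Set V), s 0 = {t 0} ∧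
    s M = insert (t 0) W ∧ (∀ j < M, s j ⊆ s (j + 1)) ∧
    (∀ j < M, (s j).ncard < (s (j + 1)).ncard) ∧ (∀ j ≤ M, St G W (t 0) (s j)) ∧
    ∀ j, 1 ≤ j → j ≤ M → (s j).ncard ≤ 2 * j := by
  have hnb : ∀ E : Set V, E.Nonempty → E ⊆ W \ {t 0} → 3 ≤ (Nb G E \ {t 0}).ncard := by
    intro E hne hE
    have h1 := h.four E hne (hE.trans sdiff_subset)
    have h2 : Nb G E ⊆ insert (t 0) (Nb G E \ {t 0}) := by
      intro v hv
      by_cases hvt : v = t 0
      · exact Or.inl hvt
      · exact Or.inr ⟨hv, hvt⟩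
    have h3 := (ncard_le_ncard h2).trans (ncard_insert_le _ _)
    omega
  have hS : St G W (t 0) {t 0} :=
    ⟨rfl, fun x hx => Or.inr hx, con_singleton _, fun E hne hE => by
      have := hnb E hne hE
      omega⟩
  have hno : ∀ E, ¬ Frg G W {t 0} E := by
    intro E hE
    have h1 := hnb E hE.ne hE.sub
    have := hE.two
    omega
  have hnf : nfr G W {t 0} = 0 := by
    unfold nfr
    rw [ncard_eq_zero (toFinite _), eq_empty_iff_forall_notMem]
    exact fun E hE => hno E (MFr.frg hE)
  obtain ⟨M, s, h0, h1, h2, h3, h4, h5⟩ := h.chain_aux _ {t 0} 0 rfl hS (by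
    rw [hnf, ncard_singleton]
    omega) (Or.inr ⟨by rw [ncard_singleton], hno⟩)
  exact ⟨M, s, h0, h1, h2, h3, h4, fun j hj hjM => by
    have := h5 j hj hjM
    omega⟩

end Pool.Agent.Lib.MP_d9512b_co.Wb

namespace Pool.Agent.Lib.MP_d9512b_co

open Set

/-- Claim C for webs. -/
theorem stClaimC : StClaimC := by
  intro V _ G W c c' m1 m2 h
  have h1 := h.four W Subset.rfl h.con.1
  rw [h.nb] at h1
  have hne : c ≠ c' ∧ c ≠ m1 ∧ c ≠ m2 ∧ c' ≠ m1 ∧ c' ≠ m2 ∧ m1 ≠ m2 := by
    have h3 : ∀ a b d : V, ({a, b, d} : Set V).ncard ≤ 3 := by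
      intro a b d
      have := ncard_insert_le a ({b, d} : Set V)
      have := ncard_insert_le b ({d} : Set V)
      have := ncard_singleton d
      omega
    refine ⟨?_, ?_, ?_, ?_, ?_, ?_⟩ <;> rintro rfl
    · have := h3 c m1 m2
      rw [insert_eq_of_mem (mem_insert c _)] at h1
      omega
    · have := h3 c' c m2
      rw [insert_eq_of_mem (by simp)] at h1
      omega
    · have := h3 c' m1 c
      rw [insert_eq_of_mem (by simp)] at h1
      omega
    · have h4 : ({c, c', c', m2} : Set V) = {c, c', m2} := by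
        rw [insert_eq_of_mem (s := {c', m2}) (mem_insert c' _)]
      have := h3 c c' m2
      rw [h4] at h1
      omega
    · have h4 : ({c, c', m1, c'} : Set V) = {c, m1, c'} := by
        rw [insert_eq_of_mem (s := {m1, c'}) (by simp)]
      have := h3 c m1 c'
      rw [h4] at h1
      omega
    · have h4 : ({c, c', m1, m1} : Set V) = {c, c', m1} := by
        rw [pair_eq_singleton]
      have := h3 c c' m1
      rw [h4] at h1
      omega
  obtain ⟨n1, n2, n3, n4, n5, n6⟩ := hne
  have hmem : ∀ j : Fin 4, ![c, c', m1, m2] j ∈ Nb G W := by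
    rw [h.nb]
    intro j
    fin_cases j <;> simp
  have hW : Wb.Web G W ![c, c', m1, m2] :=
    { inj := by
        intro i j hij
        fin_cases i <;> fin_cases j <;> simp at hij ⊢ <;> simp_all
      tW := fun j hj => (hmem j).1 hj
      nb := by
        intro x hx y hxy
        by_cases hy : y ∈ W
        · exact Or.inl hy
        right
        have h2 : y ∈ Nb G W := ⟨hy, x, hx, hxy⟩
        rw [h.nb] at h2
        rcases h2 with rfl | rfl | rfl | h2
        · exact ⟨0, rfl⟩
        · exact ⟨1, rfl⟩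
        · exact ⟨2, rfl⟩
        · exact ⟨3, (mem_singleton_iff.1 h2).symm⟩
      four := fun E hE hEW => h.four E hEW hE
      nox := fun F F' hF hF' hFW hFW' h0 h1 h2 h3 hd => h.nox F F' hFW hFW' hF hF' hd h0 h1 h2 h3 }
  obtain ⟨M, s, h0, h1, h2, h3, h4, h5⟩ := hW.chain
  refine ⟨M, s, h0, h1, h2, h3, fun k hk => ?_, h5⟩
  have h6 := h4 k hk
  exact ⟨h6.mem, fun x hx => (h6.sub x hx).elim (fun e => Or.inr e) (fun e => Or.inl e), h6.con,
    fun E hE hne => h6.two E hne hE⟩

end Pool.Agent.Lib.MP_d9512b_co
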