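import Pool.Agent.Lib.MP_d9512b_co.CC.FarD

set_option autoImplicit false

/-!
The link lemma: after each cutvertex of the chain comes an edge or one web.
-/

namespace Pool.Agent.Lib.MP_d9512b_co.Lk

open Set

variable {V : Type*} {G : SimpleGraph V} {B H K W : Set V} {u v c c1 p x y z : V}

/-- A vertex reaches the cutvertex inside of its side. -/
theorem rc_to_cut (hH : Con G H) (hu : u ∈ H) (hc : c ∈ H) :
    Rc G (insert c (cmp G (H \ {c}) u)) u c := by
  by_cases huc : u = c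
  · subst huc
    exact Rc.refl (mem_insert _ _)
  · obtain ⟨a, ha, b, hb, -, hbH, hab⟩ := hH.exists_edge (X := cmp G (H \ {c}) u)
      (mem_cmp_self ⟨hu, huc⟩) hu (y := c) (fun h => (cmp_subset h).2 rfl) hc
    have hbc : b = c := by
      by_contra e
      exact hb (cmp_closed ha ⟨hbH, e⟩ hab)
    subst hbc
    exact ((rc_cmp ha).mono (subset_insert _ _)).tail hab (mem_insert _ _)

/-- A set with at most one neighbour can be avoided. -/
theorem rc_avoid (hH : Con G H) (hu : u ∈ H) (huK : u ∉ K) (hp : ∀ z ∈ Nb G K ∩ H, z = p)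
    (hz : z ∈ H) (hzK : z ∉ K) : Rc G (H \ K) u z := by
  have h1 : (z ∉ K → Rc G (H \ K) u z) ∧ (z ∈ K → Rc G (H \ K) u p) := by
    refine (hH.2 u hu z hz).induct
      (P := fun z => (z ∉ K → Rc G (H \ K) u z) ∧ (z ∈ K → Rc G (H \ K) u p)) ?_ ?_
    · exact ⟨fun _ => Rc.refl ⟨hu, huK⟩, fun h => absurd h huK⟩
    · rintro a b ha ⟨h1, h2⟩ hb hab
      constructor
      · intro hbK
        by_cases haK : a ∈ K
        · rw [hp b ⟨mem_nb hbK haK hab, hb⟩]
          exact h2 haK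
        · exact (h1 haK).tail hab ⟨hb, hbK⟩
      · intro hbK
        by_cases haK : a ∈ K
        · exact h2 haK
        · have := hp a ⟨mem_nb haK hbK hab.symm, ha.right_mem⟩
          rw [← this]
          exact h1 haK
  exact h1.1 hzK

theorem four [Finite V] (h : FarH G B u v) {E : Set V} (hE : E ⊆ Bᶜ) (hne : E.Nonempty)
    (h2 : (Nb G E ∩ B).ncard ≤ 2) : 4 ≤ (Nb G E).ncard := by
  obtain ⟨b, hbB, hbN⟩ : ∃ b ∈ B, b ∉ Nb G E := by
    by_contra hcon
    push Not at hcon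
    have h3 := ncard_le_ncard (show B ⊆ Nb G E ∩ B from fun b hb => ⟨hcon b hb, hb⟩)
      (toFinite _)
    have h4 := h.three
    omega
  obtain ⟨e, he⟩ := hne
  exact h.cn.le_nb he (fun h => hE h hbB) hbN

theorem nb_split [Finite V] (E : Set V) :
    (Nb G E).ncard ≤ (Nb G E ∩ B).ncard + (Nb G E ∩ Bᶜ).ncard := by
  have h5 : Nb G E ⊆ (Nb G E ∩ B) ∪ (Nb G E ∩ Bᶜ) := by
    intro z hz
    by_cases hzB : z ∈ B
    · exact Or.inl ⟨hz, hzB⟩
    · exact Or.inr ⟨hz, hzB⟩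
  exact (ncard_le_ncard h5 (toFinite _)).trans (ncard_union_le _ _)

/-- Connected sets with at most two neighbours in the chain separate. -/
theorem sep [Finite V] (h : FarH G B u v) (hK : Con G K) (hKB : K ⊆ Bᶜ) (huK : u ∉ K)
    (hvK : v ∉ K) (hN : (Nb G K ∩ Bᶜ).ncard ≤ 2) : ¬ Rc G (Bᶜ \ K) u v := by
  intro hr
  have h1 := h.one K hK hKB huK hvK hr
  have h2 := four h hKB hK.1 (by omega)
  have h3 := nb_split (G := G) (B := B) K
  omega

/-- There are only two sides. -/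
theorem third [Finite V] (h : FarH G B u v) (hx : x ∈ Cut G Bᶜ u v) (hz : z ∈ Bᶜ) (hzx : z ≠ x) :
    z ∈ Sd G B u x ∨ z ∈ Sd G B v x := by
  by_contra hcon
  push Not at hcon
  have hz' : z ∈ Bᶜ \ {x} := ⟨hz, hzx⟩
  set K := cmp G (Bᶜ \ {x}) z with hKdef
  have huK : u ∉ K := fun hu => hcon.1 (Rc.symm hu)
  have hvK : v ∉ K := fun hv => hcon.2 (Rc.symm hv)
  have hN : ∀ p ∈ Nb G K ∩ Bᶜ, p = x := by
    rintro p ⟨hp, hpB⟩
    by_contra e
    exact notMem_of_mem_nb_cmp hp ⟨hpB, e⟩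
  refine sep h (con_cmp hz') (fun w hw => (cmp_subset hw).1) huK hvK ?_
    (rc_avoid h.con h.hu huK hN h.hv hvK)
  have h1 : Nb G K ∩ Bᶜ ⊆ {x} := hN
  have h2 := ncard_le_ncard h1 (toFinite _)
  rw [ncard_singleton] at h2
  exact h2.trans (by omega)

theorem ord (h : FarH G B u v) (hx : x ∈ Cut G Bᶜ u v) (hy : y ∈ Cut G Bᶜ u v) (hne : x ≠ y) :
    x ∈ Sd G B v y ∨ y ∈ Sd G B v x := by
  rcases cut_order1 h.con h.hu h.hv hx hy hne with h1 | h1
  · exact Or.inl (cut_order3 h.con h.hv hx hne h1)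
  · exact Or.inr h1

theorem asym (h : FarH G B u v) (hx : x ∈ Cut G Bᶜ u v) (hy : y ∈ Cut G Bᶜ u v) (hne : x ≠ y)
    (h1 : x ∈ Sd G B v y) : y ∉ Sd G B v x := fun h2 =>
  cut_order2 hy (cut_order3' h.con h.hu hx hne h2) h1

/-- The sides are nested. -/
theorem nest (h : FarH G B u v) (hx : x ∈ Cut G Bᶜ u v) (hy : y ∈ Cut G Bᶜ u v) (hne : x ≠ y)
    (h1 : x ∈ Sd G B v y) : Sd G B v x ⊆ Sd G B v y := by
  intro z hz
  refine (rc_cmp hz).mono ?_
  intro w hw
  exact ⟨(cmp_subset hw).1, fun e => asym h hx hy hne h1 (by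
    rw [mem_singleton_iff] at e
    exact e ▸ hw)⟩

theorem sd_sub : Sd G B x c ⊆ Bᶜ \ {c} := cmp_subset

theorem sides_disj (hc : c ∈ Cut G Bᶜ u v) (h1 : z ∈ Sd G B u c) (h2 : z ∈ Sd G B v c) : False :=
  cut_order2 hc h1 h2

/-- The other side. -/
theorem other (h : FarH G B u v) (hx : x ∈ Cut G Bᶜ u v) (hne : x ≠ y)
    (h1 : y ∈ Sd G B v x) : x ∈ Sd G B u y :=
  cut_order3' h.con h.hu hx hne h1

theorem link [Finite V] (h : FarH G B u v) (hc : c ∈ Cut G Bᶜ u v) (hcv : c ≠ v) :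
    ∃ c1 ∈ Cut G Bᶜ u v, (G.Adj c c1 ∧ Sd G B v c = insert c1 (Sd G B v c1) ∧
      Sd G B u c1 = insert c (Sd G B u c)) ∨ ∃ W m1 m2, WLink G B u v W c c1 m1 m2 := by
  classical
  have hvc : v ∈ Sd G B v c := mem_cmp_self ⟨h.hv, fun e => hcv e.symm⟩
  -- the next cutvertex
  obtain ⟨c1, ⟨hc1, hc1c⟩, hmax⟩ : ∃ c1, (c1 ∈ Cut G Bᶜ u v ∧ c1 ∈ Sd G B v c) ∧
      ∀ y, (y ∈ Cut G Bᶜ u v ∧ y ∈ Sd G B v c) → (Sd G B v y).ncard ≤ (Sd G B v c1).ncard := by
    obtain ⟨c1, h1, h2⟩ := exists_max_image {y | y ∈ Cut G Bᶜ u v ∧ y ∈ Sd G B v c}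
      (fun y => (Sd G B v y).ncard) (toFinite _) ⟨v, right_mem_cut h.hv, hvc⟩
    exact ⟨c1, h1, fun y hy => h2 y hy⟩
  have hne : c1 ≠ c := fun e => (sd_sub hc1c).2 e
  have hcc1 : c ∈ Sd G B u c1 := other h hc hne.symm hc1c
  set W : Set V := {z | z ∈ Sd G B v c ∧ z ≠ c1 ∧ z ∉ Sd G B v c1} with hWdef
  have hWB : W ⊆ Bᶜ := fun z hz => (sd_sub hz.1).1
  have hWcut : ∀ z ∈ W, z ∉ Cut G Bᶜ u v := by
    rintro z ⟨h1, h2, h3⟩ hzc
    rcases ord h hzc hc1 h2 with h4 | h4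
    · exact h3 h4
    · have h5 := nest h hc1 hzc h2.symm h4
      have h6 := hmax z ⟨hzc, h1⟩
      have h7 : Sd G B v c1 ⊂ Sd G B v z :=
        ⟨h5, fun h8 => (sd_sub (h8 h4)).2 rfl⟩
      have h8 := ncard_lt_ncard h7 (toFinite _)
      omega
  have huW : u ∉ W := fun hu => hWcut u hu (left_mem_cut h.hu)
  have hvW : v ∉ W := fun hv => hWcut v hv (right_mem_cut h.hv)
  have hright : Sd G B v c = W ∪ insert c1 (Sd G B v c1) := by
    ext z
    constructor
    · intro hz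
      by_cases h1 : z = c1
      · exact Or.inr (Or.inl h1)
      · by_cases h2 : z ∈ Sd G B v c1
        · exact Or.inr (Or.inr h2)
        · exact Or.inl ⟨hz, h1, h2⟩
    · rintro (hz | rfl | hz)
      · exact hz.1
      · exact hc1c
      · exact nest h hc1 hc hne hc1c hz
  have hc1' : c1 ∈ Cut G Bᶜ v u := cut_comm ▸ hc1
  have hc' : c ∈ Cut G Bᶜ v u := cut_comm ▸ hc
  have hleft : Sd G B u c1 = W ∪ insert c (Sd G B u c) := by
    ext z
    constructor
    · intro hz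
      by_cases h1 : z = c
      · exact Or.inr (Or.inl h1)
      · rcases third h hc (sd_sub hz).1 h1 with h2 | h2
        · exact Or.inr (Or.inr h2)
        · exact Or.inl ⟨h2, (sd_sub hz).2, fun h3 => sides_disj hc1 hz h3⟩
    · rintro (hz | rfl | hz)
      · rcases third h hc1 (hWB hz) hz.2.1 with h2 | h2
        · exact h2
        · exact absurd h2 hz.2.2
      · exact hcc1
      · exact nest h.symm hc' hc1' hne.symm hcc1 hz
  -- neighbours of `W`
  have hNW : ∀ z ∈ Nb G W ∩ Bᶜ, z = c ∨ z = c1 := by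
    rintro z ⟨⟨hz, w, hw, hwz⟩, hzB⟩
    by_contra hcon
    push Not at hcon
    have h1 : z ∈ Sd G B v c := cmp_closed hw.1 ⟨hzB, hcon.1⟩ hwz
    have h2 : z ∈ Sd G B v c1 := by
      by_contra h3
      exact hz ⟨h1, hcon.2, h3⟩
    exact hw.2.2 (cmp_closed h2 ⟨hWB hw, hw.2.1⟩ hwz.symm)
  refine ⟨c1, hc1, ?_⟩
  by_cases hWe : W = ∅
  · left
    have h1 : Sd G B v c = insert c1 (Sd G B v c1) := by
      rw [hright, hWe, empty_union]
    refine ⟨?_, h1, by rw [hleft, hWe, empty_union]⟩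
    obtain ⟨a, ha, b, hb, -, hbH, hab⟩ := h.con.exists_edge (X := Sd G B v c)
      hvc h.hv (y := c) (fun h => (sd_sub h).2 rfl) hc.1
    have hbc : b = c := by
      by_contra e
      exact hb (cmp_closed ha ⟨hbH, e⟩ hab)
    subst hbc
    rw [h1] at ha
    rcases ha with rfl | ha
    · exact hab.symm
    · exact absurd (cmp_closed ha ⟨hbH, hne.symm⟩ hab) (asym h hc1 hc hne hc1c)
  · right
    -- the routes outside of `W`
    have r1 : Rc G (insert c (Sd G B u c)) u c := rc_to_cut h.con h.hu hc.1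
    have r2 : Rc G (insert c1 (Sd G B v c1)) v c1 := rc_to_cut h.con h.hv hc1.1
    have s1 : ∀ E : Set V, E ⊆ W → insert c (Sd G B u c) ⊆ Bᶜ \ E := by
      rintro E hE z (rfl | hz)
      · exact ⟨hc.1, fun hzE => (sd_sub (hE hzE).1).2 rfl⟩
      · exact ⟨(sd_sub hz).1, fun hzE => sides_disj hc hz (hE hzE).1⟩
    have s2 : ∀ E : Set V, E ⊆ W → insert c1 (Sd G B v c1) ⊆ Bᶜ \ E := by
      rintro E hE z (rfl | hz)
      · exact ⟨hc1.1, fun hzE => (hE hzE).2.1 rfl⟩
      · exact ⟨(sd_sub hz).1, fun hzE => (hE hzE).2.2 hz⟩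
    -- pieces of `W`
    have hpiece : ∀ K ⊆ W, Con G K → (∀ z ∈ Nb G K ∩ Bᶜ, z = c ∨ z = c1) →
        ¬ Rc G (Bᶜ \ K) u v := by
      intro K hKW hK hN
      refine sep h hK (fun z hz => hWB (hKW hz)) (fun h => huW (hKW h)) (fun h => hvW (hKW h)) ?_
      have h1 : Nb G K ∩ Bᶜ ⊆ {c, c1} := hN
      have h2 := ncard_le_ncard h1 (toFinite _)
      have h3 := ncard_insert_le c {c1}
      rw [ncard_singleton] at h3
      omega
    have hboth : ∀ K ⊆ W, Con G K → (∀ z ∈ Nb G K ∩ Bᶜ, z = c ∨ z = c1) →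
        c ∈ Nb G K ∧ c1 ∈ Nb G K := by
      intro K hKW hK hN
      have h1 := hpiece K hKW hK hN
      constructor
      · by_contra h2
        refine h1 (rc_avoid (p := c1) h.con h.hu (fun h => huW (hKW h)) ?_ h.hv
          (fun h => hvW (hKW h)))
        intro z hz
        rcases hN z hz with rfl | rfl
        · exact absurd hz.1 h2
        · rfl
      · by_contra h2
        refine h1 (rc_avoid (p := c) h.con h.hu (fun h => huW (hKW h)) ?_ h.hv
          (fun h => hvW (hKW h)))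
        intro z hz
        rcases hN z hz with rfl | rfl
        · rfl
        · exact absurd hz.1 h2
    -- `W` is connected
    have hNc : ∀ w ∈ W, ∀ z ∈ Nb G (cmp G W w) ∩ Bᶜ, z = c ∨ z = c1 := by
      rintro w hw z ⟨hz, hzB⟩
      refine hNW z ⟨⟨notMem_of_mem_nb_cmp hz, ?_⟩, hzB⟩
      obtain ⟨-, k, hk, hkz⟩ := hz
      exact ⟨k, cmp_subset hk, hkz⟩
    have hcon : Con G W := by
      refine ⟨nonempty_iff_ne_empty.2 hWe, fun w hw w' hw' => ?_⟩
      by_contra hcn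
      have hK := con_cmp (G := G) hw
      have hK' := con_cmp (G := G) hw'
      have h1 := hpiece _ cmp_subset hK (hNc w hw)
      have h2 := hboth _ cmp_subset hK' (hNc w' hw')
      have hd : ∀ z ∈ cmp G W w', z ∉ cmp G W w := fun z hz hz' =>
        hcn (Rc.trans hz' (Rc.symm hz))
      apply h1
      have s3 : cmp G W w' ⊆ Bᶜ \ cmp G W w := fun z hz => ⟨hWB (cmp_subset hz), hd z hz⟩
      exact ((r1.mono (s1 _ cmp_subset)).trans (nb_link hK' h2.1 h2.2 s3
        (s1 _ cmp_subset (mem_insert _ _)) (s2 _ cmp_subset (mem_insert _ _)))).trans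
        (r2.mono (s2 _ cmp_subset)).symm
    have hb := hboth W subset_rfl hcon hNW
    have hsepW := hpiece W subset_rfl hcon hNW
    have hWH : W ⊆ Bᶜ \ Cut G Bᶜ u v := fun z hz => ⟨hWB hz, hWcut z hz⟩
    have hNC : Nb G W ∩ Bᶜ ⊆ Cut G Bᶜ u v := by
      intro z hz
      rcases hNW z hz with rfl | rfl
      · exact hc
      · exact hc1
    -- neighbours in `B`
    have hle : (Nb G W ∩ B).ncard ≤ 2 := by
      obtain ⟨F1, F2, hcov, hF1, hF2, hc1, hc2, hr1, hr2⟩ :=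
        split_comp h.con h.hu h.hv hcon hWH hNC hsepW
      have h4 := h.one F1 hc1 (fun z hz => hWB (hF1 hz)) (fun h => huW (hF1 h))
        (fun h => hvW (hF1 h)) hr1
      have h5 := h.one F2 hc2 (fun z hz => hWB (hF2 hz)) (fun h => huW (hF2 h))
        (fun h => hvW (hF2 h)) hr2
      have h6 : Nb G W ∩ B ⊆ (Nb G F1 ∩ B) ∪ (Nb G F2 ∩ B) := by
        rintro z ⟨⟨hz, c, hc, hcz⟩, hzB⟩
        rcases hcov hc with hc | hc
        · exact Or.inl ⟨⟨fun h => hz (hF1 h), c, hc, hcz⟩, hzB⟩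
        · exact Or.inr ⟨⟨fun h => hz (hF2 h), c, hc, hcz⟩, hzB⟩
      have h7 := ncard_le_ncard h6 (toFinite _)
      have h8 := ncard_union_le (Nb G F1 ∩ B) (Nb G F2 ∩ B)
      omega
    have hge : 2 ≤ (Nb G W ∩ B).ncard := by
      have h1 := four h hWB hcon.1 hle
      have h2 := nb_split (G := G) (B := B) W
      have h3 : Nb G W ∩ Bᶜ ⊆ {c, c1} := hNW
      have h4 := ncard_le_ncard h3 (toFinite _)
      have h5 := ncard_insert_le c {c1}
      rw [ncard_singleton] at h5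
      omega
    obtain ⟨m1, m2, hm, hNB⟩ := ncard_eq_two.1 (le_antisymm hle hge)
    have hm1 : m1 ∈ Nb G W ∩ B := by rw [hNB]; exact Or.inl rfl
    have hm2 : m2 ∈ Nb G W ∩ B := by rw [hNB]; exact Or.inr rfl
    have hfour : ∀ E ⊆ W, E.Nonempty → 4 ≤ (Nb G E).ncard := by
      intro E hE hne
      refine four h (hE.trans hWB) hne ?_
      have h1 : Nb G E ∩ B ⊆ Nb G W ∩ B := by
        rintro z ⟨⟨-, e, he, hez⟩, hzB⟩
        exact ⟨⟨fun h => hWB h hzB, e, hE he, hez⟩, hzB⟩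
      exact (ncard_le_ncard h1 (toFinite _)).trans hle
    refine ⟨W, m1, m2, ⟨⟨hcon, ?_, hfour, ?_⟩, hc, hc1, hne, hWH, hm1.2, hm2.2, hm, ?_, hright,
      hleft⟩⟩
    · ext z
      constructor
      · intro hz
        by_cases hzB : z ∈ B
        · have h1 : z ∈ Nb G W ∩ B := ⟨hz, hzB⟩
          rw [hNB] at h1
          rcases h1 with rfl | h1
          · exact Or.inr (Or.inr (Or.inl rfl))
          · exact Or.inr (Or.inr (Or.inr h1))
        · rcases hNW z ⟨hz, hzB⟩ with rfl | rfl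
          · exact Or.inl rfl
          · exact Or.inr (Or.inl rfl)
      · rintro (rfl | rfl | rfl | rfl)
        · exact hb.1
        · exact hb.2
        · exact hm1.1
        · exact hm2.1
    · intro F F' hF hF' hcF hcF' hdis h1 h2 h3 h4
      have h5 : 2 ≤ (Nb G F' ∩ B).ncard := by
        have h6 : ({m1, m2} : Set V) ⊆ Nb G F' ∩ B := by
          rintro z (rfl | rfl)
          · exact ⟨h3, hm1.2⟩
          · exact ⟨h4, hm2.2⟩
        have h7 := ncard_le_ncard h6 (toFinite _)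
        rwa [ncard_pair hm] at h7
      have h6 := h.one F' hcF' (hF'.trans hWB) (fun h => huW (hF' h)) (fun h => hvW (hF' h))
        (((r1.mono (s1 _ hF')).trans (nb_link hcF h1 h2
          (fun z hz => ⟨hWB (hF hz), fun hz' => disjoint_left.1 hdis hz hz'⟩)
          (s1 _ hF' (mem_insert _ _)) (s2 _ hF' (mem_insert _ _)))).trans
          (r2.mono (s2 _ hF')).symm)
      omega
    · intro hadj
      exact hsepW (((r1.mono (s1 _ subset_rfl)).tail hadj
        (s2 _ subset_rfl (mem_insert _ _))).trans (r2.mono (s2 _ subset_rfl)).symm)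

end Pool.Agent.Lib.MP_d9512b_co.Lk

namespace Pool.Agent.Lib.MP_d9512b_co

theorem stLink : StLink := fun _ _ _ _ _ _ _ h hc hcv => Lk.link h hc hcv

end Pool.Agent.Lib.MP_d9512b_co
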