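import Pool.Agent.Lib.MP_d9512b_co.CC.GlueF
import Pool.Agent.Lib.MP_d9512b_co.CC.Link

set_option autoImplicit false

/-!
(C2b) The extension lemma: each web of the chain can be extended such that its states are right
states.
-/

namespace Pool.Agent.Lib.MP_d9512b_co

open Set

variable {V : Type*} {G : SimpleGraph V} {B E F K S S' W X : Set V} {a b c c1 d m1 m2 u v x y z : V}

/-- A web whose vertex `c'` has only one neighbour outside can be extended. -/
theorem Web.ext [Finite V] (h : Web G W c c1 m1 m2) (hcc1 : c ≠ c1) (hm1 : m1 ≠ c1)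
    (hm2 : m2 ≠ c1) (hyW : y ∉ W) (hyN : y ∉ Nb G W) (hadj : G.Adj c1 y)
    (hN : ∀ z, G.Adj c1 z → z ∈ W ∨ z = y)
    (hfour : ∀ E ⊆ insert c1 W, E.Nonempty → 4 ≤ (Nb G E).ncard) :
    Web G (insert c1 W) c y m1 m2 := by
  have hc : c ∈ Nb G W := by rw [h.nb]; exact Or.inl rfl
  have hc1 : c1 ∈ Nb G W := by rw [h.nb]; exact Or.inr (Or.inl rfl)
  have hm1' : m1 ∈ Nb G W := by rw [h.nb]; exact Or.inr (Or.inr (Or.inl rfl))
  have hm2' : m2 ∈ Nb G W := by rw [h.nb]; exact Or.inr (Or.inr (Or.inr rfl))
  have hup : ∀ z ∈ Nb G W, z ≠ c1 → z ∈ Nb G (insert c1 W) := by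
    rintro z ⟨hz, w, hw, hwz⟩ hne
    exact ⟨fun h' => h'.elim hne hz, w, Or.inr hw, hwz⟩
  have hyc1 : y ≠ c1 := fun e => G.loopless.irrefl c1 (e ▸ hadj)
  have hcy : ¬ G.Adj c1 c := by
    intro h'
    rcases hN c h' with h1 | h1
    · exact hc.1 h1
    · exact hyN (h1 ▸ hc)
  refine ⟨h.con.nb_ins hc1, ?_, hfour, ?_⟩
  · ext z
    constructor
    · rintro ⟨hz, w, hw, hwz⟩
      rcases hw with rfl | hw
      · rcases hN z hwz with h1 | h1
        · exact absurd (Or.inr h1) hz
        · exact Or.inr (Or.inl h1)
      · have h1 : z ∈ Nb G W := ⟨fun h' => hz (Or.inr h'), w, hw, hwz⟩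
        rw [h.nb] at h1
        rcases h1 with h1 | h1 | h1
        · exact Or.inl h1
        · exact absurd (Or.inl h1) hz
        · exact Or.inr (Or.inr h1)
    · rintro (rfl | rfl | rfl | rfl)
      · exact hup _ hc hcc1
      · exact ⟨fun h' => h'.elim hyc1 hyW, c1, Or.inl rfl, hadj⟩
      · exact hup _ hm1' hm1
      · exact hup _ hm2' hm2
  · intro F F' hF hF' hFc hFc' hd h1 h2 h3 h4
    have hc1F : c1 ∈ F := by
      obtain ⟨-, f, hf, hfy⟩ := h2
      rcases hF hf with h5 | h5
      · exact h5 ▸ hf
      · exact absurd ⟨hyW, f, h5, hfy⟩ hyN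
    have hF'W : F' ⊆ W := by
      intro z hz
      rcases hF' hz with h5 | h5
      · exact absurd hz (fun h' => disjoint_left.1 hd hc1F (h5 ▸ h'))
      · exact h5
    obtain ⟨hcF, f, hf, hfc⟩ := h1
    have hfc1 : f ≠ c1 := by
      rintro rfl
      exact hcy hfc
    have hfm : f ∈ F \ {c1} := ⟨hf, hfc1⟩
    have hFW : cmp G (F \ {c1}) f ⊆ W := by
      intro z hz
      rcases hF (cmp_subset hz).1 with h5 | h5
      · exact absurd h5 (cmp_subset hz).2
      · exact h5
    obtain ⟨p, hp, q, hq, -, hqF, hpq⟩ := hFc.exists_edge (X := cmp G (F \ {c1}) f)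
      (mem_cmp_self hfm) hf (y := c1) (fun h' => (cmp_subset h').2 rfl) hc1F
    have hqc : q = c1 := by
      by_contra e
      exact hq (cmp_closed hp ⟨hqF, e⟩ hpq)
    subst hqc
    exact h.nox _ F' hFW hF'W (con_cmp hfm) hFc'
      (disjoint_left.2 fun z hz hz' => disjoint_left.1 hd (cmp_subset hz).1 hz')
      ⟨fun h' => hcF (cmp_subset h').1, f, mem_cmp_self hfm, hfc⟩ ⟨hq, p, hp, hpq⟩ h3 h4

/-- States of `X` are right states of `c`. -/
theorem FarH.st_ext [Finite V] (h : FarH G B u v) (hd : d ∈ Cut G Bᶜ u v)
    (hR : Sd G B v c = X ∪ insert d (Sd G B v d)) (hX : insert c X ⊆ Sd G B u d)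
    (h2 : 2 ≤ (Nb G {d} \ insert c X).ncard) {t : Set V} (ht : St G X c t) :
    St G (Sd G B v c) c t where
  mem := ht.mem
  sub := fun z hz => by
    rcases ht.sub hz with h1 | h1
    · exact Or.inl h1
    · right
      rw [hR]
      exact Or.inl h1
  con := ht.con
  two := by
    intro E hE hne
    by_cases hEX : E ⊆ X
    · exact ht.two E (fun z hz => ⟨hEX hz, (hE hz).2⟩) hne
    · by_cases h3 : (E ∩ Sd G B v d).Nonempty
      · have h4 := h.two_le h3 (fun z hz => notMem_B_of_sd hz.2) d
        refine h4.trans (ncard_le_ncard ?_ (toFinite _))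
        rintro z ⟨hz, hzd⟩
        have h5 := h.nb_side hd (E := E ∩ Sd G B v d) (fun w hw => hw.2) hz
        obtain ⟨hzE, e, he, hez⟩ := hz
        have h6 : z ∉ Sd G B u d := by
          intro h7
          rcases h5 with h5 | h5 | h5
          · exact notMem_B_of_sd h7 h5
          · exact hzd h5
          · exact sd_disj hd h7 h5
        refine ⟨⟨fun h7 => ?_, e, he.1, hez⟩, fun h7 => h6 (hX (ht.sub h7))⟩
        rcases h5 with h5 | h5 | h5
        · exact notMem_B_of_sd (hE h7).1 h5
        · exact hzd h5
        · exact hzE ⟨h7, h5⟩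
      · have hdE : ∀ z ∈ E, z ∈ X ∨ z = d := by
          intro z hz
          have h4 := (hE hz).1
          rw [hR] at h4
          rcases h4 with h4 | h4 | h4
          · exact Or.inl h4
          · exact Or.inr h4
          · exact absurd ⟨z, hz, h4⟩ h3
        obtain ⟨e, he, heX⟩ := not_subset.1 hEX
        have hed : e = d := (hdE e he).resolve_left heX
        subst hed
        refine h2.trans (ncard_le_ncard ?_ (toFinite _))
        rintro z ⟨⟨hz, e', he', hez⟩, hzX⟩
        rw [mem_singleton_iff] at he'
        subst he'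
        refine ⟨⟨fun h7 => ?_, e', he, hez⟩, fun h7 => hzX (ht.sub h7)⟩
        rcases hdE z h7 with h8 | h8
        · exact hzX (Or.inr h8)
        · exact hz h8

theorem stExt : StExt := by
  classical
  intro V _ G B u v W c c1 m1 m2 h hW
  have hcN : c ∈ Nb G W := by rw [hW.web.nb]; exact Or.inl rfl
  have hc1N : c1 ∈ Nb G W := by rw [hW.web.nb]; exact Or.inr (Or.inl rfl)
  have hcW : insert c W ⊆ Sd G B u c1 := by
    rw [hW.left]
    rintro z (rfl | hz)
    · exact Or.inr (Or.inl rfl)
    · exact Or.inl hz
  have hcB : c ∉ B := hW.hc.1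
  have hc1B : c1 ∉ B := hW.hc1.1
  have hm1c1 : m1 ≠ c1 := fun e => hc1B (e ▸ hW.m1B)
  have hm2c1 : m2 ≠ c1 := fun e => hc1B (e ▸ hW.m2B)
  have hWB : ∀ z ∈ W, z ∉ B := fun z hz => (hW.WH hz).1
  have hNc1 : ∀ z, G.Adj c1 z → z ∉ W → z ∈ Nb G {c1} \ insert c W := by
    intro z hz hzW
    refine ⟨⟨fun e => ?_, c1, rfl, hz⟩, fun h' => h'.elim (fun e => ?_) hzW⟩
    · rw [mem_singleton_iff] at e
      subst e
      exact G.loopless.irrefl _ hz
    · exact hW.nadj (e ▸ hz).symm
  by_cases h2 : 2 ≤ (Nb G {c1} \ insert c W).ncard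
  · refine ⟨W, c1, subset_rfl, hW.web, fun t ht => h.st_ext hW.hc1 hW.right hcW h2 ht,
      Or.inl ⟨hW.hc1, hW.right, hc1N.1, fun x hx hx' => ?_, hW.ne⟩⟩
    exact sd_disj hW.hc1 (hcW (Or.inr hx)) hx'
  · push Not at h2
    by_cases hv : c1 = v
    · -- the end of the chain
      have hR1 : Sd G B v c1 = ∅ := by
        rw [hv, eq_empty_iff_forall_notMem]
        exact fun z hz => (Rc.left_mem hz).2 rfl
      have hRc : Sd G B v c = insert c1 W := by
        rw [hW.right, hR1]
        ext z
        simp only [mem_union, mem_insert_iff, mem_empty_iff_false, or_false]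
        tauto
      have hsub : insert c1 W ⊆ Bᶜ := by
        rintro z (rfl | hz)
        · exact hc1B
        · exact hWB z hz
      -- the neighbour in `B`
      have hex : ∃ b ∈ Nb G (insert c1 W) ∩ B, b ≠ m1 ∧ b ≠ m2 := by
        by_contra hcon
        push Not at hcon
        have h3 : Nb G (insert c1 W) ∩ B ⊆ {m1, m2} := by
          intro b hb
          by_cases h4 : b = m1
          · exact Or.inl h4
          · exact Or.inr (hcon b hb h4)
        have h4 := ncard_le_ncard h3 (toFinite _)
        have h5 := ncard_insert_le m1 {m2}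
        rw [ncard_singleton] at h5
        have h6 := Lk.four h hsub ⟨c1, Or.inl rfl⟩ (by omega)
        have h7 : Nb G (insert c1 W) ⊆ (Nb G (insert c1 W) ∩ B) ∪ {c} := by
          intro z hz
          by_cases hzB : z ∈ B
          · exact Or.inl ⟨hz, hzB⟩
          · right
            obtain ⟨hz1, w, hw, hwz⟩ := hz
            rcases hw with rfl | hw
            · -- `z` is a neighbour of `c1 = v`
              by_contra hzc
              have h8 := hNc1 z hwz (fun h' => hz1 (Or.inr h'))
              rcases h.side_cov hW.hc1 hzB with h9 | h9 | h9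
              · exact hz1 (Or.inl h9)
              · -- on the left side of `v`
                rw [hW.left] at h9
                rcases h9 with h9 | h9 | h9
                · exact hz1 (Or.inr h9)
                · exact hzc h9
                · have h10 : w ∈ Sd G B v c := by
                    rw [hRc]
                    exact Or.inl rfl
                  exact sd_nadj hW.hc h9 h10 hwz.symm
              · rw [hR1] at h9
                exact h9
            · have h8 : z ∈ Nb G W := ⟨fun h' => hz1 (Or.inr h'), w, hw, hwz⟩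
              rw [hW.web.nb] at h8
              rcases h8 with h8 | h8 | h8 | h8
              · exact h8
              · exact absurd (Or.inl h8) hz1
              · exact absurd (h8 ▸ hW.m1B) hzB
              · rw [mem_singleton_iff] at h8
                exact absurd (h8 ▸ hW.m2B) hzB
        have h8 := ncard_le_ncard h7 (toFinite _)
        have h9 := ncard_union_le (Nb G (insert c1 W) ∩ B) {c}
        rw [ncard_singleton] at h9
        omega
      obtain ⟨b, ⟨hbN, hbB⟩, hb1, hb2⟩ := hex
      have hbNW : b ∉ Nb G W := by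
        rw [hW.web.nb]
        rintro (h3 | h3 | h3 | h3)
        · exact hcB (h3 ▸ hbB)
        · exact hc1B (h3 ▸ hbB)
        · exact hb1 h3
        · exact hb2 h3
      have hbW : b ∉ W := fun h' => hWB b h' hbB
      have hadj : G.Adj c1 b := by
        obtain ⟨-, w, hw, hwb⟩ := hbN
        rcases hw with rfl | hw
        · exact hwb
        · exact absurd ⟨hbW, w, hw, hwb⟩ hbNW
      have hbY := hNc1 b hadj hbW
      have hY : ∀ z ∈ Nb G {c1} \ insert c W, z = b := by
        intro z hz
        by_contra hne
        have h3 : ({z, b} : Set V) ⊆ Nb G {c1} \ insert c W := by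
          rintro w (rfl | rfl)
          · exact hz
          · exact hbY
        have h4 := ncard_le_ncard h3 (toFinite _)
        rw [ncard_pair hne] at h4
        omega
      have hN : ∀ z, G.Adj c1 z → z ∈ W ∨ z = b := by
        intro z hz
        by_cases hzW : z ∈ W
        · exact Or.inl hzW
        · exact Or.inr (hY z (hNc1 z hz hzW))
      have hfour : ∀ E ⊆ insert c1 W, E.Nonempty → 4 ≤ (Nb G E).ncard := by
        rintro E hE ⟨e, he⟩
        by_cases hall : ∃ z, z ∉ E ∧ z ∉ Nb G E
        · obtain ⟨z, hz, hz'⟩ := hall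
          exact h.cn.le_nb he hz hz'
        · push Not at hall
          have h3 : ({c, b, m1, m2} : Set V) ⊆ Nb G E := by
            have h4 : ∀ z, z ∉ insert c1 W → z ∈ Nb G E := fun z hz =>
              hall z fun h' => hz (hE h')
            rintro z (rfl | rfl | rfl | rfl)
            · exact h4 _ fun h' => h'.elim (fun e => hW.ne e.symm) hcN.1
            · exact h4 _ fun h' => hsub h' hbB
            · exact h4 _ fun h' => hsub h' hW.m1B
            · exact h4 _ fun h' => hsub h' hW.m2B
          have h4 := ncard_le_ncard h3 (toFinite _)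
          have h5 : ({c, b, m1, m2} : Set V).ncard = 4 := by
            rw [ncard_insert_of_notMem _ (toFinite _), ncard_insert_of_notMem _ (toFinite _),
              ncard_pair hW.mne]
            · rintro (h6 | h6)
              · exact hb1 h6
              · exact hb2 h6
            · rintro (h6 | h6 | h6)
              · exact hcB (h6 ▸ hbB)
              · exact hcB (h6 ▸ hW.m1B)
              · rw [mem_singleton_iff] at h6
                exact hcB (h6 ▸ hW.m2B)
          omega
      refine ⟨insert c1 W, b, subset_insert _ _,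
        hW.web.ext hW.ne.symm hm1c1 hm2c1 hbW hbNW hadj hN hfour, fun t ht => ?_,
        Or.inr ⟨hbB, hRc⟩⟩
      rw [hRc]
      exact ht
    · -- the next cutvertex
      have hvR : v ∈ Sd G B v c1 := mem_cmp_self ⟨h.hv, fun e => hv e.symm⟩
      obtain ⟨y, hy, q, hq, -, hqH, hyq⟩ := h.con.exists_edge (X := Sd G B v c1)
        hvR h.hv (y := c1) notMem_sd_self hc1B
      have hqc : q = c1 := by
        by_contra e
        exact hq (cmp_closed hy ⟨hqH, e⟩ hyq)
      subst hqc
      have hyW : y ∉ W := fun h' => sd_disj hW.hc1 (hcW (Or.inr h')) hy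
      have hyB : y ∉ B := notMem_B_of_sd hy
      have hyc1 : y ≠ q := ne_of_sd hy
      have hyY := hNc1 y hyq.symm hyW
      have hY : ∀ z ∈ Nb G {q} \ insert c W, z = y := by
        intro z hz
        by_contra hne
        have h3 : ({z, y} : Set V) ⊆ Nb G {q} \ insert c W := by
          rintro w (rfl | rfl)
          · exact hz
          · exact hyY
        have h4 := ncard_le_ncard h3 (toFinite _)
        rw [ncard_pair hne] at h4
        omega
      have hN : ∀ z, G.Adj q z → z ∈ W ∨ z = y := by
        intro z hz
        by_cases hzW : z ∈ W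
        · exact Or.inl hzW
        · exact Or.inr (hY z (hNc1 z hz hzW))
      have hyNW : y ∉ Nb G W := by
        rintro ⟨-, w, hw, hwy⟩
        exact sd_nadj hW.hc1 (hcW (Or.inr hw)) hy hwy
      -- the set `L ∪ {q}` is closed in `Bᶜ \ {y}`
      have hclosed : ∀ p, p ∈ insert q (Sd G B u q) → ∀ r ∈ Bᶜ \ {y}, G.Adj p r →
          r ∈ insert q (Sd G B u q) := by
        rintro p hp r ⟨hrB, hry⟩ hpr
        by_cases hrq : r = q
        · exact Or.inl hrq
        · right
          rcases hp with rfl | hp
          · rcases hN r hpr with h3 | h3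
            · exact hcW (Or.inr h3)
            · exact absurd h3 hry
          · exact cmp_closed hp ⟨hrB, hrq⟩ hpr
      have huL : u ∈ insert q (Sd G B u q) := by
        by_cases huq : u = q
        · exact Or.inl huq
        · exact Or.inr (mem_cmp_self ⟨h.hu, huq⟩)
      have hreach : ∀ z, Rc G (Bᶜ \ {y}) u z → z ∈ insert q (Sd G B u q) := by
        intro z hz
        exact hz.mem_closed huL fun a ha b hb hab => hclosed a ha b hb hab
      have hyC : y ∈ Cut G Bᶜ u v := by
        refine ⟨hyB, fun h3 => ?_⟩
        rcases hreach v h3 with h4 | h4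
        · exact hv h4.symm
        · exact sd_disj hW.hc1 h4 hvR
      have hsubR : Sd G B v y ⊆ Sd G B v q := Lk.nest h hyC hW.hc1 hyc1 hy
      have hR1 : Sd G B v q = insert y (Sd G B v y) := by
        ext z
        constructor
        · intro hz
          by_cases hzy : z = y
          · exact Or.inl hzy
          · right
            rcases Lk.third h hyC (notMem_B_of_sd hz) hzy with h3 | h3
            · exfalso
              rcases hreach z h3 with h4 | h4
              · exact ne_of_sd hz h4
              · exact sd_disj hW.hc1 h4 hz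
            · exact h3
        · rintro (rfl | hz)
          · exact hy
          · exact hsubR hz
      have hRc : Sd G B v c = insert q W ∪ insert y (Sd G B v y) := by
        rw [hW.right, hR1]
        ext z
        simp only [mem_union, mem_insert_iff]
        tauto
      have hnotR : ∀ x ∈ insert c (insert q W), x ∉ Sd G B v q := by
        rintro x (rfl | rfl | hx) hx'
        · exact sd_disj hW.hc1 (hcW (Or.inl rfl)) hx'
        · exact notMem_sd_self hx'
        · exact sd_disj hW.hc1 (hcW (Or.inr hx)) hx'
      have hXB : ∀ x ∈ insert c (insert q W), x ∉ B := by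
        rintro x (rfl | rfl | hx)
        · exact hcB
        · exact hc1B
        · exact hWB x hx
      have hXL : insert c (insert q W) ⊆ Sd G B u y := by
        intro x hx
        have hxy : x ≠ y := fun e => hnotR x hx (e ▸ hy)
        rcases Lk.third h hyC (hXB x hx) hxy with h3 | h3
        · exact h3
        · exact absurd (hsubR h3) (hnotR x hx)
      have hdeg : 2 ≤ (Nb G {y} \ insert c (insert q W)).ncard := by
        have h3 := h.cn.four_le_nb_singleton y
        have h4 : Nb G {y} ⊆ (Nb G {y} \ insert c (insert q W)) ∪ {q} := by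
          intro z hz
          by_cases hzX : z ∈ insert c (insert q W)
          · right
            obtain ⟨-, y', hy', hyz⟩ := hz
            rw [mem_singleton_iff] at hy'
            subst hy'
            rcases hzX with rfl | rfl | hzW
            · exact absurd hyz.symm (sd_nadj hW.hc1 (hcW (Or.inl rfl)) hy)
            · rfl
            · exact absurd hyz.symm (sd_nadj hW.hc1 (hcW (Or.inr hzW)) hy)
          · exact Or.inl ⟨hz, hzX⟩
        have h5 := ncard_le_ncard h4 (toFinite _)
        have h6 := ncard_union_le (Nb G {y} \ insert c (insert q W)) {q}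
        rw [ncard_singleton] at h6
        omega
      have hfour : ∀ E ⊆ insert q W, E.Nonempty → 4 ≤ (Nb G E).ncard := by
        intro E hE hne
        refine Lk.four h (fun z hz => hXB z (Or.inr (hE hz))) hne ?_
        have h3 : Nb G E ∩ B ⊆ {m1, m2} := by
          rintro z ⟨⟨hz, e, he, hez⟩, hzB⟩
          have h4 : z ∈ Nb G W := by
            rcases hE he with rfl | heW
            · rcases hN z hez with h5 | h5
              · exact absurd hzB (hWB z h5)
              · exact absurd (h5 ▸ hzB) hyB
            · exact ⟨fun h' => hWB z h' hzB, e, heW, hez⟩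
          rw [hW.web.nb] at h4
          rcases h4 with h4 | h4 | h4
          · exact absurd (h4 ▸ hzB) hcB
          · exact absurd (h4 ▸ hzB) hc1B
          · exact h4
        have h4 := ncard_le_ncard h3 (toFinite _)
        have h5 := ncard_insert_le m1 {m2}
        rw [ncard_singleton] at h5
        omega
      refine ⟨insert q W, y, subset_insert _ _,
        hW.web.ext hW.ne.symm hm1c1 hm2c1 hyW hyNW hyq.symm hN hfour,
        fun t ht => h.st_ext hyC hRc hXL hdeg ht,
        Or.inl ⟨hyC, hRc, ?_, fun x hx hx' => hnotR x (Or.inr hx) (hsubR hx'), ?_⟩⟩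
      · rintro (h3 | h3)
        · exact hyc1 h3
        · exact hyW h3
      · rintro rfl
        exact hnotR _ (Or.inl rfl) hy

end Pool.Agent.Lib.MP_d9512b_co
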