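import Pool.Agent.Lib.MP_d9512b_co.CC.GlueF

set_option autoImplicit false

/-!
The far case of 4-connected graphs (StFar4) from the statements StSol, StLink, StExt, StShort and
StRight (note mco_helper96_2).
-/

namespace Pool.Agent.Lib.MP_d9512b_co

open Set

variable {V : Type*} {G : SimpleGraph V} {B E F K S S' W : Set V} {a b c c1 m1 m2 u v x y z : V}

theorem Web.symm {c' : V} (h : Web G W c c' m1 m2) : Web G W c' c m1 m2 where
  con := h.con
  nb := by
    rw [h.nb]
    ext z
    simp only [mem_insert_iff, mem_singleton_iff]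
    tauto
  four := h.four
  nox := fun F F' hF hF' hFc hFc' hd h1 h2 h3 h4 => h.nox F F' hF hF' hFc hFc' hd h2 h1 h3 h4

theorem WLink.symm (h : WLink G B u v W c c1 m1 m2) : WLink G B v u W c1 c m1 m2 where
  web := h.web.symm
  hc := by
    rw [cut_comm]
    exact h.hc1
  hc1 := by
    rw [cut_comm]
    exact h.hc
  ne := h.ne.symm
  WH := by
    rw [cut_comm]
    exact h.WH
  m1B := h.m1B
  m2B := h.m2B
  mne := h.mne
  nadj := fun h' => h.nadj h'.symm
  right := h.left
  left := h.right

/-- The side of `u` together with the cutvertex is connected. -/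
theorem FarH.con_side (h : FarH G B u v) (hc : c ∈ Cut G Bᶜ u v) :
    Con G (insert c (Sd G B u c)) ∧ u ∈ insert c (Sd G B u c) := by
  by_cases huc : u = c
  · subst huc
    have h1 : Sd G B u u = ∅ := by
      rw [eq_empty_iff_forall_notMem]
      exact fun z hz => (Rc.left_mem hz).2 rfl
    rw [h1]
    refine ⟨?_, Or.inl rfl⟩
    have h2 : insert u (∅ : Set V) = {u} := by simp
    rw [h2]
    exact con_singleton u
  · have hum : u ∈ Bᶜ \ {c} := ⟨h.hu, huc⟩
    have hus : u ∈ Sd G B u c := mem_cmp_self hum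
    obtain ⟨p, hp, q, hq, -, hqH, hpq⟩ := h.con.exists_edge (X := Sd G B u c)
      hus h.hu (y := c) notMem_sd_self hc.1
    have hqc : q = c := by
      by_contra e
      exact hq (cmp_closed hp ⟨hqH, e⟩ hpq)
    subst hqc
    exact ⟨(con_cmp hum).ins hp hpq, Or.inr hus⟩

/-- The left state which consists of the cutvertex. -/
theorem FarH.st_singleton [Finite V] (h : FarH G B u v) (x c : V) :
    St G (Sd G B x c) c {c} where
  mem := rfl
  sub := fun _ hz => Or.inl hz
  con := con_singleton c
  two := fun _ hE hne => h.two_le hne (fun _ hz => notMem_B_of_sd (hE hz).1) c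

theorem sd_self_empty : Sd G B u u = ∅ := by
  rw [eq_empty_iff_forall_notMem]
  exact fun z hz => (Rc.left_mem hz).2 rfl

/-- The pigeonhole at a cutvertex with two large sides. -/
theorem good_of_sides {V : Type} [Finite V] {G : SimpleGraph V} {B : Set V} {u v c : V}
    {n : ℕ} (hRight : StRight) (h : FarH G B u v) (hc : c ∈ Cut G Bᶜ u v) (hn : 1 ≤ n)
    (hR : n ≤ (Sd G B v c).ncard) (hL : n ≤ (Sd G B u c).ncard) : ∃ S, Good G n S := by
  have hcv : c ≠ v := by
    rintro rfl
    rw [sd_self_empty, ncard_empty] at hR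
    omega
  have hcu : c ≠ u := by
    rintro rfl
    rw [sd_self_empty, ncard_empty] at hL
    omega
  obtain ⟨M, s, hs0, hsM, -, hsi, hst, hs2⟩ := hRight V G B u v c h hc hcv
  obtain ⟨M', t, ht0, htM, -, hti, htt, ht2⟩ :=
    hRight V G B v u c h.symm (by rw [cut_comm]; exact hc) hcu
  have h1 : n + 1 ≤ (s M).ncard := by
    rw [hsM, ncard_insert_of_notMem notMem_sd_self (toFinite _)]
    omega
  have h2 : n + 1 ≤ (t M').ncard := by
    rw [htM, ncard_insert_of_notMem notMem_sd_self (toFinite _)]
    omega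
  obtain ⟨k, hk, j, hj, hkj⟩ := pig hn (fun k => (s k).ncard) (fun k => (t k).ncard)
    (by simp only [hs0, ncard_singleton]) (by simp only [ht0, ncard_singleton]) hsi hti hs2 ht2
    h1 h2
  refine ⟨s k ∪ t j, ?_⟩
  have h3 := stGlue V G B u v c (s k) (t j) h hc (hst k hk) (htt j hj)
  have h4 : (s k).ncard + (t j).ncard - 1 = n := by omega
  rwa [h4] at h3

/-- (C4) The far case of 4-connected graphs from the other statements. -/
theorem stFar4_of (hSol : StSol) (hLink : StLink) (hExt : StExt) (hShort : StShort)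
    (hRight : StRight) : StFar4 := by
  classical
  intro V _ G u v n hn hG hfar
  obtain ⟨B, h⟩ := hSol V G u v hG fun C h1 h2 h3 => (by omega : 6 ≤ 4 * n + 10).trans
    (hfar C h1 h2 h3)
  have hH := hfar Bᶜ h.con h.hu h.hv
  -- sizes of the sides
  have hcard : ∀ c ∈ Cut G Bᶜ u v,
      (Bᶜ : Set V).ncard ≤ (Sd G B u c).ncard + (Sd G B v c).ncard + 1 := by
    intro c hc
    have h1 : Bᶜ ⊆ insert c (Sd G B u c ∪ Sd G B v c) := by
      intro z hz
      rcases h.side_cov hc hz with h' | h' | h'
      · exact Or.inl h'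
      · exact Or.inr (Or.inl h')
      · exact Or.inr (Or.inr h')
    have h2 := ncard_le_ncard h1 (toFinite _)
    have h3 := ncard_insert_le c (Sd G B u c ∪ Sd G B v c)
    have h4 := ncard_union_le (Sd G B u c) (Sd G B v c)
    omega
  -- the cutvertex with the largest small left side
  obtain ⟨c, ⟨hc, hcn⟩, hmax⟩ := (toFinite {c | c ∈ Cut G Bᶜ u v ∧
    (Sd G B u c).ncard < n}).exists_maximalFor (fun c => (Sd G B u c).ncard) _
    ⟨u, left_mem_cut h.hu, by rw [sd_self_empty, ncard_empty]; omega⟩
  have hcv : c ≠ v := by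
    rintro rfl
    have h1 := hcard c hc
    rw [sd_self_empty, ncard_empty] at h1
    omega
  have hmax' : ∀ d ∈ Cut G Bᶜ u v, (Sd G B u c).ncard < (Sd G B u d).ncard →
      n ≤ (Sd G B u d).ncard := by
    intro d hd hlt
    by_contra hcon
    push Not at hcon
    have := hmax (j := d) ⟨hd, hcon⟩ hlt.le
    simp only at this
    omega
  obtain ⟨c1, hc1, hcase⟩ := hLink V G B u v c h hc hcv
  -- the left side of `c1` contains `c` and the left side of `c`
  have hsub : insert c (Sd G B u c) ⊆ Sd G B u c1 := by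
    rcases hcase with ⟨-, -, h1⟩ | ⟨W, m1, m2, h1⟩
    · rw [h1]
    · rw [h1.left]
      exact subset_union_right
  have hlt : (Sd G B u c).ncard < (Sd G B u c1).ncard := by
    have h1 := ncard_le_ncard hsub (toFinite _)
    rw [ncard_insert_of_notMem notMem_sd_self (toFinite _)] at h1
    omega
  have hL1 := hmax' c1 hc1 hlt
  by_cases hR1 : n ≤ (Sd G B v c1).ncard
  · exact good_of_sides hRight h hc1 hn hR1 hL1
  · push Not at hR1
    rcases hcase with ⟨-, -, h1⟩ | ⟨W, m1, m2, hW⟩
    · exfalso
      have h2 := hcard c1 hc1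
      rw [h1, ncard_insert_of_notMem notMem_sd_self (toFinite _)] at h2
      omega
    · obtain ⟨W', c', -, hweb, hst, -⟩ := hExt V G B u v W c c1 m1 m2 h hW
      rcases hShort V G W' c c' m1 m2 n hn hweb with ⟨S, hS, hSn⟩ | ⟨Q, hQ, hcQ, hmQ, hQn⟩
      · refine ⟨S ∪ {c}, ?_⟩
        have h3 := stGlue V G B u v c S {c} h hc (hst S hS) (h.st_singleton u c)
        rwa [hSn, ncard_singleton, Nat.add_sub_cancel] at h3
      · obtain ⟨W'', c'', -, hweb', hst', -⟩ := hExt V G B v u W c1 c m1 m2 h.symm hW.symm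
        rcases hShort V G W'' c1 c'' m1 m2 n hn hweb' with
          ⟨S, hS, hSn⟩ | ⟨Q', hQ', hcQ', hmQ', hQn'⟩
        · refine ⟨{c1} ∪ S, ?_⟩
          have h3 := stGlue V G B u v c1 {c1} S h hc1 (h.st_singleton v c1) (hst' S hS)
          rwa [hSn, ncard_singleton, Nat.add_sub_cancel_left] at h3
        · exfalso
          obtain ⟨h4, h5⟩ := h.con_side hc
          obtain ⟨h6, h7⟩ := h.symm.con_side (c := c1) (by rw [cut_comm]; exact hc1)
          have h8 : Con G ((insert c (Sd G B u c) ∪ Q) ∪ (Q' ∪ insert c1 (Sd G B v c1))) :=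
            (h4.union hQ (Or.inl rfl) hcQ).union (hQ'.union h6 hcQ' (Or.inl rfl))
              (Or.inr hmQ) (Or.inl hmQ')
          have h9 := hfar _ h8 (Or.inl (Or.inl h5)) (Or.inr (Or.inr h7))
          have h10 := ncard_union_le (insert c (Sd G B u c) ∪ Q)
            (Q' ∪ insert c1 (Sd G B v c1))
          have h11 := ncard_union_le (insert c (Sd G B u c)) Q
          have h12 := ncard_union_le Q' (insert c1 (Sd G B v c1))
          have h13 := ncard_insert_le c (Sd G B u c)
          have h14 := ncard_insert_le c1 (Sd G B v c1)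
          omega

end Pool.Agent.Lib.MP_d9512b_co
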