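import Pool.Agent.Lib.MP_d9512b_co.Far
import Pool.Agent.Lib.MP_d9512b_co.H4.Defs
import Pool.Agent.Lib.MP_d9512b_co.CC.Defs

set_option autoImplicit false

/-!
Interface of the assembly of the far case of 4-connected graphs (part (C), note mco_helper96_2).
`H = Bᶜ` for a solid set `B` which can not be enlarged. For a cutvertex `c` the left side is
`Sd G B u c`, the right side is `Sd G B v c` (the left side of `u` and the right side of `v` are
empty).
-/

namespace Pool.Agent.Lib.MP_d9512b_co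

open Set

/-- The far situation. -/
structure FarH {V : Type*} (G : SimpleGraph V) (B : Set V) (u v : V) : Prop where
  cn : Cn4 G
  sol : Sol G B
  three : 3 ≤ B.ncard
  hu : u ∉ B
  hv : v ∉ B
  con : Con G Bᶜ
  one : ∀ F : Set V, Con G F → F ⊆ Bᶜ → u ∉ F → v ∉ F → Rc G (Bᶜ \ F) u v →
    (Nb G F ∩ B).ncard ≤ 1

/-- The vertices of `Bᶜ` on the side of `c` which contains `x`. -/
def Sd {V : Type*} (G : SimpleGraph V) (B : Set V) (x c : V) : Set V := cmp G (Bᶜ \ {c}) x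

theorem FarH.symm {V : Type*} {G : SimpleGraph V} {B : Set V} {u v : V} (h : FarH G B u v) :
    FarH G B v u where
  cn := h.cn
  sol := h.sol
  three := h.three
  hu := h.hv
  hv := h.hu
  con := h.con
  one := fun F hF hFB hv hu hr => h.one F hF hFB hu hv hr.symm

theorem cut_comm {V : Type*} {G : SimpleGraph V} {H : Set V} {u v : V} :
    Cut G H u v = Cut G H v u := by
  ext c
  exact ⟨fun h => ⟨h.1, fun h' => h.2 h'.symm⟩, fun h => ⟨h.1, fun h' => h.2 h'.symm⟩⟩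

/-- (C1) Existence of the far situation. -/
def StSol : Prop :=
  ∀ (V : Type) [Finite V] (G : SimpleGraph V) (u v : V), Cn4 G →
    (∀ C, Con G C → u ∈ C → v ∈ C → 6 ≤ C.ncard) → ∃ B, FarH G B u v

/-- The web `W` between consecutive cutvertices `c` and `c1`. -/
structure WLink {V : Type*} (G : SimpleGraph V) (B : Set V) (u v : V) (W : Set V)
    (c c1 m1 m2 : V) : Prop where
  web : Web G W c c1 m1 m2
  hc : c ∈ Cut G Bᶜ u v
  hc1 : c1 ∈ Cut G Bᶜ u v
  ne : c1 ≠ c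
  WH : W ⊆ Bᶜ \ Cut G Bᶜ u v
  m1B : m1 ∈ B
  m2B : m2 ∈ B
  mne : m1 ≠ m2
  nadj : ¬ G.Adj c c1
  right : Sd G B v c = W ∪ insert c1 (Sd G B v c1)
  left : Sd G B u c1 = W ∪ insert c (Sd G B u c)

/-- (C2a) Link lemma. -/
def StLink : Prop :=
  ∀ (V : Type) [Finite V] (G : SimpleGraph V) (B : Set V) (u v c : V), FarH G B u v →
    c ∈ Cut G Bᶜ u v → c ≠ v →
    ∃ c1 ∈ Cut G Bᶜ u v, (G.Adj c c1 ∧ Sd G B v c = insert c1 (Sd G B v c1) ∧
      Sd G B u c1 = insert c (Sd G B u c)) ∨ ∃ W m1 m2, WLink G B u v W c c1 m1 m2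

/-- (C2b) Extension lemma: the web states of the extended web are right states of `c`. -/
def StExt : Prop :=
  ∀ (V : Type) [Finite V] (G : SimpleGraph V) (B : Set V) (u v : V) (W : Set V)
    (c c1 m1 m2 : V), FarH G B u v → WLink G B u v W c c1 m1 m2 →
    ∃ W' c', W ⊆ W' ∧ Web G W' c c' m1 m2 ∧
      (∀ t, St G W' c t → St G (Sd G B v c) c t) ∧
      ((c' ∈ Cut G Bᶜ u v ∧ Sd G B v c = W' ∪ insert c' (Sd G B v c') ∧ c' ∉ W' ∧
          (∀ x ∈ W', x ∉ Sd G B v c') ∧ c' ≠ c) ∨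
        (c' ∈ B ∧ Sd G B v c = W'))

/-- (C3) Short webs. -/
def StShort : Prop :=
  ∀ (V : Type) [Finite V] (G : SimpleGraph V) (W : Set V) (c c' m1 m2 : V) (n : ℕ), 1 ≤ n →
    Web G W c c' m1 m2 →
    (∃ S, St G W c S ∧ S.ncard = n) ∨ ∃ Q, Con G Q ∧ c ∈ Q ∧ m1 ∈ Q ∧ Q.ncard ≤ n + 1

/-- (C5) The chain of right states (states of the whole right side of `c`). -/
def StRight : Prop :=
  ∀ (V : Type) [Finite V] (G : SimpleGraph V) (B : Set V) (u v c : V), FarH G B u v →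
    c ∈ Cut G Bᶜ u v → c ≠ v →
    ∃ (M : ℕ) (s : ℕ → Set V), s 0 = {c} ∧ s M = insert c (Sd G B v c) ∧
      (∀ k < M, s k ⊆ s (k + 1)) ∧ (∀ k < M, (s k).ncard < (s (k + 1)).ncard) ∧
      (∀ k ≤ M, St G (Sd G B v c) c (s k)) ∧ ∀ k, 1 ≤ k → k ≤ M → (s k).ncard ≤ 2 * k

/-- (C6) A right state and a left state at the same cutvertex form a good set. -/
def StGlue : Prop :=
  ∀ (V : Type) [Finite V] (G : SimpleGraph V) (B : Set V) (u v c : V) (S S' : Set V),
    FarH G B u v → c ∈ Cut G Bᶜ u v → St G (Sd G B v c) c S → St G (Sd G B u c) c S' →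
    Good G (S.ncard + S'.ncard - 1) (S ∪ S')

/-- (C4) The far case of 4-connected graphs. -/
def StFar4 : Prop :=
  ∀ (V : Type) [Finite V] (G : SimpleGraph V) (u v : V) (n : ℕ), 1 ≤ n → Cn4 G →
    (∀ C, Con G C → u ∈ C → v ∈ C → 4 * n + 10 ≤ C.ncard) → ∃ S, Good G n S

end Pool.Agent.Lib.MP_d9512b_co
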