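import Pool.Agent.Lib.MP_d9512b_co.Ear

set_option autoImplicit false

/-!
Two increasing sequences of sizes with `s k ≤ 2 k`: some sum is equal to `n + 1`.
-/

namespace Pool.Agent.Lib.MP_d9512b_co

open Set

/-- Pigeonhole for the sizes of the right and left states. -/
theorem pig {n M M' : ℕ} (hn : 1 ≤ n) (s t : ℕ → ℕ) (hs0 : s 0 = 1) (ht0 : t 0 = 1)
    (hs : ∀ k < M, s k < s (k + 1)) (ht : ∀ k < M', t k < t (k + 1))
    (hs2 : ∀ k, 1 ≤ k → k ≤ M → s k ≤ 2 * k) (ht2 : ∀ k, 1 ≤ k → k ≤ M' → t k ≤ 2 * k)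
    (hsM : n + 1 ≤ s M) (htM : n + 1 ≤ t M') :
    ∃ k ≤ M, ∃ j ≤ M', s k + t j = n + 1 := by
  have mono : ∀ (f : ℕ → ℕ) (N : ℕ), (∀ k < N, f k < f (k + 1)) → ∀ i j, i < j → j ≤ N →
      f i < f j := by
    intro f N h i j hij hj
    induction j with
    | zero => omega
    | succ j ih =>
      have h1 := h j (by omega)
      by_cases hij' : i = j
      · subst hij'
        exact h1
      · exact (ih (by omega) (by omega)).trans h1
  have hM : n / 2 ≤ M := by
    by_contra hcon
    have h1 : 1 ≤ M ∨ M = 0 := by omega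
    rcases h1 with h1 | h1
    · have := hs2 M h1 le_rfl
      omega
    · subst h1
      omega
  have hM' : n / 2 ≤ M' := by
    by_contra hcon
    have h1 : 1 ≤ M' ∨ M' = 0 := by omega
    rcases h1 with h1 | h1
    · have := ht2 M' h1 le_rfl
      omega
    · subst h1
      omega
  have bs : ∀ k ≤ n / 2, 1 ≤ s k ∧ s k ≤ n := by
    intro k hk
    rcases Nat.eq_zero_or_pos k with h | h
    · subst h
      omega
    · have h1 := hs2 k h (by omega)
      have h2 := mono s M hs 0 k h (by omega)
      omega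
  have bt : ∀ k ≤ n / 2, 1 ≤ t k ∧ t k ≤ n := by
    intro k hk
    rcases Nat.eq_zero_or_pos k with h | h
    · subst h
      omega
    · have h1 := ht2 k h (by omega)
      have h2 := mono t M' ht 0 k h (by omega)
      omega
  by_contra hcon
  push Not at hcon
  have hinjs : Set.InjOn s (Finset.range (n / 2 + 1)) := by
    intro i hi j hj hij
    rw [Finset.mem_coe, Finset.mem_range] at hi hj
    rcases lt_trichotomy i j with h | h | h
    · have := mono s M hs i j h (by omega)
      omega
    · exact h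
    · have := mono s M hs j i h (by omega)
      omega
  have hinjt : Set.InjOn (fun k => n + 1 - t k) (Finset.range (n / 2 + 1)) := by
    intro i hi j hj hij
    rw [Finset.mem_coe, Finset.mem_range] at hi hj
    have h1 := bt i (by omega)
    have h2 := bt j (by omega)
    simp only at hij
    rcases lt_trichotomy i j with h | h | h
    · have := mono t M' ht i j h (by omega)
      omega
    · exact h
    · have := mono t M' ht j i h (by omega)
      omega
  have h1 := Finset.card_image_of_injOn hinjs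
  have h2 := Finset.card_image_of_injOn hinjt
  rw [Finset.card_range] at h1 h2
  have h3 : Disjoint ((Finset.range (n / 2 + 1)).image s)
      ((Finset.range (n / 2 + 1)).image (fun k => n + 1 - t k)) := by
    rw [Finset.disjoint_left]
    intro x hx hx'
    rw [Finset.mem_image] at hx hx'
    obtain ⟨k, hk, rfl⟩ := hx
    obtain ⟨j, hj, hkj⟩ := hx'
    rw [Finset.mem_range] at hk hj
    have h4 := bt j (by omega)
    exact hcon k (by omega) j (by omega) (by omega)
  have h4 : ((Finset.range (n / 2 + 1)).image s) ∪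
      ((Finset.range (n / 2 + 1)).image (fun k => n + 1 - t k)) ⊆ Finset.Icc 1 n := by
    intro x hx
    rw [Finset.mem_union, Finset.mem_image, Finset.mem_image] at hx
    rw [Finset.mem_Icc]
    rcases hx with ⟨k, hk, rfl⟩ | ⟨k, hk, rfl⟩
    · rw [Finset.mem_range] at hk
      exact bs k (by omega)
    · rw [Finset.mem_range] at hk
      have := bt k (by omega)
      omega
  have h5 := Finset.card_le_card h4
  rw [Finset.card_union_of_disjoint h3, h1, h2, Nat.card_Icc] at h5
  omega

variable {V : Type*} {G : SimpleGraph V} {B L R S S' : Set V} {c : V} {n : ℕ}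

/-- Glueing: the vertices outside of a solid set `B` are `L`, `c` and `R` without edges between
`L` and `R`; a left state and a right state at `c` form a good set. -/
theorem good_of_glue [Finite V] (hB : Sol G B) (hB3 : 3 ≤ B.ncard) (hcB : c ∉ B)
    (hcov : ∀ z, z ∈ B ∨ z = c ∨ z ∈ L ∨ z ∈ R) (hL : ∀ z ∈ L, z ∉ B ∧ z ≠ c ∧ z ∉ R)
    (hR : ∀ z ∈ R, z ∉ B ∧ z ≠ c) (hLR : ∀ a ∈ L, ∀ b ∈ R, ¬ G.Adj a b)
    (hS : Con G S) (hS' : Con G S') (hcS : c ∈ S) (hcS' : c ∈ S') (hSR : S ⊆ insert c R)
    (hSL : S' ⊆ insert c L) (h2 : ∀ E ⊆ R \ S, E.Nonempty → 2 ≤ (Nb G E \ S).ncard)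
    (h2' : ∀ E ⊆ L \ S', E.Nonempty → 2 ≤ (Nb G E \ S').ncard)
    (hcard : S.ncard + S'.ncard = n + 1) : Good G n (S ∪ S') := by
  have hSS : S ∩ S' = {c} := by
    ext z
    constructor
    · rintro ⟨h1, h3⟩
      rcases hSR h1 with h | h
      · exact h
      · rcases hSL h3 with h' | h'
        · exact h'
        · exact absurd h (hL z h').2.2
    · rintro h
      rw [mem_singleton_iff] at h
      exact ⟨h ▸ hcS, h ▸ hcS'⟩
  have hBS : B ⊆ (S ∪ S')ᶜ := by
    rintro b hb (h | h)
    · rcases hSR h with h' | h'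
      · exact hcB (h' ▸ hb)
      · exact (hR b h').1 hb
    · rcases hSL h with h' | h'
      · exact hcB (h' ▸ hb)
      · exact (hL b h').1 hb
  have hcard' : (S ∪ S').ncard = n := by
    have h3 := ncard_union_add_ncard_inter S S' (toFinite _) (toFinite _)
    rw [hSS, ncard_singleton] at h3
    omega
  -- each vertex reaches `B` without `y`
  have key : ∀ y z, z ∈ (S ∪ S')ᶜ → z ≠ y → ∃ b ∈ B, b ≠ y ∧ Rc G ((S ∪ S')ᶜ \ {y}) z b := by
    intro y z hz hzy
    by_contra hno
    push Not at hno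
    set E := cmp G ((S ∪ S')ᶜ \ {y}) z with hE
    have hzE : z ∈ E := mem_cmp_self ⟨hz, hzy⟩
    have hEc : Con G E := con_cmp ⟨hz, hzy⟩
    have hEB : ∀ e ∈ E, e ∉ B := fun e he hb =>
      hno e hb (fun h => (cmp_subset he).2 h) he
    have hEN : ∀ a ∈ Nb G E, a ∉ S → a ∉ S' → a = y := by
      intro a ha h3 h4
      by_contra hay
      exact notMem_of_mem_nb_cmp ha ⟨fun h => h.elim h3 h4, hay⟩
    have hES : ∀ e ∈ E, e ∉ S ∧ e ∉ S' := fun e he =>
      ⟨fun h => (cmp_subset he).1 (Or.inl h), fun h => (cmp_subset he).1 (Or.inr h)⟩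
    have hLR' : ∀ e ∈ E, e ∈ L ∨ e ∈ R := by
      intro e he
      rcases hcov e with h | h | h | h
      · exact absurd h (hEB e he)
      · exact absurd (h ▸ hcS) (hES e he).1
      · exact Or.inl h
      · exact Or.inr h
    rcases hLR' z hzE with hzL | hzR
    · have hEL : E ⊆ L := by
        intro e he
        by_contra heL
        obtain ⟨p, hp, q, hq, hpE, hqE, hpq⟩ := hEc.exists_edge (X := L) hzL hzE heL he
        exact hLR p hp q ((hLR' q hqE).resolve_left hq) hpq
      have h5 := h2' E (fun e he => ⟨hEL he, (hES e he).2⟩) ⟨z, hzE⟩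
      have h6 : Nb G E \ S' ⊆ {y} := by
        rintro a ⟨ha, haS'⟩
        refine hEN a ha (fun haS => ?_) haS'
        obtain ⟨-, e, he, hea⟩ := ha
        rcases hSR haS with h | h
        · exact haS' (h ▸ hcS')
        · exact hLR e (hEL he) a h hea
      have h7 := ncard_le_ncard h6 (toFinite _)
      rw [ncard_singleton] at h7
      omega
    · have hER : E ⊆ R := by
        intro e he
        by_contra heR
        obtain ⟨p, hp, q, hq, hpE, hqE, hpq⟩ := hEc.exists_edge (X := R) hzR hzE heR he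
        exact hLR q ((hLR' q hqE).resolve_right hq) p hp hpq.symm
      have h5 := h2 E (fun e he => ⟨hER he, (hES e he).1⟩) ⟨z, hzE⟩
      have h6 : Nb G E \ S ⊆ {y} := by
        rintro a ⟨ha, haS⟩
        refine hEN a ha haS (fun haS' => ?_)
        obtain ⟨-, e, he, hea⟩ := ha
        rcases hSL haS' with h | h
        · exact haS (h ▸ hcS)
        · exact hLR a h e (hER he) hea.symm
      have h7 := ncard_le_ncard h6 (toFinite _)
      rw [ncard_singleton] at h7
      omega
  have hrc : ∀ y, ∀ a ∈ (S ∪ S')ᶜ, ∀ b ∈ (S ∪ S')ᶜ, a ≠ y → b ≠ y →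
      Rc G ((S ∪ S')ᶜ \ {y}) a b := by
    intro y a ha b hb hay hby
    obtain ⟨a', ha', hay', h3⟩ := key y a ha hay
    obtain ⟨b', hb', hby', h4⟩ := key y b hb hby
    exact (h3.trans ((hB.rc y ha' hb' hay' hby').mono
      (sdiff_subset_sdiff_left hBS))).trans h4.symm
  obtain ⟨b0, hb0⟩ := hB.1.1
  exact ⟨hcard', hS.union hS' hcS hcS', sol_of_rc ⟨b0, hBS hb0⟩ hrc ⟨c, fun h => h (Or.inl hcS)⟩,
    hB3.trans (ncard_le_ncard hBS (toFinite _))⟩

end Pool.Agent.Lib.MP_d9512b_co
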