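import Pool.Agent.Lib.MP_d9512b_co.CC.FarD
import Pool.Agent.Lib.MP_d9512b_co.CC.Glue

set_option autoImplicit false

/-!
Basic facts about the two sides of a cutvertex, and glueing of a right state and a left state
(StGlue).
-/

namespace Pool.Agent.Lib.MP_d9512b_co

open Set

variable {V : Type*} {G : SimpleGraph V} {B E F K S S' W : Set V} {a b c u v x y z : V}

theorem sd_subset : Sd G B x c ⊆ Bᶜ \ {c} := cmp_subset

theorem notMem_B_of_sd (h : z ∈ Sd G B x c) : z ∉ B := (sd_subset h).1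

theorem ne_of_sd (h : z ∈ Sd G B x c) : z ≠ c := fun e => (sd_subset h).2 e

theorem notMem_sd_self : c ∉ Sd G B x c := fun h => ne_of_sd h rfl

/-- The two sides of a cutvertex are disjoint. -/
theorem sd_disj (hc : c ∈ Cut G Bᶜ u v) (h1 : z ∈ Sd G B u c) (h2 : z ∈ Sd G B v c) : False :=
  cut_order2 hc h1 h2

/-- There are no edges between the two sides of a cutvertex. -/
theorem sd_nadj (hc : c ∈ Cut G Bᶜ u v) (h1 : a ∈ Sd G B u c) (h2 : b ∈ Sd G B v c) :
    ¬ G.Adj a b := fun h => sd_disj hc (cmp_closed h1 (sd_subset h2) h) h2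

/-- A vertex of `H` outside of a component `K` of `H \ {c}` is connected to `c` outside of `K`. -/
theorem rc_to_cut {H : Set V} (hH : Con G H) (hc : c ∈ H) (hx : x ∈ H)
    (hxK : x ∉ cmp G (H \ {c}) z) : Rc G (H \ cmp G (H \ {c}) z) x c := by
  have hcK : c ∉ cmp G (H \ {c}) z := fun h => (cmp_subset h).2 rfl
  by_cases hxc : x = c
  · subst hxc
    exact Rc.refl ⟨hx, hcK⟩
  · obtain ⟨p, hp, q, hq, -, hqH, hpq⟩ := hH.exists_edge (X := cmp G (H \ {c}) x)
      (mem_cmp_self ⟨hx, hxc⟩) hx (y := c) (fun h => (cmp_subset h).2 rfl) hc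
    have hqc : q = c := by
      by_contra e
      exact hq (cmp_closed hp ⟨hqH, e⟩ hpq)
    subst hqc
    refine ((rc_cmp hp).mono ?_).tail hpq ⟨hc, hcK⟩
    intro w hw
    exact ⟨(cmp_subset hw).1, fun h => hxK (Rc.trans h (Rc.symm hw))⟩

/-- Sets outside of `B` with neighbours in `B` and few others. -/
theorem FarH.two_le [Finite V] (h : FarH G B u v) (hE : E.Nonempty) (hEB : E ⊆ Bᶜ) (x : V) :
    2 ≤ (Nb G E \ {x}).ncard := by
  obtain ⟨e, he⟩ := hE
  by_cases h1 : B ⊆ Nb G E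
  · have h2 := ncard_le_ncard (sdiff_subset_sdiff_left h1 : B \ {x} ⊆ Nb G E \ {x}) (toFinite _)
    have h3 := ncard_le_ncard_sdiff_add_ncard B {x}
    rw [ncard_singleton] at h3
    have := h.three
    omega
  · obtain ⟨b, hb, hb'⟩ := not_subset.1 h1
    have h2 := h.cn.le_nb he (fun hbE => hEB hbE hb) hb'
    have h3 := ncard_le_ncard_sdiff_add_ncard (Nb G E) {x}
    rw [ncard_singleton] at h3
    omega

/-- Sets outside of `B` with at most three neighbours see all of `B`. -/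
theorem FarH.four_le [Finite V] (h : FarH G B u v) (hE : E.Nonempty) (hEB : E ⊆ Bᶜ)
    (hb : ∃ b ∈ B, b ∉ Nb G E) : 4 ≤ (Nb G E).ncard := by
  obtain ⟨e, he⟩ := hE
  obtain ⟨b, hb, hb'⟩ := hb
  exact h.cn.le_nb he (fun hbE => hEB hbE hb) hb'

/-- Each vertex outside of `B` is `c` or is on one of the two sides of the cutvertex `c`. -/
theorem FarH.side_cov [Finite V] (h : FarH G B u v) (hc : c ∈ Cut G Bᶜ u v) (hz : z ∉ B) :
    z = c ∨ z ∈ Sd G B u c ∨ z ∈ Sd G B v c := by
  by_contra hcon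
  push Not at hcon
  obtain ⟨hzc, hzu, hzv⟩ := hcon
  have hzm : z ∈ Bᶜ \ {c} := ⟨hz, hzc⟩
  set K := cmp G (Bᶜ \ {c}) z with hK
  have huK : u ∉ K := fun h' => hzu (Rc.symm h')
  have hvK : v ∉ K := fun h' => hzv (Rc.symm h')
  have hKB : K ⊆ Bᶜ := fun w hw => (cmp_subset hw).1
  have hr : Rc G (Bᶜ \ K) u v := (rc_to_cut h.con hc.1 h.hu huK).trans
    (rc_to_cut h.con hc.1 h.hv hvK).symm
  have h1 := h.one K (con_cmp hzm) hKB huK hvK hr
  have h2 : Nb G K ⊆ (Nb G K ∩ B) ∪ {c} := by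
    intro w hw
    by_cases hwB : w ∈ B
    · exact Or.inl ⟨hw, hwB⟩
    · right
      by_contra hwc
      exact notMem_of_mem_nb_cmp hw ⟨hwB, hwc⟩
  have h3 := ncard_le_ncard h2 (toFinite _)
  have h4 := ncard_union_le (Nb G K ∩ B) {c}
  rw [ncard_singleton] at h4
  have h5 : ∃ b ∈ B, b ∉ Nb G K := by
    by_contra hcon
    push Not at hcon
    have h6 : B ⊆ Nb G K ∩ B := fun b hb => ⟨hcon b hb, hb⟩
    have h7 := ncard_le_ncard h6 (toFinite _)
    have := h.three
    omega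
  have h6 := h.four_le (E := K) ⟨z, mem_cmp_self hzm⟩ hKB h5
  omega

/-- The neighbours of a subset of a side. -/
theorem FarH.nb_side [Finite V] (h : FarH G B u v) (hc : c ∈ Cut G Bᶜ u v)
    (hE : E ⊆ Sd G B v c) : Nb G E ⊆ B ∪ insert c (Sd G B v c) := by
  rintro w ⟨-, e, he, hew⟩
  by_cases hwB : w ∈ B
  · exact Or.inl hwB
  · right
    rcases h.side_cov hc hwB with h1 | h1 | h1
    · exact Or.inl h1
    · exact absurd hew.symm (sd_nadj hc h1 (hE he))
    · exact Or.inr h1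

/-- (C6) A right state and a left state at the same cutvertex form a good set. -/
theorem stGlue : StGlue := by
  intro V _ G B u v c S S' h hc hS hS'
  have hpos : 1 ≤ S.ncard := (ncard_pos (toFinite _)).2 ⟨c, hS.mem⟩
  exact good_of_glue (L := Sd G B u c) (R := Sd G B v c) h.sol h.three hc.1
    (fun z => by
      by_cases hz : z ∈ B
      · exact Or.inl hz
      · exact Or.inr (h.side_cov hc hz))
    (fun z hz => ⟨notMem_B_of_sd hz, ne_of_sd hz, fun hz' => sd_disj hc hz hz'⟩)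
    (fun z hz => ⟨notMem_B_of_sd hz, ne_of_sd hz⟩)
    (fun a ha b hb => sd_nadj hc ha hb) hS.con hS'.con hS.mem hS'.mem hS.sub hS'.sub
    hS.two hS'.two (by omega)

end Pool.Agent.Lib.MP_d9512b_co
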