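import Pool.Agent.Lib.MP_d9512b_co.CC.FarD
import Pool.Agent.Lib.MP_d9512b_co.CC.ClaimC

set_option autoImplicit false

/-!
(C5) The chain of right states of a cutvertex.
-/

namespace Pool.Agent.Lib.MP_d9512b_co.Rgt

open Set

variable {V : Type*} {G : SimpleGraph V} {B A W : Set V} {u v c c' x : V}

/-- Chains of states with root `c` in the region `R`, which end with `insert c A`. -/
def Rch (G : SimpleGraph V) (R : Set V) (c : V) (A : Set V) : Prop :=
  ∃ (M : ℕ) (s : ℕ → Set V), s 0 = {c} ∧ s M = A ∧ (∀ k < M, s k ⊆ s (k + 1)) ∧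
    (∀ k < M, (s k).ncard < (s (k + 1)).ncard) ∧ (∀ k ≤ M, St G R c (s k)) ∧
    ∀ k, 1 ≤ k → k ≤ M → (s k).ncard ≤ 2 * k

theorem sd_self : Sd G B v v = ∅ := by
  ext x
  constructor
  · intro hx
    exact absurd rfl (Rc.left_mem hx).2
  · exact fun hx => absurd hx (notMem_empty x)

theorem notMem_sd : c ∉ Sd G B x c := fun h => (cmp_subset h).2 rfl

theorem sd_subset : Sd G B x c ⊆ Bᶜ := fun _ h => (cmp_subset h).1

/-- Sets of vertices in the complement have many neighbours. -/
theorem two_le [Finite V] (h : FarH G B u v) {E : Set V} (hE : E ⊆ Bᶜ) (hne : E.Nonempty)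
    (c : V) : 2 ≤ (Nb G E \ {c}).ncard := by
  have h1 : 3 ≤ (Nb G E).ncard := by
    obtain ⟨x, hx⟩ := hne
    by_cases h2 : ∃ b ∈ B, b ∉ Nb G E
    · obtain ⟨b, hb, hbN⟩ := h2
      have := h.cn.le_nb hx (fun e => hE e hb) hbN
      omega
    · push Not at h2
      exact h.three.trans (ncard_le_ncard h2)
  have h2 : Nb G E ⊆ insert c (Nb G E \ {c}) := by
    intro w hw
    by_cases hwc : w = c
    · exact Or.inl hwc
    · exact Or.inr ⟨hw, hwc⟩
  have h3 := (ncard_le_ncard h2).trans (ncard_insert_le _ _)
  omega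

theorem st_singleton [Finite V] (h : FarH G B u v) : St G (Sd G B v c) c {c} where
  mem := rfl
  sub := fun x hx => Or.inl hx
  con := con_singleton c
  two := fun _ hE hne => two_le h (fun _ hx => sd_subset (hE hx).1) hne c

/-- Glue a chain to the chain of the next cutvertex. -/
theorem glue [Finite V] (hcH : c ∈ Bᶜ) (hAc : Rch G (Sd G B v c) c (insert c A))
    (hcon : Con G (insert c A)) (hc' : Rch G (Sd G B v c') c' (insert c' (Sd G B v c')))
    (hSd : Sd G B v c = A ∪ insert c' (Sd G B v c')) (hne : c' ≠ c) (hc'A : c' ∉ A)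
    (hdis : ∀ x ∈ A, x ∉ Sd G B v c') (hadj : ∃ a ∈ insert c A, G.Adj a c') :
    Rch G (Sd G B v c) c (insert c (Sd G B v c)) := by
  obtain ⟨M, t, t0, tM, t1, t2, t3, t4⟩ := hAc
  obtain ⟨N, s, s0, sN, s1, s2, s3, s4⟩ := hc'
  have hcR : c ∉ Sd G B v c := notMem_sd
  have hcS : c ∉ Sd G B v c' := fun e => hcR (by rw [hSd]; exact Or.inr (Or.inr e))
  have hA : A ⊆ Sd G B v c := by
    rw [hSd]
    exact subset_union_left
  have hcA : c ∉ A := fun e => hcR (hA e)
  have hAH : insert c A ⊆ Bᶜ := insert_subset hcH (hA.trans sd_subset)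
  have hdis' : ∀ x ∈ insert c A, x ∉ insert c' (Sd G B v c') := by
    rintro x (rfl | hx) (hx' | hx')
    · exact hne hx'.symm
    · exact hcS hx'
    · exact hc'A (hx' ▸ hx)
    · exact hdis x hx hx'
  have hst : ∀ k ≤ N, ∀ x ∈ s k, x ∈ insert c' (Sd G B v c') := fun k hk x hx => (s3 k hk).sub hx
  have hcard : ∀ k ≤ N, (insert c A ∪ s k).ncard = (insert c A).ncard + (s k).ncard := by
    intro k hk
    refine ncard_union_eq ?_
    rw [Set.disjoint_left]
    exact fun x hx hx' => hdis' x hx (hst k hk x hx')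
  -- the states
  have hst' : ∀ k ≤ N, St G (Sd G B v c) c (insert c A ∪ s k) := by
    intro k hk
    refine ⟨Or.inl (Or.inl rfl), ?_, ?_, ?_⟩
    · rintro x ((rfl | hx) | hx)
      · exact Or.inl rfl
      · exact Or.inr (hA hx)
      · right
        rw [hSd]
        exact Or.inr (hst k hk x hx)
    · obtain ⟨a, ha, hac⟩ := hadj
      exact hcon.union_adj (s3 k hk).con ha (s3 k hk).mem hac
    · intro E hE hne'
      have hE' : E ⊆ Sd G B v c' \ s k := by
        intro x hx
        have h1 := hE hx
        have h2 := h1.1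
        rw [hSd] at h2
        rcases h2 with h2 | h2 | h2
        · exact absurd (Or.inl (Or.inr h2)) h1.2
        · exact absurd (Or.inr (h2 ▸ (s3 k hk).mem)) h1.2
        · exact ⟨h2, fun e => h1.2 (Or.inr e)⟩
      have h1 := (s3 k hk).two E hE' hne'
      refine h1.trans (ncard_le_ncard ?_)
      rintro w ⟨⟨hw, y, hy, hyw⟩, hws⟩
      refine ⟨⟨hw, y, hy, hyw⟩, fun e => ?_⟩
      rcases e with e | e
      · have h2 : w ∈ Sd G B v c' := cmp_closed (hE' hy).1 ⟨hAH e, fun e' =>
          hdis' w e (Or.inl (mem_singleton_iff.1 e'))⟩ hyw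
        exact hdis' w e (Or.inr h2)
      · exact hws e
  have hAM : (insert c A).ncard ≤ 2 * M + 1 := by
    rw [← tM]
    rcases Nat.eq_zero_or_pos M with h1 | h1
    · subst h1
      rw [t0, ncard_singleton]
    · have := t4 M h1 le_rfl
      omega
  refine ⟨M + 1 + N, fun k => if k ≤ M then t k else insert c A ∪ s (k - (M + 1)), ?_, ?_, ?_, ?_,
    ?_, ?_⟩
  · simp only [Nat.zero_le, if_true]
    exact t0
  · simp only [show ¬ (M + 1 + N ≤ M) by omega, if_false, show M + 1 + N - (M + 1) = N by omega]
    rw [sN, hSd]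
    ext x
    simp only [mem_union, mem_insert_iff]
    tauto
  · intro k hk
    simp only
    by_cases h1 : k + 1 ≤ M
    · rw [if_pos (by omega), if_pos h1]
      exact t1 k (by omega)
    · rw [if_neg h1]
      by_cases h2 : k ≤ M
      · have hkM : k = M := by omega
        rw [if_pos h2, hkM, tM]
        exact subset_union_left
      · rw [if_neg h2]
        have h3 : k + 1 - (M + 1) = k - (M + 1) + 1 := by omega
        rw [h3]
        exact union_subset_union_right _ (s1 _ (by omega))
  · intro k hk
    simp only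
    by_cases h1 : k + 1 ≤ M
    · rw [if_pos (by omega), if_pos h1]
      exact t2 k (by omega)
    · rw [if_neg h1]
      by_cases h2 : k ≤ M
      · have hkM : k = M := by omega
        rw [if_pos h2, hkM, tM, hcard _ (by omega)]
        have : 0 < (s (M + 1 - (M + 1))).ncard := by
          rw [ncard_pos (toFinite _)]
          exact ⟨c', (s3 _ (by omega)).mem⟩
        omega
      · rw [if_neg h2, hcard _ (by omega), hcard _ (by omega)]
        have h3 : k + 1 - (M + 1) = k - (M + 1) + 1 := by omega
        rw [h3]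
        have := s2 (k - (M + 1)) (by omega)
        omega
  · intro k hk
    simp only
    by_cases h1 : k ≤ M
    · rw [if_pos h1]
      exact t3 k h1
    · rw [if_neg h1]
      exact hst' _ (by omega)
  · intro k hk1 hk
    simp only
    by_cases h1 : k ≤ M
    · rw [if_pos h1]
      exact t4 k hk1 h1
    · rw [if_neg h1, hcard _ (by omega)]
      rcases Nat.eq_zero_or_pos (k - (M + 1)) with h2 | h2
      · rw [h2, s0, ncard_singleton]
        omega
      · have := s4 (k - (M + 1)) h2 (by omega)
        omega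

end Pool.Agent.Lib.MP_d9512b_co.Rgt

namespace Pool.Agent.Lib.MP_d9512b_co

open Set Rgt

/-- (C5) The chain of right states, from the link lemma and the extension lemma. -/
theorem stRight (hLink : StLink) (hExt : StExt) : StRight := by
  intro V _ G B u v c h hc _
  have main : ∀ n, ∀ c, c ∈ Cut G Bᶜ u v → (Sd G B v c).ncard = n →
      Rch G (Sd G B v c) c (insert c (Sd G B v c)) := by
    intro n
    induction n using Nat.strong_induction_on with
    | _ n ih =>
      intro c hc hn
      have hS1 : St G (Sd G B v c) c {c} := st_singleton h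
      by_cases hcv : c = v
      · subst hcv
        refine ⟨0, fun _ => {c}, rfl, ?_, fun k hk => absurd hk (Nat.not_lt_zero k),
          fun k hk => absurd hk (Nat.not_lt_zero k), fun k _ => hS1, fun k h1 h2 => by omega⟩
        rw [sd_self]
        simp
      have hlt : ∀ {A : Set V} {c' : V}, Sd G B v c = A ∪ insert c' (Sd G B v c') →
          (Sd G B v c').ncard < n := by
        intro A c' hA
        rw [← hn, hA]
        have h1 : (insert c' (Sd G B v c')).ncard = (Sd G B v c').ncard + 1 :=
          ncard_insert_of_notMem notMem_sd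
        have h2 : (insert c' (Sd G B v c')).ncard ≤ (A ∪ insert c' (Sd G B v c')).ncard :=
          ncard_le_ncard subset_union_right
        omega
      obtain ⟨c1, hc1, ⟨hadj, hR, -⟩ | ⟨W, m1, m2, hW⟩⟩ := hLink V G B u v c h hc hcv
      · have hR' : Sd G B v c = ∅ ∪ insert c1 (Sd G B v c1) := by
          rw [empty_union]
          exact hR
        refine glue hc.1 (A := ∅) ?_ ?_ (ih _ (hlt hR') c1 hc1 rfl) hR' hadj.ne'
          (notMem_empty _) (fun x hx => absurd hx (notMem_empty x)) ⟨c, Or.inl rfl, hadj⟩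
        · refine ⟨0, fun _ => {c}, rfl, ?_, fun k hk => absurd hk (Nat.not_lt_zero k),
            fun k hk => absurd hk (Nat.not_lt_zero k), fun k _ => hS1, fun k h1 h2 => by omega⟩
          simp
        · rw [insert_empty_eq]
          exact con_singleton c
      · obtain ⟨W', c', -, hweb, hst, h2⟩ := hExt V G B u v W c c1 m1 m2 h hW
        have hch : Rch G (Sd G B v c) c (insert c W') := by
          obtain ⟨M, s, s0, sM, s1, s2, s3, s4⟩ := stClaimC V G W' c c' m1 m2 hweb
          exact ⟨M, s, s0, sM, s1, s2, fun k hk => hst _ (s3 k hk), s4⟩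
        rcases h2 with ⟨hc', hR, hc'W, hdis, hne⟩ | ⟨-, hR⟩
        · have hnb : c ∈ Nb G W' ∧ c' ∈ Nb G W' := by
            rw [hweb.nb]
            exact ⟨Or.inl rfl, Or.inr (Or.inl rfl)⟩
          refine glue hc.1 hch (hweb.con.nb_ins hnb.1) (ih _ (hlt hR) c' hc' rfl) hR hne hc'W
            hdis ?_
          obtain ⟨-, w, hw, hwc⟩ := hnb.2
          exact ⟨w, Or.inr hw, hwc⟩
        · have h3 : insert c (Sd G B v c) = insert c W' := by rw [hR]
          rw [h3]
          exact hch
  exact main _ c hc rfl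

end Pool.Agent.Lib.MP_d9512b_co
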