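import Pool.Agent.Lib.MP_d9512b_co.CC.Short
import Pool.Agent.Lib.MP_d9512b_co.CC.FarD

set_option autoImplicit false

/-!
Short webs: the rest of an extremal path is connected without each single vertex, and the
statement about states with a given number of vertices.
-/

namespace Pool.Agent.Lib.MP_d9512b_co.Wb

open Set

variable {V : Type*} {G : SimpleGraph V} {W P Q X Y C D E N S : Set V} {t : Fin 4 → V}
  {c x y z p q w l r j : V}

/-- The vertices of the path between `l` and `r`. -/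
structure Btw (G : SimpleGraph V) (W : Set V) (t : Fin 4 → V) (P : Set V) (l r : V)
    (Y : Set V) : Prop where
  con : Con (gw G W) Y
  sub : Y ⊆ P
  nb : ∀ v ∈ Pe t P, v ∈ Nb (gw G W) Y → v = l ∨ v = r
  al : ∃ y ∈ Y, (gw G W).Adj y l
  ar : ∃ y ∈ Y, (gw G W).Adj y r
  YA : ∀ y ∈ Y, y ∉ insert l (Lf G W t P l)
  YB : ∀ y ∈ Y, y ∉ insert r (Rg G W t P r)
  all : ∀ v ∈ Pe t P, v ∈ Rg G W t P l → v ∈ Lf G W t P r → v ∈ Y
  AB : ∀ v ∈ insert l (Lf G W t P l), v ∉ insert r (Rg G W t P r)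

theorem Web.exists_btw [Finite V] (h : Web G W t) (hX : Xt G W t P) (hl : l ∈ Pe t P)
    (hr : r ∈ Pe t P) (hj : j ∈ Pe t P) (hjl : j ∈ Rg G W t P l) (hjr : j ∈ Lf G W t P r) :
    ∃ Y, Btw G W t P l r Y := by
  have htW := h.tW
  have h02 := h.h02
  have hjlr : j ∈ Pe t P \ {l, r} := ⟨hj, fun e => e.elim (Rg_ne hjl) (Lf_ne hjr)⟩
  have hlj : l ∈ Lf G W t P j := hX.o3' htW h02 hl hjl
  have hlr : l ∈ Lf G W t P r := hX.Lf_sub_Lf htW h02 hj hjr hr hlj
  have hrl : r ∈ Rg G W t P l := hX.o3 htW h02 hr hlr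
  -- components between `l` and `r`
  have key : ∀ i, i ∈ Pe t P → i ∈ Rg G W t P l → i ∈ Lf G W t P r →
      (∀ y ∈ cmp (gw G W) (Pe t P \ {l, r}) i, y ∉ insert l (Lf G W t P l)) ∧
      (∀ y ∈ cmp (gw G W) (Pe t P \ {l, r}) i, y ∉ insert r (Rg G W t P r)) ∧
      (∃ y ∈ cmp (gw G W) (Pe t P \ {l, r}) i, (gw G W).Adj y l) ∧
      (∃ y ∈ cmp (gw G W) (Pe t P \ {l, r}) i, (gw G W).Adj y r) := by
    intro i hi hil hir
    have hilr : i ∈ Pe t P \ {l, r} := ⟨hi, fun e => e.elim (Rg_ne hil) (Lf_ne hir)⟩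
    have h1 : ∀ y ∈ cmp (gw G W) (Pe t P \ {l, r}) i, y ∉ insert l (Lf G W t P l) := by
      rintro y hy (rfl | hy')
      · exact (cmp_subset hy).2 (Or.inl rfl)
      · refine hX.o2 htW h02 hl (x := i) ?_ hil
        refine Rc.trans hy' ((Rc.symm hy).mono ?_)
        exact fun z hz => ⟨hz.1, fun e => hz.2 (Or.inl e)⟩
    have h2 : ∀ y ∈ cmp (gw G W) (Pe t P \ {l, r}) i, y ∉ insert r (Rg G W t P r) := by
      rintro y hy (rfl | hy')
      · exact (cmp_subset hy).2 (Or.inr rfl)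
      · refine hX.o2 htW h02 hr (x := i) hir ?_
        refine Rc.trans hy' ((Rc.symm hy).mono ?_)
        exact fun z hz => ⟨hz.1, fun e => hz.2 (Or.inr e)⟩
    refine ⟨h1, h2, ?_, ?_⟩
    · -- the path from `i` to `t 0` without `r` leaves the component through `l`
      have h0 : t 0 ∉ cmp (gw G W) (Pe t P \ {l, r}) i := fun e => h1 _ e (hX.con_A hl).2
      obtain ⟨a, ha, b, hb, -, hbU, hab, -⟩ := (Rc.symm hir).exists_edge
        (X := cmp (gw G W) (Pe t P \ {l, r}) i) (mem_cmp_self hilr) h0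
      have hbl : b = l := by
        by_contra e
        exact hb (cmp_closed ha ⟨hbU.1, fun e' => e'.elim e hbU.2⟩ hab)
      subst hbl
      exact ⟨a, ha, hab⟩
    · have h0 : t 2 ∉ cmp (gw G W) (Pe t P \ {l, r}) i := fun e => h2 _ e (hX.con_B hr).2
      obtain ⟨a, ha, b, hb, -, hbU, hab, -⟩ := (Rc.symm hil).exists_edge
        (X := cmp (gw G W) (Pe t P \ {l, r}) i) (mem_cmp_self hilr) h0
      have hbr : b = r := by
        by_contra e
        exact hb (cmp_closed ha ⟨hbU.1, fun e' => e'.elim hbU.2 e⟩ hab)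
      subst hbr
      exact ⟨a, ha, hab⟩
  have hAB : ∀ v ∈ insert l (Lf G W t P l), v ∉ insert r (Rg G W t P r) := by
    rintro v (rfl | hv) (rfl | hv')
    · exact Lf_ne hlr rfl
    · exact hX.o2 htW h02 hr hlr hv'
    · exact hX.o2 htW h02 hl hv hrl
    · exact hX.o2 htW h02 hr (hX.Lf_sub_Lf htW h02 hl hlr hr hv) hv'
  obtain ⟨k1, k2, k3, k4⟩ := key j hj hjl hjr
  refine ⟨cmp (gw G W) (Pe t P \ {l, r}) j, con_cmp hjlr, ?_, ?_, k3, k4, k1, k2, ?_, hAB⟩
  · intro y hy
    rcases (cmp_subset hy).1 with rfl | rfl | h5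
    · exact absurd (hX.con_A hl).2 (k1 _ hy)
    · exact absurd (hX.con_B hr).2 (k2 _ hy)
    · exact h5
  · intro v hv hvN
    by_contra hcon
    push Not at hcon
    exact notMem_of_mem_nb_cmp hvN ⟨hv, fun e => e.elim hcon.1 hcon.2⟩
  · -- a second component gives a connection without `v`
    intro v hv hvl hvr
    by_contra hvY
    obtain ⟨m1, m2, ⟨a, ha, hal⟩, b, hb, hbr⟩ := key v hv hvl hvr
    have hjY : j ∉ cmp (gw G W) (Pe t P \ {l, r}) v := fun e => hvY (Rc.symm e)
    have hjc := (hX.cut htW h02 hj).2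
    have hlj' : l ∈ Pe t P \ {j} := ⟨hl, fun e => Rg_ne hjl e.symm⟩
    have hrj' : r ∈ Pe t P \ {j} := ⟨hr, fun e => Lf_ne hjr e.symm⟩
    have hA := hX.con_A hl
    have hB := hX.con_B hr
    have e1 : insert l (Lf G W t P l) ⊆ Pe t P \ {j} := by
      intro z hz
      refine ⟨(insert_subset hl Lf_sub) hz, fun e => ?_⟩
      rw [mem_singleton_iff] at e
      subst e
      exact k1 _ (mem_cmp_self hjlr) hz
    have e2 : insert r (Rg G W t P r) ⊆ Pe t P \ {j} := by
      intro z hz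
      refine ⟨(insert_subset hr Rg_sub) hz, fun e => ?_⟩
      rw [mem_singleton_iff] at e
      subst e
      exact k2 _ (mem_cmp_self hjlr) hz
    have e3 : cmp (gw G W) (Pe t P \ {l, r}) v ⊆ Pe t P \ {j} := by
      intro z hz
      refine ⟨(cmp_subset hz).1, fun e => ?_⟩
      rw [mem_singleton_iff] at e
      subst e
      exact hjY hz
    have hvlr : v ∈ Pe t P \ {l, r} := ⟨hv, fun e => e.elim (Rg_ne hvl) (Lf_ne hvr)⟩
    refine hjc ?_
    have f1 : Rc (gw G W) (Pe t P \ {j}) (t 0) l := hA.1.rc e1 hA.2 (Or.inl rfl)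
    have f2 : Rc (gw G W) (Pe t P \ {j}) r (t 2) := hB.1.rc e2 (Or.inl rfl) hB.2
    have f3 : Rc (gw G W) (Pe t P \ {j}) a b := (con_cmp hvlr).rc e3 ha hb
    exact ((f1.tail hal.symm (e3 ha)).trans f3).trans ((Rc.adj (e3 hb) hrj' hbr).trans f2)

/-- The rest of the path is connected without each single vertex. -/
theorem Web.rc_Cc [Finite V] (h : Web G W t) (hX : Xt G W t P) (hq : q ∈ Cc G W t P)
    (hqw : q ≠ w) : Rc (hg G W t) (Cc G W t P \ {w}) q (t 1) ∨
      Rc (hg G W t) (Cc G W t P \ {w}) q (t 3) := by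
  by_cases hw : w ∈ Cc G W t P
  swap
  · left
    rw [sdiff_singleton_eq_self hw]
    exact con_Cc.2 q hq (t 1) t1_mem_Cc
  by_contra hcon
  push Not at hcon
  have htW := h.tW
  have h02 := h.h02
  have hPW := hX.pp.sub
  have hqw' : q ∈ Cc G W t P \ {w} := ⟨hq, hqw⟩
  set C := Cc G W t P with hC
  set X := cmp (hg G W t) (C \ {w}) q with hXd
  have h1X : t 1 ∉ X := hcon.1
  have h3X : t 3 ∉ X := hcon.2
  have hXC : X ⊆ C := fun x hx => (cmp_subset hx).1
  have hXW : X ⊆ W := by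
    intro x hx
    rcases Cc_sub (hXC hx) with h1 | rfl | h1
    · exact h1.1
    · exact absurd hx h1X
    · rw [mem_singleton_iff] at h1
      subst h1
      exact absurd hx h3X
  have hXc : Con (hg G W t) X := con_cmp hqw'
  have hwX : w ∉ X := fun e => (cmp_subset e).2 rfl
  -- neighbours of `X`
  have hXN : ∀ v ∈ Nb G X, v = w ∨ v ∈ Pe t P := by
    rintro v ⟨hvX, x, hx, hxv⟩
    by_contra hcon'
    push Not at hcon'
    have h1 : v ∉ C := fun e => hvX (cmp_closed hx ⟨e, hcon'.1⟩ ((hg_adj htW (hXW hx)).2 hxv))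
    rcases h.nb x (hXW hx) v hxv with h2 | ⟨i, rfl⟩
    · obtain ⟨b, hb, hvb⟩ := h.cover hX h2 h1
      exact h1 (h.mem_Cc h2 (fun e => hcon'.2 (Or.inr (Or.inr e))) hb hvb.symm)
    · fin_cases i
      · exact hcon'.2 t0_mem
      · exact h1 t1_mem_Cc
      · exact hcon'.2 t2_mem
      · exact h1 h.t3_mem_Cc
  have h4 := h.four X hXc.1 hXW
  have h5 : Nb G X ⊆ insert w (Nb G X ∩ Pe t P) := by
    intro v hv
    rcases hXN v hv with h6 | h6
    · exact Or.inl h6
    · exact Or.inr ⟨hv, h6⟩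
  have h6 := ncard_le_ncard h5
  have h7 := ncard_insert_le w (Nb G X ∩ Pe t P)
  obtain ⟨l, hl, r, hr, j, hj, -, hjl, hjr, hall⟩ :=
    hX.exists_three htW h02 (N := Nb G X ∩ Pe t P) (fun v hv => hv.2) (by omega)
  obtain ⟨Y, hY⟩ := h.exists_btw hX hl.2 hr.2 hj.2 hjl hjr
  have hYW : Y ⊆ W := fun y hy => hPW (hY.sub hy)
  have hCX : Con (hg G W t) (C \ X) := by
    have := con_Cc.diff_cmp (con_singleton w) (singleton_subset_iff.2 hw) q
      (G := hg G W t) (C := Cc G W t P)
    exact this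
  have hAP : insert l (Lf G W t P l) ⊆ Pe t P := insert_subset hl.2 Lf_sub
  have hBP : insert r (Rg G W t P r) ⊆ Pe t P := insert_subset hr.2 Rg_sub
  have hCPe : ∀ v ∈ C, v ∉ Pe t P := fun v hv => h.Cc_not_Pe hPW hv
  have hYC : ∀ y ∈ Y, y ∉ C := fun y hy e => hCPe y e (Or.inr (Or.inr (hY.sub hy)))
  -- an edge between `X` and `w`
  obtain ⟨a, haX, b, hbX, -, hbC, hab⟩ := con_Cc.exists_edge (X := X) (mem_cmp_self hqw') hq hwX hw
  have hbw : b = w := by
    by_contra e
    exact hbX (cmp_closed haX ⟨hbC, e⟩ hab)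
  subst hbw
  -- Lemma R
  have hR : ∀ y ∈ Y, ∀ v ∈ C \ X, ¬ (hg G W t).Adj y v := by
    intro y hy v hv hyv
    obtain ⟨-, xl, hxl, hxll⟩ := hl.1
    obtain ⟨-, xr, hxr, hxrr⟩ := hr.1
    obtain ⟨yl, hyl, hyll⟩ := hY.al
    obtain ⟨yr, hyr, hyrr⟩ := hY.ar
    refine Kc.false (H := hg G W t) (W := W) (t := t) (B := X) (Y := Y)
      (P := ![insert l (Lf G W t P l), insert r (Rg G W t P r), C \ X]) h.wgp.xf ?_ ?_ ?_
    · exact fun x _ y hxy => h.wgp.wgr_mem hxy
    · intro F hF hFW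
      rw [nb_hg htW hFW]
      exact h.four F hF hFW
    · exact {
        cB := hXc
        cY := hY.con.mono_graph gw_le_hg
        cP := fun i => by
          fin_cases i
          · exact (hX.con_A hl.2).1.mono_graph gw_le_hg
          · exact (hX.con_B hr.2).1.mono_graph gw_le_hg
          · exact hCX
        tW := htW
        BW := hXW
        YW := hYW
        tP := fun i => by
          fin_cases i
          · exact ⟨0, (hX.con_A hl.2).2⟩
          · exact ⟨2, (hX.con_B hr.2).2⟩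
          · exact ⟨1, t1_mem_Cc, h1X⟩
        BY := fun x hx e => hYC x e (hXC hx)
        BP := fun i x hx e => by
          fin_cases i
          · exact hCPe x (hXC e) (hAP hx)
          · exact hCPe x (hXC e) (hBP hx)
          · exact hx.2 e
        YP := fun i x hx e => by
          fin_cases i
          · exact hY.YA x e hx
          · exact hY.YB x e hx
          · exact hYC x e hx.1
        PP := fun i k hik x hx e => by
          fin_cases i <;> fin_cases k
          · exact hik rfl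
          · exact hY.AB x hx e
          · exact hCPe x e.1 (hAP hx)
          · exact hY.AB x e hx
          · exact hik rfl
          · exact hCPe x e.1 (hBP hx)
          · exact hCPe x hx.1 (hAP e)
          · exact hCPe x hx.1 (hBP e)
          · exact hik rfl
        aB := fun i => by
          fin_cases i
          · exact ⟨xl, hxl, l, Or.inl rfl, (hg_adj htW (hXW hxl)).2 hxll⟩
          · exact ⟨xr, hxr, r, Or.inl rfl, (hg_adj htW (hXW hxr)).2 hxrr⟩
          · exact ⟨a, haX, b, ⟨hbC, hbX⟩, hab⟩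
        aY := fun i => by
          fin_cases i
          · exact ⟨yl, hyl, l, Or.inl rfl, gw_le_hg hyll⟩
          · exact ⟨yr, hyr, r, Or.inl rfl, gw_le_hg hyrr⟩
          · exact ⟨y, hy, v, hv, hyv⟩ }
  -- the neighbours of `X ∪ Y`
  have hN : Nb G (X ∪ Y) ⊆ {l, r, b} := by
    rintro v ⟨hv, u, hu, huv⟩
    have hvX : v ∉ X := fun e => hv (Or.inl e)
    have hvY : v ∉ Y := fun e => hv (Or.inr e)
    rcases hu with hu | hu
    · have hvN : v ∈ Nb G X := ⟨hvX, u, hu, huv⟩
      rcases hXN v hvN with rfl | hvP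
      · exact Or.inr (Or.inr rfl)
      · rcases hall v ⟨hvN, hvP⟩ with rfl | rfl | ⟨h8, h9⟩
        · exact Or.inl rfl
        · exact Or.inr (Or.inl rfl)
        · exact absurd (hY.all v hvP h8 h9) hvY
    · have hvC : v ∉ C := fun e => hR u hu v ⟨e, hvX⟩ ((hg_adj htW (hYW hu)).2 huv)
      have hvP : v ∈ Pe t P := by
        by_contra hvP
        rcases h.nb u (hYW hu) v huv with h8 | ⟨i, rfl⟩
        · obtain ⟨d, hd, hvd⟩ := h.cover hX h8 hvC
          exact hvC (h.mem_Cc h8 (fun e => hvP (Or.inr (Or.inr e))) hd hvd.symm)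
        · fin_cases i
          · exact hvP t0_mem
          · exact hvC t1_mem_Cc
          · exact hvP t2_mem
          · exact hvC h.t3_mem_Cc
      rcases hY.nb v hvP ⟨hvY, u, hu, huv, Or.inl (hYW hu)⟩ with rfl | rfl
      · exact Or.inl rfl
      · exact Or.inr (Or.inl rfl)
  have h8 := h.four (X ∪ Y) ⟨q, Or.inl (mem_cmp_self hqw')⟩ (union_subset hXW hYW)
  have h9 := ncard_le_ncard hN
  have h10 := ncard_insert_le l ({r, b} : Set V)
  have h11 := ncard_insert_le r ({b} : Set V)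
  have h12 := ncard_singleton b
  omega

/-- Connected sets on the extremal path are states. -/
theorem Web.st_of_path [Finite V] (h : Web G W t) (hX : Xt G W t P) (h0 : t 0 ∈ S)
    (hS : S ⊆ insert (t 0) P) (hc : Con G S) : St G W (t 0) S where
  mem := h0
  sub := fun x hx => (hS hx).elim Or.inr fun e => Or.inl (hX.pp.sub e)
  con := hc
  two := by
    intro E hE hEW
    by_contra hcon
    push Not at hcon
    obtain ⟨w, hwE, hw⟩ : ∃ w, w ∉ E ∧ Nb G E \ S ⊆ {w} := by
      rcases (Nb G E \ S).eq_empty_or_nonempty with h1 | ⟨w, hw⟩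
      · exact ⟨t 0, fun e => h.tW 0 (hEW e).1, by rw [h1]; exact empty_subset _⟩
      · refine ⟨w, hw.1.1, fun x hx => ?_⟩
        by_contra hne
        have h2 : ({x, w} : Set V) ⊆ Nb G E \ S := by
          rintro v (rfl | rfl)
          · exact hx
          · exact hw
        have h3 := ncard_le_ncard h2
        rw [ncard_pair hne] at h3
        omega
    have hCS : ∀ v ∈ Cc G W t P, v ∉ S := by
      intro v hv hvS
      rcases hS hvS with rfl | h1
      · exact h.Cc_not_Pe hX.pp.sub hv t0_mem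
      · exact Cc_not_P h.tW hX.pp.sub hv h1
    -- following edges to `Cc`
    have step : ∀ x ∈ E, ∀ v ∈ Cc G W t P, v ≠ w → G.Adj x v → v ∈ E := by
      intro x hx v hv hvw hxv
      by_contra hvE
      exact hvw (hw ⟨⟨hvE, x, hx, hxv⟩, hCS v hv⟩)
    obtain ⟨x, hx⟩ := hE
    obtain ⟨q, hqE, hq, hqw⟩ : ∃ q ∈ E, q ∈ Cc G W t P ∧ q ≠ w := by
      by_cases hxP : x ∈ P
      · obtain ⟨q, hq, hqw, hxq⟩ := h.two_nb hX hxP w
        exact ⟨q, step x hx q hq hqw hxq, hq, hqw⟩
      · refine ⟨x, hx, ?_, fun e => hwE (e ▸ hx)⟩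
        by_contra hxC
        obtain ⟨q, hq, hxq⟩ := h.cover hX (hEW hx).1 hxC
        exact hxC (h.mem_Cc (hEW hx).1 hxP hq hxq.symm)
    have hfin : ∀ i, Rc (hg G W t) (Cc G W t P \ {w}) q (t i) → False := by
      intro i hr
      have h1 : t i ∈ E := by
        refine hr.mem_closed hqE ?_
        intro a ha b hb hab
        exact step a ha b hb.1 hb.2 ((hg_adj h.tW (hEW ha).1).1 hab)
      exact h.tW i (hEW h1).1
    exact (h.rc_Cc hX hq hqw).elim (hfin 1) (hfin 3)

/-- Short webs. -/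
theorem Web.short [Finite V] (h : Web G W t) (hW : Con G W) (h0 : t 0 ∈ Nb G W)
    (h2 : t 2 ∈ Nb G W) {n : ℕ} (hn : 1 ≤ n) :
    (∃ S, St G W (t 0) S ∧ S.ncard = n) ∨
      ∃ Q, Con G Q ∧ t 0 ∈ Q ∧ t 2 ∈ Q ∧ Q.ncard ≤ n + 1 := by
  have hp : Pp G W t W := ⟨Subset.rfl, hW, h0.2, h2.2⟩
  obtain ⟨P, hX⟩ := exists_xt hp
  obtain ⟨x, hx, hx0⟩ := hX.pp.a0
  obtain ⟨y, hy, hy2⟩ := hX.pp.a2
  have hc : Con G (insert (t 0) P) := hX.pp.con.ins hx hx0
  by_cases hle : n ≤ (insert (t 0) P).ncard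
  · left
    obtain ⟨S, hS, h0S, hSc, hcard⟩ := hc.exists_card (x := t 0) (mem_insert _ _) hn hle
    exact ⟨S, h.st_of_path hX h0S hS hSc, hcard⟩
  · right
    refine ⟨insert (t 2) (insert (t 0) P), hc.ins (Or.inr hy) hy2, Or.inr (Or.inl rfl),
      Or.inl rfl, ?_⟩
    have := ncard_insert_le (t 2) (insert (t 0) P)
    omega

end Pool.Agent.Lib.MP_d9512b_co.Wb

namespace Pool.Agent.Lib.MP_d9512b_co

open Set

/-- The terminals of a web, as a function. -/
theorem Web.toWb {V : Type*} [Finite V] {G : SimpleGraph V} {W : Set V} {c c' m1 m2 : V}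
    (h : Web G W c c' m1 m2) : Wb.Web G W ![c, c', m1, m2] := by
  have h1 := h.four W Subset.rfl h.con.1
  rw [h.nb] at h1
  have hne : c ≠ c' ∧ c ≠ m1 ∧ c ≠ m2 ∧ c' ≠ m1 ∧ c' ≠ m2 ∧ m1 ≠ m2 := by
    have h3 : ∀ a b d : V, ({a, b, d} : Set V).ncard ≤ 3 := by
      intro a b d
      have := ncard_insert_le a ({b, d} : Set V)
      have := ncard_insert_le b ({d} : Set V)
      have := ncard_singleton d
      omega
    refine ⟨?_, ?_, ?_, ?_, ?_, ?_⟩ <;> rintro rfl
    · have := h3 c m1 m2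
      rw [insert_eq_of_mem (mem_insert c _)] at h1
      omega
    · have := h3 c' c m2
      rw [insert_eq_of_mem (by simp)] at h1
      omega
    · have := h3 c' m1 c
      rw [insert_eq_of_mem (by simp)] at h1
      omega
    · have h4 : ({c, c', c', m2} : Set V) = {c, c', m2} := by
        rw [insert_eq_of_mem (s := {c', m2}) (mem_insert c' _)]
      have := h3 c c' m2
      rw [h4] at h1
      omega
    · have h4 : ({c, c', m1, c'} : Set V) = {c, m1, c'} := by
        rw [insert_eq_of_mem (s := {m1, c'}) (by simp)]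
      have := h3 c m1 c'
      rw [h4] at h1
      omega
    · have h4 : ({c, c', m1, m1} : Set V) = {c, c', m1} := by
        rw [pair_eq_singleton]
      have := h3 c c' m1
      rw [h4] at h1
      omega
  obtain ⟨n1, n2, n3, n4, n5, n6⟩ := hne
  have hmem : ∀ j : Fin 4, ![c, c', m1, m2] j ∈ Nb G W := by
    rw [h.nb]
    intro j
    fin_cases j <;> simp
  exact {
    inj := by
      intro i j hij
      fin_cases i <;> fin_cases j <;> simp at hij ⊢ <;> simp_all
    tW := fun j hj => (hmem j).1 hj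
    nb := by
      intro x hx y hxy
      by_cases hy : y ∈ W
      · exact Or.inl hy
      right
      have h2 : y ∈ Nb G W := ⟨hy, x, hx, hxy⟩
      rw [h.nb] at h2
      rcases h2 with rfl | rfl | rfl | h2
      · exact ⟨0, rfl⟩
      · exact ⟨1, rfl⟩
      · exact ⟨2, rfl⟩
      · exact ⟨3, (mem_singleton_iff.1 h2).symm⟩
    four := fun E hE hEW => h.four E hEW hE
    nox := fun F F' hF hF' hFW hFW' h0 h1 h2 h3 hd => h.nox F F' hFW hFW' hF hF' hd h0 h1 h2 h3 }

/-- (C3) Short webs. -/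
theorem stShort : StShort := by
  intro V _ G W c c' m1 m2 n hn h
  have hc : c ∈ Nb G W := by
    rw [h.nb]
    simp
  have hm : m1 ∈ Nb G W := by
    rw [h.nb]
    simp
  rcases h.toWb.short h.con hc hm hn with ⟨S, hS, hcard⟩ | hQ
  · left
    exact ⟨S, ⟨hS.mem, fun x hx => (hS.sub x hx).elim (fun e => Or.inr e) (fun e => Or.inl e),
      hS.con, fun E hE hne => hS.two E hne hE⟩, hcard⟩
  · exact Or.inr hQ

end Pool.Agent.Lib.MP_d9512b_co
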