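import Pool.Agent.Lib.MP_d9512b_co.CC.FarD

set_option autoImplicit false

/-!
Existence of the far situation in 4-connected graphs (statement C1).
-/

namespace Pool.Agent.Lib.MP_d9512b_co

open Set

variable {V : Type*} {G : SimpleGraph V} {u v : V}

theorem Cn4.rc_univ (h : Cn4 G) (a b : V) : Rc G univ a b := by
  have := h.2 ∅ (by simp) a b (by simp) (by simp)
  rwa [compl_empty] at this

/-- A triangle which avoids two vertices. -/
theorem Cn4.triangle [Finite V] (h : Cn4 G) {a b c : V} (hab : G.Adj a b) (hac : G.Adj a c)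
    (hbc : G.Adj b c) (hu : u ∉ ({a, b, c} : Set V)) (hv : v ∉ ({a, b, c} : Set V)) :
    ∃ C, Sol G C ∧ 3 ≤ C.ncard ∧ u ∉ C ∧ v ∉ C ∧ Rc G Cᶜ u v := by
  have h3 : ({a, b, c} : Set V).ncard = 3 := by
    rw [ncard_insert_of_notMem, ncard_pair hbc.ne]
    rintro (e | e)
    · exact hab.ne e
    · exact hac.ne e
  refine ⟨{a, b, c}, ?_, h3.ge, hu, hv, h.2 _ h3.le u v hu hv⟩
  refine ⟨?_, ?_⟩
  · have h1 : Con G {b, c} := con_pair hbc
    exact h1.ins (Or.inl rfl) hab.symm
  · have key : ∀ y x z : V, x ≠ y → z ≠ y → G.Adj x z → x ∈ ({a, b, c} : Set V) →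
        z ∈ ({a, b, c} : Set V) → Rc G (({a, b, c} : Set V) \ {y}) x z := by
      intro y x z hx hz hxz hx' hz'
      exact Rc.adj ⟨hx', hx⟩ ⟨hz', hz⟩ hxz
    intro y hy p hp q hq hpy hqy
    by_cases e : p = q
    · subst e
      exact Rc.refl ⟨hp, hpy⟩
    · refine key y p q hpy hqy ?_ hp hq
      rcases hp with rfl | rfl | hp <;> rcases hq with rfl | rfl | hq
      · exact absurd rfl e
      · exact hab
      · exact (mem_singleton_iff.1 hq) ▸ hac
      · exact hab.symm
      · exact absurd rfl e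
      · exact (mem_singleton_iff.1 hq) ▸ hbc
      · exact (mem_singleton_iff.1 hp) ▸ hac.symm
      · exact (mem_singleton_iff.1 hp) ▸ hbc.symm
      · exact absurd ((mem_singleton_iff.1 hp).trans (mem_singleton_iff.1 hq).symm) e

/-- Consecutive vertices of a geodesic are adjacent. -/
theorem geod_adj [Finite V] (hall : ∀ x, Rc G univ u x) {P : Set V} (hP : Con G P)
    (hinj : ∀ z ∈ P, ∀ z' ∈ P, lv G u z = lv G u z' → z = z') {p q : V} (hp : p ∈ P) (hq : q ∈ P)
    (hpq : lv G u q = lv G u p + 1) : G.Adj p q := by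
  obtain ⟨a, ha, b, hb, haP, hbP, hab, -⟩ := (hP.2 p hp q hq).exists_edge
    (X := {z | lv G u z ≤ lv G u p}) (by rw [Set.mem_ofPred_eq]) (by
      intro h
      rw [Set.mem_ofPred_eq] at h
      omega)
  have h1 := lv_adj (hall a) hab
  have h2 := lv_adj (hall b) hab.symm
  rw [Set.mem_ofPred_eq] at ha hb
  push Not at hb
  have ea : a = p := hinj a haP p hp (by omega)
  have eb : b = q := hinj b hbP q hq (by omega)
  exact ea ▸ eb ▸ hab

theorem lv_self [Finite V] (x : V) : lv G x x = 1 := by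
  have h1 := lv_le (con_singleton (G := G) x) rfl rfl
  rw [ncard_singleton] at h1
  obtain ⟨C, hC, hx, -, hc⟩ := lv_spec (G := G) (u := x) (x := x) (Rc.refl (mem_univ x))
  have : 0 < C.ncard := (ncard_pos (toFinite _)).2 ⟨x, hx⟩
  omega

theorem one_le_lv [Finite V] {x : V} (h : Rc G univ u x) : 1 ≤ lv G u x := by
  obtain ⟨C, hC, hx, -, hc⟩ := lv_spec h
  have : 0 < C.ncard := (ncard_pos (toFinite _)).2 ⟨u, hx⟩
  omega

/-- A solid set with at least three vertices which avoids a path between two given far vertices. -/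
theorem Cn4.exists_sol_far [Finite V] (h : Cn4 G) (u v : V)
    (hfar : ∀ C, Con G C → u ∈ C → v ∈ C → 4 ≤ C.ncard) :
    ∃ C, Sol G C ∧ 3 ≤ C.ncard ∧ u ∉ C ∧ v ∉ C ∧ Rc G Cᶜ u v := by
  obtain ⟨P, hP, hu, hv, hle, hinj⟩ := exists_geod (h.rc_univ u) v
  have hvl : 4 ≤ lv G u v := by
    obtain ⟨C, hC, hu', hv', hc⟩ := lv_spec (h.rc_univ u v)
    rw [← hc]
    exact hfar C hC hu' hv'
  have hlev : ∀ z, ∀ a ∈ Nb G {z} ∩ P, lv G u z ≤ lv G u a + 1 ∧ lv G u a ≤ lv G u z + 1 := by
    rintro z a ⟨⟨-, c, hc, hca⟩, -⟩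
    rw [mem_singleton_iff] at hc
    subst hc
    have h5 := lv_adj (h.rc_univ u c) hca
    have h6 := lv_adj (h.rc_univ u a) hca.symm
    omega
  have h3 : ∀ z, (Nb G {z} ∩ P).ncard ≤ 3 := by
    intro z
    have h4 : (Nb G {z} ∩ P).ncard ≤ (Finset.Icc (lv G u z - 1) (lv G u z + 1) : Set ℕ).ncard := by
      apply ncard_le_ncard_of_injOn (lv G u) _ _ (toFinite _)
      · intro a ha
        have := hlev z a ha
        rw [Finset.mem_coe, Finset.mem_Icc]
        omega
      · rintro a ⟨-, haP⟩ b ⟨-, hbP⟩ hab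
        exact hinj a haP b hbP hab
    rw [ncard_coe_finset, Nat.card_Icc] at h4
    omega
  by_cases h2 : ∀ z ∈ Pᶜ, ∃ a ∈ Pᶜ, ∃ b ∈ Pᶜ, a ≠ b ∧ G.Adj z a ∧ G.Adj z b
  · -- the complement of the geodesic has minimum degree two
    have hne : (Pᶜ : Set V).Nonempty := by
      have h4 := h.four_le_nb_singleton u
      have h5 := h3 u
      have h6 := ncard_inter_add_ncard_sdiff_eq_ncard (Nb G {u}) P (toFinite _)
      have : 0 < (Nb G {u} \ P).ncard := by omega
      obtain ⟨a, ha⟩ := (ncard_pos (toFinite _)).1 this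
      exact ⟨a, ha.2⟩
    obtain ⟨C, hC, hs, hc⟩ := exists_sol (G := G) (D := Pᶜ) hne h2
    refine ⟨C, hs, hc, fun h => hC h hu, fun h => hC h hv, ?_⟩
    exact hP.rc (fun z hz hzC => hC hzC hz) hu hv
  · push Not at h2
    obtain ⟨z, hz, hz2⟩ := h2
    have hN : 3 ≤ (Nb G {z} ∩ P).ncard := by
      by_contra hcon
      have h4 := h.four_le_nb_singleton z
      have h6 := ncard_inter_add_ncard_sdiff_eq_ncard (Nb G {z}) P (toFinite _)
      obtain ⟨a, ⟨⟨-, c, hc, hca⟩, ha⟩, b, ⟨⟨-, d, hd, hdb⟩, hb⟩, hab⟩ :=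
        exists_two (U := Nb G {z} \ P) (by omega)
      rw [mem_singleton_iff] at hc hd
      subst hc hd
      exact hz2 a ha b hb hab hca hdb
    -- neighbours on three consecutive levels
    have hfind : ∀ k, lv G u z ≤ k + 1 → k ≤ lv G u z + 1 →
        ∃ a ∈ Nb G {z} ∩ P, lv G u a = k := by
      intro k hk1 hk2
      by_contra hcon
      push Not at hcon
      have h4 : (Nb G {z} ∩ P).ncard ≤
          (((Finset.Icc (lv G u z - 1) (lv G u z + 1)).erase k : Finset ℕ) : Set ℕ).ncard := by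
        apply ncard_le_ncard_of_injOn (lv G u) _ _ (toFinite _)
        · intro a ha
          have h5 := hlev z a ha
          have h6 := hcon a ha
          rw [Finset.mem_coe, Finset.mem_erase, Finset.mem_Icc]
          omega
        · rintro a ⟨-, haP⟩ b ⟨-, hbP⟩ hab
          exact hinj a haP b hbP hab
      rw [ncard_coe_finset, Finset.card_erase_of_mem (by
        rw [Finset.mem_Icc]
        omega), Nat.card_Icc] at h4
      omega
    obtain ⟨p2, hp2, hl2⟩ := hfind (lv G u z) (by omega) (by omega)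
    obtain ⟨p3, hp3, hl3⟩ := hfind (lv G u z + 1) (by omega) (by omega)
    have hz1 := one_le_lv (h.rc_univ u z)
    obtain ⟨p1, hp1, hl1⟩ := hfind (lv G u z - 1) (by omega) (by omega)
    have had : ∀ p ∈ Nb G {z} ∩ P, G.Adj z p := by
      rintro p ⟨⟨-, c, hc, hca⟩, -⟩
      rw [mem_singleton_iff] at hc
      exact hc ▸ hca
    have h11 := one_le_lv (h.rc_univ u p1)
    have h12 := geod_adj (h.rc_univ u) hP hinj hp1.2 hp2.2 (by omega)
    have h23 := geod_adj (h.rc_univ u) hP hinj hp2.2 hp3.2 (by omega)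
    have hlu := lv_self (G := G) u
    have hzu : z ≠ u := fun e => hz (e ▸ hu)
    have hzv : z ≠ v := fun e => hz (e ▸ hv)
    have h2u : p2 ≠ u := by
      rintro rfl
      omega
    have h2v : p2 ≠ v := by
      rintro rfl
      have := hle p3 hp3.2
      omega
    by_cases h3v : p3 = v
    · -- then `p1` is not `u`
      have h1u : p1 ≠ u := by
        rintro rfl
        rw [h3v] at hl3
        omega
      have h1v : p1 ≠ v := by
        rintro rfl
        have := hle p3 hp3.2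
        omega
      refine h.triangle (had p1 hp1) (had p2 hp2) h12 ?_ ?_
      · rintro (e | e | e)
        · exact hzu e.symm
        · exact h1u e.symm
        · exact h2u e.symm
      · rintro (e | e | e)
        · exact hzv e.symm
        · exact h1v e.symm
        · exact h2v e.symm
    · have h3u : p3 ≠ u := by
        rintro rfl
        omega
      refine h.triangle (had p2 hp2) (had p3 hp3) h23 ?_ ?_
      · rintro (e | e | e)
        · exact hzu e.symm
        · exact h2u e.symm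
        · exact h3u e.symm
      · rintro (e | e | e)
        · exact hzv e.symm
        · exact h2v e.symm
        · exact h3v e.symm

/-- (C1) Existence of the far situation. -/
theorem stSol : StSol := by
  intro V _ G u v h hfar
  have hex : ∃ B : Set V, (Sol G B ∧ 3 ≤ B.ncard ∧ u ∉ B ∧ v ∉ B ∧ Rc G Bᶜ u v) ∧
      ∀ B' : Set V, (Sol G B' ∧ 3 ≤ B'.ncard ∧ u ∉ B' ∧ v ∉ B' ∧ Rc G B'ᶜ u v) → B ⊆ B' →
        B' ⊆ B := by
    obtain ⟨B, hB, hmax⟩ := (toFinite {B : Set V | Sol G B ∧ 3 ≤ B.ncard ∧ u ∉ B ∧ v ∉ B ∧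
      Rc G Bᶜ u v}).exists_maximal (h.exists_sol_far u v fun C h1 h2 h3 =>
        (by omega : 4 ≤ 6).trans (hfar C h1 h2 h3))
    exact ⟨B, hB, fun B' hB' hle => hmax hB' hle⟩
  obtain ⟨B, ⟨hB, hB3, huB, hvB, huv⟩, hmax⟩ := hex
  have hM : ∀ F, Con G F → F ⊆ Bᶜ → u ∉ F → v ∉ F → Rc G (Bᶜ \ F) u v →
      (Nb G F ∩ B).ncard ≤ 1 := by
    intro F hF hFH huF hvF hr
    by_contra hcon
    obtain ⟨b, hb, b', hb', hne⟩ := exists_two (U := Nb G F ∩ B) (by omega)
    obtain ⟨C, hC, ⟨c, hc⟩, hs⟩ := hB.ear hF (fun z hz => hFH hz)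
      ⟨b, hb.2, b', hb'.2, hne, hb.1, hb'.1⟩
    have h1 : B ∪ C ⊆ B := by
      apply hmax _ _ subset_union_left
      refine ⟨hs, hB3.trans (ncard_le_ncard subset_union_left (toFinite _)), ?_, ?_, ?_⟩
      · rintro (h | h)
        · exact huB h
        · exact huF (hC h)
      · rintro (h | h)
        · exact hvB h
        · exact hvF (hC h)
      · refine hr.mono ?_
        rintro z ⟨hz1, hz2⟩ (h | h)
        · exact hz1 h
        · exact hz2 (hC h)
    exact hFH (hC hc) (h1 (Or.inr hc))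
  have hH : Con G Bᶜ := by
    have h1 : ∀ z ∈ Bᶜ, Rc G Bᶜ u z := by
      intro z hz
      by_contra hcon
      have huK : u ∉ cmp G Bᶜ z := fun h => hcon (Rc.symm h)
      have hvK : v ∉ cmp G Bᶜ z := fun h => hcon (huv.trans (Rc.symm h))
      have h2 := hM (cmp G Bᶜ z) (con_cmp hz) cmp_subset huK hvK (by
        refine (rc_cmp huv).mono ?_
        exact fun w hw => ⟨cmp_subset hw, fun h => hcon (Rc.trans hw (Rc.symm h))⟩)
      have h3 : Nb G (cmp G Bᶜ z) ⊆ Nb G (cmp G Bᶜ z) ∩ B := by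
        intro w hw
        refine ⟨hw, ?_⟩
        by_contra hwB
        exact notMem_of_mem_nb_cmp hw hwB
      have h4 := ncard_le_ncard h3 (toFinite _)
      have h5 := h.le_nb (mem_cmp_self hz) huK (fun h => notMem_of_mem_nb_cmp h huB)
      omega
    exact ⟨⟨u, huB⟩, fun a ha b hb => (h1 a ha).symm.trans (h1 b hb)⟩
  exact ⟨B, h, hB, hB3, huB, hvB, hH, hM⟩

end Pool.Agent.Lib.MP_d9512b_co
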