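import Pool.Agent.Lib.MP_d9512b_co.CC.Final4
import Pool.Agent.Lib.MP_d9512b_co.CC.Far4
import Pool.Agent.Lib.MP_d9512b_co.CC.Link
import Pool.Agent.Lib.MP_d9512b_co.CC.Right
import Pool.Agent.Lib.MP_d9512b_co.CC.GlueF
import Pool.Agent.Lib.MP_d9512b_co.CC.Short2
import Pool.Agent.Lib.MP_d9512b_co.CC.Sol
import Pool.Agent.Lib.MP_d9512b_co.CC.Ext

set_option autoImplicit false

/-! The far case of 4-connected graphs without hypotheses. -/

namespace Pool.Agent.Lib.MP_d9512b_co

theorem stFar4 : StFar4 :=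
  stFar4_of stSol stLink stExt stShort (stRight stLink stExt)

end Pool.Agent.Lib.MP_d9512b_co
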