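import Pool.Agent.Lib.MP_d9512b_co.H4.Main
import Pool.Agent.Lib.MP_d9512b_co.Final
import Pool.Agent.Lib.MP_d9512b_co.CC.FarD

set_option autoImplicit false

/-!
Contractible subgraphs of 4-connected graphs: the theorem from the far case.
-/

namespace Pool.Agent.Lib.MP_d9512b_co

open Set

theorem Cn4.rc_univ {V : Type*} {G : SimpleGraph V} (h : Cn4 G) (x y : V) : Rc G univ x y := by
  have := h.2 ∅ (by simp) x y (by simp) (by simp)
  rwa [compl_empty] at this

/-- A vertex of large degree or two vertices at large distance. -/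
theorem Cn4.hub_or_far {V : Type*} {G : SimpleGraph V} [Finite V] (h : Cn4 G) (D n : ℕ)
    (hc : (D + 1) ^ n < Nat.card V) :
    (∃ w, D < (Nb G {w}).ncard) ∨
      ∃ u v, ∀ C, Con G C → u ∈ C → v ∈ C → n ≤ C.ncard := by
  by_cases hD : ∃ w, D < (Nb G {w}).ncard
  · exact Or.inl hD
  · right
    push Not at hD
    have hpos : 0 < Nat.card V := by omega
    obtain ⟨⟨u⟩, -⟩ := Nat.card_pos_iff.1 hpos
    have h1 := ball_card u D (h.rc_univ u) hD n
    obtain ⟨v, hv⟩ : ∃ v, v ∉ {x | lv G u x ≤ n + 1} := by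
      by_contra hcon
      push Not at hcon
      have h2 : {x | lv G u x ≤ n + 1} = univ := eq_univ_of_forall hcon
      rw [h2, ncard_univ] at h1
      omega
    refine ⟨u, v, fun C hC hu hv' => ?_⟩
    have h2 := lv_le hC hu hv'
    rw [mem_ofPred_eq] at hv
    omega

/-- Large 4-connected graphs have a connected set of `n` vertices with solid complement. -/
theorem exists_good4 (hF : StFar4) (n : ℕ) (hn : 1 ≤ n) : ∃ N : ℕ, ∀ (V : Type) [Finite V]
    (G : SimpleGraph V), N ≤ Nat.card V → Cn4 G → ∃ S, Good G n S := by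
  obtain ⟨D, hD⟩ := hub4 n hn
  refine ⟨(D + 1) ^ (4 * n + 10) + 1, fun V _ G hc h => ?_⟩
  rcases h.hub_or_far D (4 * n + 10) (by omega) with ⟨w, hw⟩ | ⟨u, v, hfar⟩
  · exact hD V G h w hw.le
  · exact hF V G u v n hn h hfar

/-- The final theorem from the far case. -/
theorem four_connected_of (hF : StFar4) : ∀ n : ℕ, 1 ≤ n → ∃ N : ℕ,
    ∀ (V : Type) [Fintype V] [DecidableEq V] (G : SimpleGraph V), N ≤ Fintype.card V →
    (5 ≤ Fintype.card V ∧
      ∀ X : Finset V, X.card ≤ 3 → (G.induce ((↑X : Set V)ᶜ)).Connected) →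
    ∃ S : Finset V, ∃ s0 ∈ S, S.card = n ∧ (G.induce (↑S : Set V)).Connected ∧
      (4 ≤ (insert s0 ((↑S : Set V)ᶜ)).ncard ∧
        ∀ X : Finset V, X.card ≤ 2 →
          ((SimpleGraph.fromRel (fun x y : V => ∃ a b, G.Adj a b ∧
              (if a ∈ S then s0 else a) = x ∧ (if b ∈ S then s0 else b) = y)).induce
            (insert s0 ((↑S : Set V)ᶜ) \ (↑X : Set V))).Connected) := by
  intro n hn
  obtain ⟨N, hN⟩ := exists_good4 hF n hn
  refine ⟨N, fun V _ _ G hc ⟨h6, hcon⟩ => ?_⟩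
  have h5 : Cn4 G := by
    refine ⟨by rwa [Nat.card_eq_fintype_card], ?_⟩
    intro X hX a b ha hb
    have h1 := hcon X.toFinite.toFinset (by rwa [← Set.ncard_eq_toFinset_card X X.toFinite])
    rw [Set.Finite.coe_toFinset] at h1
    exact rc_of_reachable ⟨a, ha⟩ ⟨b, hb⟩ (h1.preconnected _ _)
  obtain ⟨S, hS⟩ := hN V G (by rwa [Nat.card_eq_fintype_card]) h5
  have hSS : ((S.toFinite.toFinset : Finset V) : Set V) = S := Set.Finite.coe_toFinset _
  obtain ⟨s0, hs0⟩ := hS.con.1
  refine ⟨S.toFinite.toFinset, s0, by simpa using hs0, ?_, ?_, ?_⟩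
  · rw [← Set.ncard_eq_toFinset_card S S.toFinite]
    exact hS.card
  · rw [hSS]
    exact connected_of_con hS.con
  · exact contract_of_good (fun X hX => h5.2 X (by omega)) (by rwa [hSS]) (by simpa using hs0)

end Pool.Agent.Lib.MP_d9512b_co
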