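import Pool.Agent.Lib.MP_d9512b_co.Base

set_option autoImplicit false

/-!
The rooted `K_{3,3}` lemma: in a graph with four terminals without a cross, in which every set of
further vertices has at least four neighbours, there are no two connected sets `B`, `Y` of further
vertices, both adjacent to three connected sets which contain terminals.
-/

namespace Pool.Agent.Lib.MP_d9512b_co.Wb

open Set

variable {V : Type*} {H : SimpleGraph V} {t : Fin 4 → V} {W B Y D : Set V} {P : Fin 3 → Set V}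
  {x y z v : V}

/-- The partner of a terminal. -/
def pt (i : Fin 4) : Fin 4 := if i = 0 then 1 else if i = 1 then 0 else if i = 2 then 3 else 2

/-- There is no cross. -/
def XF (H : SimpleGraph V) (t : Fin 4 → V) : Prop :=
  ∀ A B : Set V, Con H A → Con H B → t 0 ∈ A → t 1 ∈ A → t 2 ∈ B → t 3 ∈ B → ¬ Disjoint A B

theorem XF.all (h : XF H t) {i j : Fin 4} (hij : j ≠ i) (hij' : j ≠ pt i) {A B : Set V}
    (hA : Con H A) (hB : Con H B) (h1 : t i ∈ A) (h2 : t (pt i) ∈ A) (h3 : t j ∈ B)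
    (h4 : t (pt j) ∈ B) : ¬ Disjoint A B := by
  fin_cases i <;> fin_cases j <;> simp [pt] at hij hij' h1 h2 h3 h4
  · exact h A B hA hB h1 h2 h3 h4
  · exact h A B hA hB h1 h2 h4 h3
  · exact h A B hA hB h2 h1 h3 h4
  · exact h A B hA hB h2 h1 h4 h3
  · exact fun hd => h B A hB hA h3 h4 h1 h2 hd.symm
  · exact fun hd => h B A hB hA h4 h3 h1 h2 hd.symm
  · exact fun hd => h B A hB hA h3 h4 h2 h1 hd.symm
  · exact fun hd => h B A hB hA h4 h3 h2 h1 hd.symm

theorem pt_one : ∀ k e0 e1 e2 : Fin 4, e0 ≠ e1 → e0 ≠ e2 → e1 ≠ e2 → k ≠ e0 → k ≠ e1 → k ≠ e2 →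
    (pt k = e0 ∧ pt e1 = e2 ∧ e1 ≠ pt k) ∨ (pt k = e1 ∧ pt e0 = e2 ∧ e0 ≠ pt k) ∨
      (pt k = e2 ∧ pt e0 = e1 ∧ e0 ≠ pt k) := by decide

/-- Connected sets of size at least two have at least two vertices which do not separate. -/
theorem exists_noncut_ne [Finite V] (hD : Con H D) (h2 : 2 ≤ D.ncard) (hx : x ∈ D) :
    ∃ z ∈ D, z ≠ x ∧ Con H (D \ {z}) := by
  obtain ⟨S, hS, hxS, hc, hcard⟩ := hD.exists_card hx (k := D.ncard - 1) (by omega) (by omega)
  obtain ⟨z, hz, hzS⟩ : ∃ z ∈ D, z ∉ S := by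
    by_contra hcon
    push Not at hcon
    have := ncard_le_ncard (show D ⊆ S from hcon)
    omega
  refine ⟨z, hz, fun e => hzS (e ▸ hxS), ?_⟩
  have h3 : D \ {z} = S := by
    symm
    refine eq_of_subset_of_ncard_le (t := D \ {z}) ?_ ?_ (Set.toFinite _)
    · intro a ha
      exact ⟨hS ha, fun h => hzS (by rw [mem_singleton_iff] at h; rwa [← h])⟩
    · rw [ncard_sdiff_singleton_of_mem hz]
      omega
  rw [h3]
  exact hc

/-- Two connected sets `B`, `Y` without terminals adjacent to three connected sets with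
terminals. -/
structure Kc (H : SimpleGraph V) (W : Set V) (t : Fin 4 → V) (B Y : Set V) (P : Fin 3 → Set V) : Prop where
  cB : Con H B
  cY : Con H Y
  cP : ∀ i, Con H (P i)
  tW : ∀ j, t j ∉ W
  BW : B ⊆ W
  YW : Y ⊆ W
  tP : ∀ i, ∃ j, t j ∈ P i
  BY : ∀ x ∈ B, x ∉ Y
  BP : ∀ i, ∀ x ∈ P i, x ∉ B
  YP : ∀ i, ∀ x ∈ P i, x ∉ Y
  PP : ∀ i j, i ≠ j → ∀ x ∈ P i, x ∉ P j
  aB : ∀ i, ∃ b ∈ B, ∃ x ∈ P i, H.Adj b x
  aY : ∀ i, ∃ b ∈ Y, ∃ x ∈ P i, H.Adj b x

theorem Kc.tB (h : Kc H W t B Y P) (j : Fin 4) : t j ∉ B := fun hj => h.tW j (h.BW hj)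

theorem Kc.tY (h : Kc H W t B Y P) (j : Fin 4) : t j ∉ Y := fun hj => h.tW j (h.YW hj)

theorem Kc.swap (h : Kc H W t B Y P) : Kc H W t Y B P :=
  ⟨h.cY, h.cB, h.cP, h.tW, h.YW, h.BW, h.tP, fun x hx hx' => h.BY x hx' hx, h.YP, h.BP, h.PP, h.aY,
    h.aB⟩

/-- Add an unused vertex. -/
theorem Kc.addB (h : Kc H W t B Y P) (hv : v ∈ Nb H B) (hY : v ∉ Y) (hP : ∀ i, v ∉ P i)
    (hW : v ∈ W) : Kc H W t (insert v B) Y P where
  cB := h.cB.nb_ins hv
  cY := h.cY
  cP := h.cP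
  tW := h.tW
  BW := insert_subset hW h.BW
  YW := h.YW
  tP := h.tP
  BY := fun x hx => by
    rcases hx with rfl | hx
    · exact hY
    · exact h.BY x hx
  BP := fun i x hx hx' => by
    rcases hx' with rfl | hx'
    · exact hP i hx
    · exact h.BP i x hx hx'
  YP := h.YP
  PP := h.PP
  aB := fun i => by
    obtain ⟨b, hb, x, hx, hbx⟩ := h.aB i
    exact ⟨b, Or.inr hb, x, hx, hbx⟩
  aY := h.aY

theorem upd_sub (i : Fin 3) (z : V) (j : Fin 3) :
    Function.update P i (P i \ {z}) j ⊆ P j := by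
  by_cases hj : j = i
  · subst hj
    rw [Function.update_self]
    exact sdiff_subset
  · rw [Function.update_of_ne hj]

/-- Delete a vertex of one of the three sets. -/
theorem Kc.del (h : Kc H W t B Y P) (i : Fin 3) (hc : Con H (P i \ {z}))
    (ht : ∃ j, t j ∈ P i \ {z}) (hB : ∃ b ∈ B, ∃ x ∈ P i \ {z}, H.Adj b x)
    (hY : ∃ b ∈ Y, ∃ x ∈ P i \ {z}, H.Adj b x) :
    Kc H W t B Y (Function.update P i (P i \ {z})) where
  cB := h.cB
  cY := h.cY
  cP := fun j => by
    by_cases hj : j = i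
    · subst hj
      rw [Function.update_self]
      exact hc
    · rw [Function.update_of_ne hj]
      exact h.cP j
  tW := h.tW
  BW := h.BW
  YW := h.YW
  tP := fun j => by
    by_cases hj : j = i
    · subst hj
      rw [Function.update_self]
      exact ht
    · rw [Function.update_of_ne hj]
      exact h.tP j
  BY := h.BY
  BP := fun j x hx => h.BP j x (upd_sub i z j hx)
  YP := fun j x hx => h.YP j x (upd_sub i z j hx)
  PP := fun j k hjk x hx hx' => h.PP j k hjk x (upd_sub i z j hx) (upd_sub i z k hx')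
  aB := fun j => by
    by_cases hj : j = i
    · subst hj
      rw [Function.update_self]
      exact hB
    · rw [Function.update_of_ne hj]
      exact h.aB j
  aY := fun j => by
    by_cases hj : j = i
    · subst hj
      rw [Function.update_self]
      exact hY
    · rw [Function.update_of_ne hj]
      exact h.aY j

/-- Move a vertex of one of the three sets to `B`. -/
theorem Kc.mov (h : Kc H W t B Y P) (i : Fin 3) (hz : z ∈ P i) (hc : Con H (P i \ {z}))
    (hzW : z ∈ W) (hB : z ∈ Nb H B) (hY : ∃ b ∈ Y, ∃ x ∈ P i \ {z}, H.Adj b x) :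
    Kc H W t (insert z B) Y (Function.update P i (P i \ {z})) := by
  have hzY : z ∉ Y := h.YP i z hz
  have hzt : ∀ j, t j ≠ z := fun j e => h.tW j (e ▸ hzW)
  have hadj : ∃ x ∈ P i \ {z}, H.Adj z x := by
    obtain ⟨y, hy⟩ := hc.1
    obtain ⟨a, ha, b, hb, -, hbP, hab⟩ := (h.cP i).exists_edge (X := {z}) (x := z) rfl hz
      (y := y) hy.2 hy.1
    rw [mem_singleton_iff] at ha
    subst ha
    exact ⟨b, ⟨hbP, hb⟩, hab⟩
  exact {
    cB := h.cB.nb_ins hB
    cY := h.cY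
    cP := fun j => by
      by_cases hj : j = i
      · subst hj
        rw [Function.update_self]
        exact hc
      · rw [Function.update_of_ne hj]
        exact h.cP j
    tW := h.tW
    BW := insert_subset hzW h.BW
    YW := h.YW
    tP := fun j => by
      by_cases hj : j = i
      · subst hj
        rw [Function.update_self]
        obtain ⟨k, hk⟩ := h.tP j
        exact ⟨k, hk, hzt k⟩
      · rw [Function.update_of_ne hj]
        exact h.tP j
    BY := fun x hx => by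
      rcases hx with rfl | hx
      · exact hzY
      · exact h.BY x hx
    BP := fun j x hx hx' => by
      rcases hx' with rfl | hx'
      · by_cases hj : j = i
        · subst hj
          rw [Function.update_self] at hx
          exact hx.2 rfl
        · exact h.PP j i hj x (upd_sub i x j hx) hz
      · exact h.BP j x (upd_sub i z j hx) hx'
    YP := fun j x hx => h.YP j x (upd_sub i z j hx)
    PP := fun j k hjk x hx hx' => h.PP j k hjk x (upd_sub i z j hx) (upd_sub i z k hx')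
    aB := fun j => by
      by_cases hj : j = i
      · subst hj
        rw [Function.update_self]
        obtain ⟨x, hx, hzx⟩ := hadj
        exact ⟨z, Or.inl rfl, x, hx, hzx⟩
      · rw [Function.update_of_ne hj]
        obtain ⟨b, hb, x, hx, hbx⟩ := h.aB j
        exact ⟨b, Or.inr hb, x, hx, hbx⟩
    aY := fun j => by
      by_cases hj : j = i
      · subst hj
        rw [Function.update_self]
        exact hY
      · rw [Function.update_of_ne hj]
        exact h.aY j }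

/-- The connected set `P i ∪ B ∪ P j`. -/
theorem Kc.con3 (h : Kc H W t B Y P) (i j : Fin 3) : Con H (P i ∪ B ∪ P j) := by
  obtain ⟨b, hb, x, hx, hbx⟩ := h.aB i
  obtain ⟨b', hb', x', hx', hbx'⟩ := h.aB j
  exact (((h.cP i).union_adj h.cB hx hb hbx.symm)).union_adj (h.cP j) (Or.inr hb') hx' hbx'

/-- A fourth terminal adjacent to `Y` gives a cross. -/
theorem Kc.cross1 (h : Kc H W t B Y P) (hX : XF H t) {k : Fin 4}
    (hk : ∀ i, t k ∉ P i) (hkY : t k ∈ Nb H Y) : False := by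
  choose e he using h.tP
  have hne : ∀ i j, i ≠ j → e i ≠ e j := fun i j hij e' =>
    h.PP i j hij _ (he i) (e' ▸ he j)
  have hke : ∀ i, k ≠ e i := fun i e' => hk i (e' ▸ he i)
  -- the cross
  have main : ∀ a b c : Fin 3, a ≠ b → a ≠ c → pt k = e a → pt (e b) = e c → e b ≠ pt k →
      False := by
    intro a b c hab hac h1 h2 h3
    obtain ⟨y, hy, x, hx, hyx⟩ := h.aY a
    obtain ⟨hkY', y', hy', hyk⟩ := hkY
    have hA : Con H (insert (t k) Y ∪ P a) :=
      (h.cY.nb_ins ⟨hkY', y', hy', hyk⟩).union_adj (h.cP a) (Or.inr hy) hx hyx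
    have hB := h.con3 b c
    refine hX.all (i := k) (j := e b) (fun e' => hke b e'.symm) h3 hA hB (Or.inl (Or.inl rfl))
      (Or.inr (by rw [h1]; exact he a)) (Or.inl (Or.inl (he b))) (Or.inr (by
        rw [h2]
        exact he c)) ?_
    rw [Set.disjoint_left]
    rintro u ((rfl | hu) | hu) ((hu' | hu') | hu')
    · exact hk b hu'
    · exact h.tB k hu'
    · exact hk c hu'
    · exact h.YP b u hu' hu
    · exact h.BY u hu' hu
    · exact h.YP c u hu' hu
    · exact h.PP a b hab u hu hu'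
    · exact h.BP a u hu hu'
    · exact h.PP a c hac u hu hu'
  rcases pt_one k (e 0) (e 1) (e 2) (hne _ _ (by decide)) (hne _ _ (by decide))
    (hne _ _ (by decide)) (hke 0) (hke 1) (hke 2) with ⟨h1, h2, h3⟩ | ⟨h1, h2, h3⟩ | ⟨h1, h2, h3⟩
  · exact main 0 1 2 (by decide) (by decide) h1 h2 h3
  · exact main 1 0 2 (by decide) (by decide) h1 h2 h3
  · exact main 2 0 1 (by decide) (by decide) h1 h2 h3

theorem fin3_others : ∀ i : Fin 3, ∃ a b : Fin 3, a ≠ i ∧ b ≠ i ∧ a ≠ b := by decide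

/-- Two terminals in one of the three sets, one adjacent to `B`, the other one adjacent to `Y`,
give a cross. -/
theorem Kc.cross2 (h : Kc H W t B Y P) (hX : XF H t) (i : Fin 3)
    {j1 j2 : Fin 4} (h12 : j1 ≠ j2) (hj1 : t j1 ∈ P i) (hj2 : t j2 ∈ P i)
    (hB : t j1 ∈ Nb H B) (hY : t j2 ∈ Nb H Y) (htt : t j1 ≠ t j2) : False := by
  choose e he using h.tP
  obtain ⟨a, b, hai, hbi, hab⟩ := fin3_others i
  have hne : e a ≠ e b := fun e' => h.PP a b hab _ (he a) (e' ▸ he b)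
  have h1a : j1 ≠ e a := fun e' => h.PP i a (Ne.symm hai) _ hj1 (e' ▸ he a)
  have h1b : j1 ≠ e b := fun e' => h.PP i b (Ne.symm hbi) _ hj1 (e' ▸ he b)
  have h2a : j2 ≠ e a := fun e' => h.PP i a (Ne.symm hai) _ hj2 (e' ▸ he a)
  have h2b : j2 ≠ e b := fun e' => h.PP i b (Ne.symm hbi) _ hj2 (e' ▸ he b)
  -- two disjoint connections
  have main : ∀ a b : Fin 3, a ≠ i → b ≠ i → a ≠ b → j1 ≠ e a → j1 ≠ e b → j2 ≠ e a → j2 ≠ e b →
      pt j1 = e a → pt j2 = e b → False := by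
    intro a b hai hbi hab h1a h1b h2a h2b h1 h2
    obtain ⟨p, hp, x, hx, hpx⟩ := h.aB a
    obtain ⟨q, hq, y, hy, hqy⟩ := h.aY b
    have hA : Con H (insert (t j1) B ∪ P a) :=
      (h.cB.nb_ins hB).union_adj (h.cP a) (Or.inr hp) hx hpx
    have hA' : Con H (insert (t j2) Y ∪ P b) :=
      (h.cY.nb_ins hY).union_adj (h.cP b) (Or.inr hq) hy hqy
    refine hX.all (i := j1) (j := j2) h12.symm (by rw [h1]; exact h2a) hA hA'
      (Or.inl (Or.inl rfl)) (Or.inr (by rw [h1]; exact he a)) (Or.inl (Or.inl rfl))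
      (Or.inr (by rw [h2]; exact he b)) ?_
    rw [Set.disjoint_left]
    rintro u ((rfl | hu) | hu) ((hu' | hu') | hu')
    · exact htt hu'
    · exact h.tY j1 hu'
    · exact h.PP i b (Ne.symm hbi) _ hj1 hu'
    · exact h.tB j2 (hu' ▸ hu)
    · exact h.BY u hu hu'
    · exact h.BP b u hu' hu
    · rw [hu'] at hu
      exact h.PP i a (Ne.symm hai) _ hj2 hu
    · exact h.YP a u hu hu'
    · exact h.PP a b hab u hu hu'
  rcases pt_one j1 j2 (e a) (e b) h2a h2b hne h12 h1a h1b with ⟨h1, h2, -⟩ | ⟨h1, h2, -⟩ |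
    ⟨h1, h2, -⟩
  · refine hX.all (i := j1) (j := e a) (Ne.symm h1a) (by rw [h1]; exact Ne.symm h2a) (h.cP i)
      (h.con3 a b) hj1 (by rw [h1]; exact hj2) (Or.inl (Or.inl (he a)))
      (Or.inr (by rw [h2]; exact he b)) ?_
    rw [Set.disjoint_left]
    rintro u hu ((hu' | hu') | hu')
    · exact h.PP a i hai u hu' hu
    · exact h.BP i u hu hu'
    · exact h.PP b i hbi u hu' hu
  · exact main a b hai hbi hab h1a h1b h2a h2b h1 h2
  · exact main b a hbi hai (Ne.symm hab) h1b h1a h2b h2a h1 h2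

/-- The measure. -/
noncomputable def kms (B Y : Set V) (P : Fin 3 → Set V) : ℕ :=
  Bᶜ.ncard + Yᶜ.ncard + ∑ i, (P i).ncard

theorem kms_swap : kms Y B P = kms B Y P := by
  unfold kms
  ring

theorem ncard_compl_insert [Finite V] (hv : v ∉ B) : (insert v B)ᶜ.ncard + 1 = Bᶜ.ncard := by
  have h1 : Bᶜ = insert v (insert v B)ᶜ := by
    ext x
    simp only [mem_compl_iff, mem_insert_iff, not_or]
    constructor
    · intro hx
      by_cases hxv : x = v
      · exact Or.inl hxv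
      · exact Or.inr ⟨hxv, hx⟩
    · rintro (rfl | hx)
      · exact hv
      · exact hx.2
  have h2 := ncard_insert_of_notMem (s := (insert v B)ᶜ) (a := v)
    (fun h => h (mem_insert v B)) (toFinite _)
  rw [h1, h2]

theorem sum_upd [Finite V] (i : Fin 3) (hz : z ∈ P i) :
    ∑ j, (Function.update P i (P i \ {z}) j).ncard + 1 = ∑ j, (P j).ncard := by
  have h1 : (P i \ {z}).ncard + 1 = (P i).ncard := ncard_sdiff_singleton_add_one hz
  fin_cases i <;> simp [Fin.sum_univ_three, Function.update] at h1 ⊢ <;> omega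

theorem mem_of_nb {C : Set V} (hWN : ∀ x ∈ W, ∀ y, H.Adj x y → y ∈ W ∨ ∃ j, t j = y)
    (hC : C ⊆ W) (hv : v ∈ Nb H C) (ht : ∀ j, t j ≠ v) : v ∈ W := by
  obtain ⟨-, c, hc, hcv⟩ := hv
  rcases hWN c (hC hc) v hcv with h | ⟨j, hj⟩
  · exact h
  · exact absurd hj (ht j)

/-- Vertices of `P i` adjacent to `B ∪ Y`: at most one, or a smaller configuration. -/
theorem Kc.step [Finite V] (h : Kc H W t B Y P)
    (hWN : ∀ x ∈ W, ∀ y, H.Adj x y → y ∈ W ∨ ∃ j, t j = y) (hX : XF H t)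
    (ih : ∀ (B' Y' : Set V) (P' : Fin 3 → Set V), kms B' Y' P' < kms B Y P → ¬ Kc H W t B' Y' P')
    (i : Fin 3) : ∃ w, ∀ v ∈ P i, v ∈ Nb H B ∨ v ∈ Nb H Y → v = w := by
  by_cases h2 : 2 ≤ (P i).ncard
  swap
  · obtain ⟨w, hw⟩ := (h.cP i).1
    refine ⟨w, fun v hv _ => ?_⟩
    by_contra hne
    have h3 : ({v, w} : Set V) ⊆ P i := by
      rintro u (rfl | rfl)
      · exact hv
      · exact hw
    have h4 := ncard_le_ncard h3
    rw [ncard_pair hne] at h4
    exact h2 h4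
  -- neighbours in `P i`
  have hin : ∀ {C : Set V} {v : V}, (∀ x ∈ P i, x ∉ C) → v ∈ P i → (∃ b ∈ C, H.Adj b v) →
      v ∈ Nb H C := fun {C v} hd hv hb => ⟨hd v hv, hb⟩
  -- a vertex which does not separate and is no terminal
  have keyA : ∀ z ∈ P i, Con H (P i \ {z}) → (∀ j, t j ≠ z) →
      ∀ v ∈ P i, v ∈ Nb H B ∨ v ∈ Nb H Y → v = z := by
    intro z hz hc hzt
    have hdel : ¬ ((∃ b ∈ B, ∃ x ∈ P i \ {z}, H.Adj b x) ∧
        (∃ b ∈ Y, ∃ x ∈ P i \ {z}, H.Adj b x)) := by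
      rintro ⟨hB, hY⟩
      obtain ⟨j, hj⟩ := h.tP i
      refine ih _ _ _ ?_ (h.del i hc ⟨j, hj, hzt j⟩ hB hY)
      have := sum_upd (P := P) i hz
      unfold kms
      omega
    have hsum := sum_upd (P := P) i hz
    have hzB := h.BP i z hz
    have hzY := h.YP i z hz
    have hmB : z ∈ Nb H B → ¬ (∃ b ∈ Y, ∃ x ∈ P i \ {z}, H.Adj b x) := by
      intro hB hY
      refine ih _ _ _ ?_ (h.mov i hz hc (mem_of_nb hWN h.BW hB hzt) hB hY)
      have h5 := ncard_compl_insert hzB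
      unfold kms
      omega
    have hmY : z ∈ Nb H Y → ¬ (∃ b ∈ B, ∃ x ∈ P i \ {z}, H.Adj b x) := by
      intro hY hB
      refine ih _ _ _ ?_ (h.swap.mov i hz hc (mem_of_nb hWN h.YW hY hzt) hY hB)
      have h5 := ncard_compl_insert hzY
      unfold kms
      omega
    obtain ⟨b, hb, x, hx, hbx⟩ := h.aB i
    obtain ⟨y, hy, x', hx', hyx⟩ := h.aY i
    intro v hv hv'
    by_contra hvz
    rcases hv' with ⟨-, p, hp, hpv⟩ | ⟨-, p, hp, hpv⟩
    · -- `v` is adjacent to `B`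
      have h6 : ∃ b ∈ B, ∃ x ∈ P i \ {z}, H.Adj b x := ⟨p, hp, v, ⟨hv, hvz⟩, hpv⟩
      have h7 : x' = z := by
        by_contra e
        exact hdel ⟨h6, y, hy, x', ⟨hx', e⟩, hyx⟩
      subst h7
      exact hmY (hin (h.YP i) hx' ⟨y, hy, hyx⟩) h6
    · have h6 : ∃ b ∈ Y, ∃ x ∈ P i \ {z}, H.Adj b x := ⟨p, hp, v, ⟨hv, hvz⟩, hpv⟩
      have h7 : x = z := by
        by_contra e
        exact hdel ⟨⟨b, hb, x, ⟨hx, e⟩, hbx⟩, h6⟩
      subst h7
      exact hmB (hin (h.BP i) hx ⟨b, hb, hbx⟩) h6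
  -- a terminal which does not separate
  have keyB : ∀ j, t j ∈ P i → Con H (P i \ {t j}) → (∃ k, t k ∈ P i ∧ t k ≠ t j) →
      (t j ∈ Nb H B ∧ ∀ v ∈ P i, v ∈ Nb H B → v = t j) ∨
      (t j ∈ Nb H Y ∧ ∀ v ∈ P i, v ∈ Nb H Y → v = t j) := by
    intro j hj hc hk
    obtain ⟨k, hk, hkj⟩ := hk
    by_contra hcon
    push Not at hcon
    have h3 : ∃ b ∈ B, ∃ x ∈ P i \ {t j}, H.Adj b x := by
      by_contra h4
      push Not at h4
      obtain ⟨b, hb, x, hx, hbx⟩ := h.aB i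
      have hxj : x = t j := by
        by_contra e
        exact h4 b hb x ⟨hx, e⟩ hbx
      subst hxj
      obtain ⟨v, hv, ⟨-, p, hp, hpv⟩, hvj⟩ := hcon.1 (hin (h.BP i) hx ⟨b, hb, hbx⟩)
      exact h4 p hp v ⟨hv, hvj⟩ hpv
    have h3' : ∃ b ∈ Y, ∃ x ∈ P i \ {t j}, H.Adj b x := by
      by_contra h4
      push Not at h4
      obtain ⟨b, hb, x, hx, hbx⟩ := h.aY i
      have hxj : x = t j := by
        by_contra e
        exact h4 b hb x ⟨hx, e⟩ hbx
      subst hxj
      obtain ⟨v, hv, ⟨-, p, hp, hpv⟩, hvj⟩ := hcon.2 (hin (h.YP i) hx ⟨b, hb, hbx⟩)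
      exact h4 p hp v ⟨hv, hvj⟩ hpv
    refine ih _ _ _ ?_ (h.del i hc ⟨k, hk, hkj⟩ h3 h3')
    have := sum_upd (P := P) i hj
    unfold kms
    omega
  obtain ⟨x0, hx0⟩ := (h.cP i).1
  obtain ⟨z1, hz1, -, hc1⟩ := exists_noncut_ne (h.cP i) h2 hx0
  obtain ⟨z2, hz2, h21, hc2⟩ := exists_noncut_ne (h.cP i) h2 hz1
  by_cases ht1 : ∀ j, t j ≠ z1
  · exact ⟨z1, keyA z1 hz1 hc1 ht1⟩
  by_cases ht2 : ∀ j, t j ≠ z2
  · exact ⟨z2, keyA z2 hz2 hc2 ht2⟩
  push Not at ht1 ht2
  obtain ⟨j1, rfl⟩ := ht1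
  obtain ⟨j2, rfl⟩ := ht2
  exfalso
  have h12 : j1 ≠ j2 := fun e => h21 (by rw [e])
  rcases keyB j1 hz1 hc1 ⟨j2, hz2, h21⟩ with ⟨a1, b1⟩ | ⟨a1, b1⟩ <;>
    rcases keyB j2 hz2 hc2 ⟨j1, hz1, h21.symm⟩ with ⟨a2, b2⟩ | ⟨a2, b2⟩
  · exact h21 (b1 _ hz2 a2)
  · exact h.cross2 hX i h12 hz1 hz2 a1 a2 h21.symm
  · exact h.cross2 hX i h12.symm hz2 hz1 a2 a1 h21
  · exact h21 (b1 _ hz2 a2)

/-- The rooted `K_{3,3}` lemma. -/
theorem Kc.false [Finite V] (hX : XF H t)
    (hWN : ∀ x ∈ W, ∀ y, H.Adj x y → y ∈ W ∨ ∃ j, t j = y)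
    (hN : ∀ E : Set V, E.Nonempty → E ⊆ W → 4 ≤ (Nb H E).ncard)
    (h : Kc H W t B Y P) : False := by
  have main : ∀ n, ∀ (B Y : Set V) (P : Fin 3 → Set V), kms B Y P = n → ¬ Kc H W t B Y P := by
    intro n
    induction n using Nat.strong_induction_on with
    | _ n ih =>
      intro B Y P hn h
      have ih' : ∀ (B' Y' : Set V) (P' : Fin 3 → Set V), kms B' Y' P' < kms B Y P →
          ¬ Kc H W t B' Y' P' := fun B' Y' P' hlt => ih _ (hn ▸ hlt) B' Y' P' rfl
      -- no neighbours outside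
      have h1 : ∀ v, v ∈ Nb H B ∨ v ∈ Nb H Y → v ∉ B → v ∉ Y → ∃ i, v ∈ P i := by
        intro v hv hvB hvY
        by_contra hcon
        push Not at hcon
        by_cases hvt : ∀ j, t j ≠ v
        · rcases hv with hv | hv
          · refine ih' _ _ _ ?_ (h.addB hv hvY hcon (mem_of_nb hWN h.BW hv hvt))
            have := ncard_compl_insert hvB
            unfold kms
            omega
          · refine ih' _ _ _ ?_ (h.swap.addB hv hvB hcon (mem_of_nb hWN h.YW hv hvt))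
            have := ncard_compl_insert hvY
            unfold kms
            omega
        · push Not at hvt
          obtain ⟨k, rfl⟩ := hvt
          rcases hv with hv | hv
          · exact h.swap.cross1 hX hcon hv
          · exact h.cross1 hX hcon hv
      choose w hw using h.step hWN hX ih'
      have h2 : Nb H (B ∪ Y) ⊆ {w 0, w 1, w 2} := by
        rintro v ⟨hv, c, hc, hcv⟩
        have hvB : v ∉ B := fun e => hv (Or.inl e)
        have hvY : v ∉ Y := fun e => hv (Or.inr e)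
        have h3 : v ∈ Nb H B ∨ v ∈ Nb H Y := by
          rcases hc with hc | hc
          · exact Or.inl ⟨hvB, c, hc, hcv⟩
          · exact Or.inr ⟨hvY, c, hc, hcv⟩
        obtain ⟨i, hi⟩ := h1 v h3 hvB hvY
        have h4 := hw i v hi h3
        fin_cases i
        · exact Or.inl h4
        · exact Or.inr (Or.inl h4)
        · exact Or.inr (Or.inr h4)
      have h5 := hN (B ∪ Y) (h.cB.1.mono subset_union_left) (union_subset h.BW h.YW)
      have h6 := ncard_le_ncard h2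
      have h7 : ({w 0, w 1, w 2} : Set V).ncard ≤ 3 := by
        have := ncard_insert_le (w 0) ({w 1, w 2} : Set V)
        have := ncard_insert_le (w 1) ({w 2} : Set V)
        have := ncard_singleton (w 2)
        omega
      omega
  exact main _ B Y P rfl h

end Pool.Agent.Lib.MP_d9512b_co.Wb
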