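import Pool.Agent.Lib.MP_d9512b_co.Base

set_option autoImplicit false

/-!
A solid set `D` with three disjoint connected subsets `E i` whose complements in `D` are
connected, and two further vertices `a`, `b`: one of the three sets lies between two disjoint
connected sets, which contain one of the other sets and `a`, the other one and `b`.
-/

namespace Pool.Agent.Lib.MP_d9512b_co.Wb

open Set

variable {V : Type*} {G : SimpleGraph V} {D X A : Set V} {E : Fin 3 → Set V}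
  {a b x y z : V}

/-- Three disjoint connected subsets which do not separate, and two further vertices. -/
structure P3 (G : SimpleGraph V) (D : Set V) (E : Fin 3 → Set V) (a b : V) : Prop where
  sol : Sol G D
  aD : a ∈ D
  bD : b ∈ D
  ab : a ≠ b
  con : ∀ i, Con G (E i)
  sub : ∀ i, E i ⊆ D
  aE : ∀ i, a ∉ E i
  bE : ∀ i, b ∉ E i
  dis : ∀ i j, i ≠ j → ∀ x ∈ E i, x ∉ E j
  cpl : ∀ i, Con G (D \ E i)

/-- The three sets and the single vertices outside of them. -/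
def Atm (D : Set V) (E : Fin 3 → Set V) (A : Set V) : Prop :=
  (∃ i, A = E i) ∨ ∃ x ∈ D, (∀ i, x ∉ E i) ∧ A = {x}

/-- Unions of atoms. -/
def Sat (E : Fin 3 → Set V) (X : Set V) : Prop := ∀ i, E i ⊆ X ∨ ∀ x ∈ E i, x ∉ X

theorem P3.atm_con (h : P3 G D E a b) (hA : Atm D E A) : Con G A := by
  rcases hA with ⟨i, rfl⟩ | ⟨x, -, -, rfl⟩
  · exact h.con i
  · exact con_singleton x

theorem P3.atm_compl (h : P3 G D E a b) (hA : Atm D E A) : Con G (D \ A) := by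
  rcases hA with ⟨i, rfl⟩ | ⟨x, -, -, rfl⟩
  · exact h.cpl i
  · refine ⟨?_, fun p hp q hq => h.sol.rc x hp.1 hq.1 hp.2 hq.2⟩
    by_cases hx : a = x
    · exact ⟨b, h.bD, fun e => h.ab (hx.trans (mem_singleton_iff.1 e).symm)⟩
    · exact ⟨a, h.aD, hx⟩

theorem P3.atm_sub (h : P3 G D E a b) (hA : Atm D E A) : A ⊆ D := by
  rcases hA with ⟨i, rfl⟩ | ⟨x, hx, -, rfl⟩
  · exact h.sub i
  · exact singleton_subset_iff.2 hx

/-- Atoms in unions of atoms. -/
theorem P3.exists_atm (hX : Sat E X) (hXD : X ⊆ D) (hx : x ∈ X) :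
    ∃ A, Atm D E A ∧ x ∈ A ∧ A ⊆ X := by
  by_cases h1 : ∃ i, x ∈ E i
  · obtain ⟨i, hi⟩ := h1
    refine ⟨E i, Or.inl ⟨i, rfl⟩, hi, ?_⟩
    rcases hX i with h2 | h2
    · exact h2
    · exact absurd hx (h2 x hi)
  · push Not at h1
    exact ⟨{x}, Or.inr ⟨x, hXD hx, h1, rfl⟩, rfl, singleton_subset_iff.2 hx⟩

theorem P3.sat_atm (h : P3 G D E a b) (hA : Atm D E A) : Sat E A := by
  intro i
  rcases hA with ⟨j, rfl⟩ | ⟨x, -, hx, rfl⟩
  · by_cases hij : i = j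
    · subst hij
      exact Or.inl Subset.rfl
    · exact Or.inr (h.dis i j hij)
  · refine Or.inr fun y hy e => ?_
    rw [mem_singleton_iff] at e
    subst e
    exact hx i hy

theorem Sat.sdiff (hX : Sat E X) {Y : Set V} (hY : Sat E Y) : Sat E (X \ Y) := by
  intro i
  rcases hX i with h1 | h1
  · rcases hY i with h2 | h2
    · exact Or.inr fun x hx hx' => hx'.2 (h2 hx)
    · exact Or.inl fun x hx => ⟨h1 hx, h2 x hx⟩
  · exact Or.inr fun x hx hx' => h1 x hx hx'.1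

theorem Sat.union (hX : Sat E X) {Y : Set V} (hY : Sat E Y) : Sat E (X ∪ Y) := by
  intro i
  rcases hX i with h1 | h1
  · exact Or.inl fun x hx => Or.inl (h1 hx)
  · rcases hY i with h2 | h2
    · exact Or.inl fun x hx => Or.inr (h2 hx)
    · refine Or.inr fun x hx hx' => ?_
      rcases hx' with hx' | hx'
      · exact h1 x hx hx'
      · exact h2 x hx hx'

/-- A component of a union of atoms is a union of atoms. -/
theorem P3.sat_cmp (h : P3 G D E a b) (hX : Sat E X) : Sat E (cmp G X x) := by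
  intro i
  rcases hX i with h1 | h1
  · by_cases h2 : ∃ y ∈ E i, y ∈ cmp G X x
    · obtain ⟨y, hy, hyx⟩ := h2
      exact Or.inl ((h.con i).subset_cmp h1 hy hyx)
    · push Not at h2
      exact Or.inr h2
  · exact Or.inr fun y hy hyx => h1 y hy (cmp_subset hyx)

/-- There is an atom which can be moved from the side of `b` to the side of `a`. -/
theorem P3.exists_move [Finite V] (h : P3 G D E a b) (hX : Sat E X) (ha : a ∈ X)
    (hb : b ∉ X) (hR : Con G (D \ X)) (hy : y ∈ D \ X) (hyb : y ≠ b) :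
    ∃ A, Atm D E A ∧ A ⊆ D \ X ∧ b ∉ A ∧ (∃ u ∈ X, ∃ v ∈ A, G.Adj u v) ∧
      Con G ((D \ X) \ A) := by
  have hDsat : Sat E D := fun i => Or.inl (h.sub i)
  have hRsat : Sat E (D \ X) := hDsat.sdiff hX
  have hbR : b ∈ D \ X := ⟨h.bD, hb⟩
  -- atoms do not contain `b`
  have hbA : ∀ {A : Set V} {x : V}, Atm D E A → x ∈ A → x ≠ b → b ∉ A := by
    rintro A x (⟨i, rfl⟩ | ⟨z, -, -, rfl⟩) hx hxb hb
    · exact h.bE i hb
    · rw [mem_singleton_iff] at hx hb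
      exact hxb (hx.trans hb.symm)
  obtain ⟨A, hA, hmax⟩ := Set.exists_max_image
    {A | Atm D E A ∧ A ⊆ D \ X ∧ b ∉ A ∧ (∃ u ∈ X, ∃ v ∈ A, G.Adj u v)}
    (fun A => (cmp G ((D \ X) \ A) b).ncard) (Set.toFinite _) (by
      obtain ⟨u, hu, v, hv, -, hvD, huv, -⟩ := (h.sol.rc b h.aD hy.1 h.ab hyb).exists_edge
        (X := X) ha hy.2
      obtain ⟨A, hA, hvA, hAR⟩ := P3.exists_atm (D := D) hRsat sdiff_subset
        (show v ∈ D \ X from ⟨hvD.1, hv⟩)
      exact ⟨A, hA, hAR, hbA hA hvA hvD.2, u, hu, v, hvA, huv⟩)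
  obtain ⟨hAt, hAR, hbA', hadj⟩ := hA
  refine ⟨A, hAt, hAR, hbA', hadj, ?_⟩
  have hbC : b ∈ cmp G ((D \ X) \ A) b := mem_cmp_self ⟨hbR, hbA'⟩
  have hall : ∀ q ∈ (D \ X) \ A, q ∈ cmp G ((D \ X) \ A) b := by
    intro q hq
    by_contra hqC
    have hQsub : cmp G ((D \ X) \ A) q ⊆ (D \ X) \ A := cmp_subset
    have hQb : b ∉ cmp G ((D \ X) \ A) q := fun e => hqC (Rc.symm e)
    -- an edge from the component of `q` to `X`
    have hcA := h.atm_compl hAt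
    obtain ⟨p, hp, r, hr, -, hrD, hpr⟩ := hcA.exists_edge
      (X := cmp G ((D \ X) \ A) q) (mem_cmp_self hq) ⟨hq.1.1, hq.2⟩
      (y := b) hQb ⟨h.bD, hbA'⟩
    have hrX : r ∈ X := by
      by_contra e
      exact hr (cmp_closed hp ⟨⟨hrD.1, e⟩, hrD.2⟩ hpr)
    have hQsat : Sat E (cmp G ((D \ X) \ A) q) :=
      h.sat_cmp (hRsat.sdiff (h.sat_atm hAt))
    obtain ⟨A', hA', hpA', hA'Q⟩ := P3.exists_atm (D := D) hQsat
      (fun z hz => (hQsub hz).1.1) hp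
    have hpb : p ≠ b := fun e => hQb (e ▸ hp)
    have h3 := hmax A' ⟨hA', fun z hz => (hQsub (hA'Q hz)).1, hbA hA' hpA' hpb, r, hrX, p, hpA',
      hpr.symm⟩
    -- the component of `b` becomes larger
    obtain ⟨v0, hv0⟩ := (h.atm_con hAt).1
    have hAC : ∃ c ∈ cmp G ((D \ X) \ A) b, ∃ v ∈ A, G.Adj c v := by
      obtain ⟨c, hc, v, hv, -, hvR, hcv⟩ := hR.exists_edge
        (X := cmp G ((D \ X) \ A) b) hbC hbR (y := v0)
        (fun e => (cmp_subset e).2 hv0) (hAR hv0)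
      refine ⟨c, hc, v, ?_, hcv⟩
      by_contra e
      exact hv (cmp_closed hc ⟨hvR, e⟩ hcv)
    obtain ⟨c, hc, v, hv, hcv⟩ := hAC
    have hcon : Con G (cmp G ((D \ X) \ A) b ∪ A) :=
      (con_cmp (show b ∈ (D \ X) \ A from ⟨hbR, hbA'⟩)).union_adj (h.atm_con hAt) hc hv hcv
    have hsub : cmp G ((D \ X) \ A) b ∪ A ⊆ (D \ X) \ A' := by
      rintro z (hz | hz)
      · refine ⟨(cmp_subset hz).1, fun hz' => hqC ?_⟩
        exact Rc.trans hz (Rc.symm (hA'Q hz'))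
      · exact ⟨hAR hz, fun hz' => (hQsub (hA'Q hz')).2 hz⟩
    have hbA'' : b ∈ (D \ X) \ A' := hsub (Or.inl hbC)
    have h4 : cmp G ((D \ X) \ A) b ∪ A ⊆ cmp G ((D \ X) \ A') b :=
      hcon.subset_cmp hsub (Or.inl hbC) (mem_cmp_self hbA'')
    have h5 := ncard_le_ncard (h4)
    have h6 : (insert v (cmp G ((D \ X) \ A) b)).ncard ≤
        (cmp G ((D \ X) \ A) b ∪ A).ncard := by
      refine ncard_le_ncard ?_
      rintro z (rfl | hz)
      · exact Or.inr hv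
      · exact Or.inl hz
    rw [ncard_insert_of_notMem (fun e => (cmp_subset e).2 hv)] at h6
    omega
  exact ⟨⟨b, hbR, hbA'⟩, fun p hp q hq => (Rc.symm (hall p hp)).trans (hall q hq)⟩

theorem fin3_third : ∀ i k : Fin 3, i ≠ k → ∃ j : Fin 3, j ≠ i ∧ j ≠ k := by decide

/-- The partition. -/
theorem P3.part [Finite V] (h : P3 G D E a b) :
    ∃ i j k : Fin 3, i ≠ j ∧ i ≠ k ∧ j ≠ k ∧ ∃ X : Set V, X ⊆ D ∧ a ∈ X ∧ b ∉ X ∧
      E i ⊆ X ∧ (∀ x ∈ E k, x ∉ X) ∧ (∀ x ∈ E j, x ∉ X) ∧ Con G X ∧ Con G ((D \ X) \ E k) ∧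
      (∃ u ∈ X, ∃ v ∈ E k, G.Adj u v) ∧
      (∃ u ∈ (D \ X) \ E k, ∃ v ∈ E k, G.Adj u v) := by
  obtain ⟨X, ⟨hXD, haX, hbX, hsat, hcX, hcR, hone⟩, hmax⟩ := Set.exists_max_image
    {X | X ⊆ D ∧ a ∈ X ∧ b ∉ X ∧ Sat E X ∧ Con G X ∧ Con G (D \ X) ∧
      ∀ i j, E i ⊆ X → E j ⊆ X → i = j}
    (fun X => X.ncard) (Set.toFinite _) (by
      refine ⟨{a}, singleton_subset_iff.2 h.aD, rfl, fun e => h.ab e.symm, ?_, con_singleton a,
        ?_, ?_⟩
      · exact fun i => Or.inr fun x hx e => h.aE i (by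
          rw [mem_singleton_iff] at e
          exact e ▸ hx)
      · exact ⟨⟨b, h.bD, fun e => h.ab e.symm⟩,
          fun p hp q hq => h.sol.rc a hp.1 hq.1 hp.2 hq.2⟩
      · intro i j hi _
        obtain ⟨x, hx⟩ := (h.con i).1
        have := hi hx
        rw [mem_singleton_iff] at this
        exact absurd (this ▸ hx) (h.aE i))
  -- one of the sets is not in `X`
  obtain ⟨j0, hj0⟩ : ∃ j, ¬ E j ⊆ X := by
    by_contra hcon
    push Not at hcon
    exact absurd (hone 0 1 (hcon 0) (hcon 1)) (by decide)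
  obtain ⟨y, hy, hyX⟩ := not_subset.1 hj0
  obtain ⟨A, hA, hAR, hbA, ⟨u, hu, v, hv, huv⟩, hcR'⟩ := h.exists_move hsat haX hbX hcR
    (y := y) ⟨h.sub j0 hy, hyX⟩ (fun e => h.bE j0 (e ▸ hy))
  have hXA : ¬ ∀ i j, E i ⊆ X ∪ A → E j ⊆ X ∪ A → i = j := by
    intro hone'
    have h1 := hmax (X ∪ A) ⟨union_subset hXD (fun z hz => (hAR hz).1), Or.inl haX,
      fun e => e.elim hbX hbA, hsat.union (h.sat_atm hA), hcX.union_adj (h.atm_con hA) hu hv huv,
      by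
        rw [← sdiff_sdiff]
        exact hcR', hone'⟩
    have h2 : (insert v X).ncard ≤ (X ∪ A).ncard := by
      refine ncard_le_ncard ?_
      rintro z (rfl | hz)
      · exact Or.inr hv
      · exact Or.inl hz
    rw [ncard_insert_of_notMem (hAR hv).2] at h2
    omega
  push Not at hXA
  obtain ⟨i1, j1, hi1, hj1, hne⟩ := hXA
  -- one of them in `X`, the other one is `A`
  have hcase : ∀ l, E l ⊆ X ∪ A → E l ⊆ X ∨ A = E l := by
    intro l hl
    rcases hsat l with h1 | h1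
    · exact Or.inl h1
    · right
      obtain ⟨x, hx⟩ := (h.con l).1
      have hxA : x ∈ A := (hl hx).resolve_left (h1 x hx)
      rcases hA with ⟨m, rfl⟩ | ⟨z, -, hz, rfl⟩
      · by_cases hml : m = l
        · rw [hml]
        · exact absurd hx (h.dis m l hml x hxA)
      · rw [mem_singleton_iff] at hxA
        subst hxA
        exact absurd hx (hz l)
  have main : ∀ i k, i ≠ k → E i ⊆ X → A = E k →
      ∃ i j k : Fin 3, i ≠ j ∧ i ≠ k ∧ j ≠ k ∧ ∃ X : Set V, X ⊆ D ∧ a ∈ X ∧ b ∉ X ∧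
      E i ⊆ X ∧ (∀ x ∈ E k, x ∉ X) ∧ (∀ x ∈ E j, x ∉ X) ∧ Con G X ∧ Con G ((D \ X) \ E k) ∧
      (∃ u ∈ X, ∃ v ∈ E k, G.Adj u v) ∧
      (∃ u ∈ (D \ X) \ E k, ∃ v ∈ E k, G.Adj u v) := by
    intro i k hik hi hk
    subst hk
    obtain ⟨j, hji, hjk⟩ := fin3_third i k hik
    refine ⟨i, j, k, hji.symm, hik, hjk, X, hXD, haX, hbX, hi, fun x hx => (hAR hx).2, ?_, hcX,
      hcR', ⟨u, hu, v, hv, huv⟩, ?_⟩
    · rcases hsat j with h1 | h1
      · exact absurd (hone i j hi h1) hji.symm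
      · exact h1
    · obtain ⟨p, hp, q, hq, -, hqR, hpq⟩ := hcR.exists_edge (X := E k) hv (hAR hv) (y := b) hbA
        ⟨h.bD, hbX⟩
      exact ⟨q, ⟨hqR, hq⟩, p, hp, hpq.symm⟩
  rcases hcase i1 hi1 with h1 | h1 <;> rcases hcase j1 hj1 with h2 | h2
  · exact absurd (hone i1 j1 h1 h2) hne
  · exact main i1 j1 hne h1 h2
  · exact main j1 i1 hne.symm h2 h1
  · exfalso
    obtain ⟨x, hx⟩ := (h.con i1).1
    exact h.dis i1 j1 hne x hx (h2 ▸ h1 ▸ hx)

/-- A subset with at most two neighbours in a solid set does not separate it. -/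
theorem con_sdiff_of_two [Finite V] {F : Set V} (hD : Sol G D)
    (h2 : (Nb G F ∩ D).ncard ≤ 2) {r : V} (hr : r ∈ D) (hrF : r ∉ F) (hrN : r ∉ Nb G F) :
    Con G (D \ F) := by
  have hrR : r ∈ D \ F := ⟨hr, hrF⟩
  have hall : ∀ q ∈ D \ F, q ∈ cmp G (D \ F) r := by
    intro q hq
    by_contra hqC
    have hQr : r ∉ cmp G (D \ F) q := fun e => hqC (Rc.symm e)
    -- neighbours of `F` in both components
    have key : ∀ p ∈ D \ F, ∀ p' ∈ D \ F, p' ∉ cmp G (D \ F) p →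
        ∃ s ∈ cmp G (D \ F) p, s ∈ Nb G F ∩ D := by
      intro p hp p' hp' hpp
      obtain ⟨s, hs, w, hw, hsD, hwD, hsw⟩ := hD.1.exists_edge (X := cmp G (D \ F) p)
        (mem_cmp_self hp) hp.1 (y := p') hpp hp'.1
      have hwF : w ∈ F := by
        by_contra e
        exact hw (cmp_closed hs ⟨hwD, e⟩ hsw)
      exact ⟨s, hs, ⟨(cmp_subset hs).2, w, hwF, hsw.symm⟩, hsD⟩
    obtain ⟨s, hs, hsN⟩ := key q hq r hrR hQr
    obtain ⟨s', hs', hsN'⟩ := key r hrR q hq hqC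
    have hss : s ≠ s' := fun e => hqC (Rc.trans hs' (Rc.symm (e ▸ hs)))
    have hrs : r ≠ s' := fun e => hrN (e ▸ hsN'.1)
    have hqs : q ≠ s' := fun e => hqC (e ▸ hs')
    have h3 := hD.rc s' hr hq.1 hrs hqs
    obtain ⟨w, hw, w', hw', hwD, hwD', hww, -⟩ := h3.exists_edge (X := cmp G (D \ F) r)
      (mem_cmp_self hrR) hqC
    have hwF : w' ∈ F := by
      by_contra e
      exact hw' (cmp_closed hw ⟨hwD'.1, e⟩ hww)
    have hwN : w ∈ Nb G F ∩ D := ⟨⟨(cmp_subset hw).2, w', hwF, hww.symm⟩, hwD.1⟩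
    have hws : w ≠ s := fun e => hqC (Rc.trans hw (Rc.symm (e ▸ hs)))
    have h4 := (two_lt_ncard_iff (toFinite (Nb G F ∩ D))).2
      ⟨w, s, s', hwN, hsN, hsN', hws, hwD.2, hss⟩
    omega
  exact ⟨⟨r, hrR⟩, fun p hp q hq => (Rc.symm (hall p hp)).trans (hall q hq)⟩

end Pool.Agent.Lib.MP_d9512b_co.Wb
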