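import Pool.Agent.Lib.MP_d9512b_co.CC.LemR
import Pool.Agent.Lib.MP_d9512b_co.CC.Part

set_option autoImplicit false

/-!
Webs: a set `W` of vertices with four further neighbours `t 0`, `t 1`, `t 2`, `t 3`, without
disjoint connections of `t 0` with `t 1` and of `t 2` with `t 3`, such that every subset of `W` has
at least four neighbours. If a connected set `S`, which contains only the terminal `t 0`, grows by
a vertex `z`, then at most two disjoint connected subsets of the rest `D` with at most two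
neighbours in `D` are adjacent to `z`.
-/

namespace Pool.Agent.Lib.MP_d9512b_co.Wb

open Set

variable {V : Type*} {G : SimpleGraph V} {W S D A : Set V} {t : Fin 4 → V} {E : Fin 3 → Set V}
  {x y z : V}

/-- Webs. -/
structure Web (G : SimpleGraph V) (W : Set V) (t : Fin 4 → V) : Prop where
  inj : Function.Injective t
  tW : ∀ j, t j ∉ W
  nb : ∀ x ∈ W, ∀ y, G.Adj x y → y ∈ W ∨ ∃ j, t j = y
  four : ∀ E : Set V, E.Nonempty → E ⊆ W → 4 ≤ (Nb G E).ncard
  nox : ∀ F F' : Set V, Con G F → Con G F' → F ⊆ W → F' ⊆ W → t 0 ∈ Nb G F → t 1 ∈ Nb G F →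
    t 2 ∈ Nb G F' → t 3 ∈ Nb G F' → ¬ Disjoint F F'

theorem pt_symm : ∀ i j : Fin 4, j ≠ pt i → i ≠ pt j := by decide

/-- The edges of the web, without the edges between partners. -/
def wgr (G : SimpleGraph V) (W : Set V) (t : Fin 4 → V) : SimpleGraph V where
  Adj x y := G.Adj x y ∧ (x ∈ W ∨ y ∈ W ∨ ∃ i j, j ≠ i ∧ j ≠ pt i ∧ x = t i ∧ y = t j)
  symm := ⟨fun x y h => by
    refine ⟨h.1.symm, ?_⟩
    rcases h.2 with h | h | ⟨i, j, hj, hj', rfl, rfl⟩
    · exact Or.inr (Or.inl h)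
    · exact Or.inl h
    · exact Or.inr (Or.inr ⟨j, i, hj.symm, pt_symm i j hj', rfl, rfl⟩)⟩
  loopless := ⟨fun x h => h.1.ne rfl⟩

theorem wgr_le : wgr G W t ≤ G := fun _ _ h => h.1

theorem wgr_adj (hx : x ∈ W) (h : G.Adj x y) : (wgr G W t).Adj x y := ⟨h, Or.inl hx⟩

theorem wgr_adj' (hy : y ∈ W) (h : G.Adj x y) : (wgr G W t).Adj x y := ⟨h, Or.inr (Or.inl hy)⟩

theorem Web.wgr_mem (h : Web G W t) (hxy : (wgr G W t).Adj x y) : y ∈ W ∨ ∃ j, t j = y := by
  rcases hxy.2 with h1 | h1 | ⟨i, j, -, -, -, rfl⟩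
  · exact h.nb x h1 y hxy.1
  · exact Or.inl h1
  · exact Or.inr ⟨j, rfl⟩

theorem nb_wgr (hA : A ⊆ W) : Nb (wgr G W t) A = Nb G A := by
  ext v
  constructor
  · rintro ⟨h1, c, hc, h2⟩
    exact ⟨h1, c, hc, h2.1⟩
  · rintro ⟨h1, c, hc, h2⟩
    exact ⟨h1, c, hc, wgr_adj (hA hc) h2⟩

theorem pt_pair : ∀ i j : Fin 4, j = pt i → (i = 0 ∧ j = 1) ∨ (i = 1 ∧ j = 0) ∨
    (i = 2 ∧ j = 3) ∨ (i = 3 ∧ j = 2) := by decide

/-- Connected subsets of the web which do not contain partners. -/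
theorem con_wgr (hA : Con G A) (hAW : ∀ x ∈ A, x ∈ W ∨ ∃ j, t j = x)
    (h01 : ¬ (t 0 ∈ A ∧ t 1 ∈ A)) (h23 : ¬ (t 2 ∈ A ∧ t 3 ∈ A)) : Con (wgr G W t) A := by
  refine ⟨hA.1, fun x hx y hy => ?_⟩
  refine (hA.2 x hx y hy).induct (P := fun y => Rc (wgr G W t) A x y) (Rc.refl hx) ?_
  intro a b ha h1 hb hab
  refine h1.tail ⟨hab, ?_⟩ hb
  rcases hAW a ha.right_mem with h2 | ⟨i, rfl⟩
  · exact Or.inl h2
  rcases hAW b hb with h3 | ⟨j, rfl⟩
  · exact Or.inr (Or.inl h3)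
  refine Or.inr (Or.inr ⟨i, j, ?_, ?_, rfl, rfl⟩)
  · rintro rfl
    exact hab.ne rfl
  · intro e
    rcases pt_pair i j e with ⟨rfl, rfl⟩ | ⟨rfl, rfl⟩ | ⟨rfl, rfl⟩ | ⟨rfl, rfl⟩
    · exact h01 ⟨ha.right_mem, hb⟩
    · exact h01 ⟨hb, ha.right_mem⟩
    · exact h23 ⟨ha.right_mem, hb⟩
    · exact h23 ⟨hb, ha.right_mem⟩

/-- A connection of partners contains a connected subset of `W` adjacent to both. -/
theorem Web.inner (h : Web G W t) {p q : V} (hA : Con (wgr G W t) A) (hp : p ∈ A) (hq : q ∈ A)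
    (hpq : p ≠ q) (hna : ¬ (wgr G W t).Adj p q) (hAt : ∀ j, t j ∈ A → t j = p ∨ t j = q) :
    ∃ F ⊆ A, F ⊆ W ∧ Con G F ∧ (∃ u ∈ F, G.Adj u p) ∧ (∃ u ∈ F, G.Adj u q) := by
  have h1 : A \ {p, q} ⊆ W := by
    intro x hx
    have hxp : p ∉ ({x} : Set V) := fun e => hx.2 (Or.inl (mem_singleton_iff.1 e).symm)
    obtain ⟨a, ha, b, -, -, -, hab⟩ := hA.exists_edge (X := {x}) (x := x) rfl hx.1 (y := p) hxp hp
    rw [mem_singleton_iff] at ha
    subst ha
    rcases h.wgr_mem hab.symm with h2 | ⟨j, rfl⟩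
    · exact h2
    · exact absurd (hAt j hx.1) hx.2
  by_contra hcon
  push Not at hcon
  have h2 : q ∈ insert p {x | x ∈ A \ {p, q} ∧ ∃ u ∈ cmp (wgr G W t) (A \ {p, q}) x,
      (wgr G W t).Adj u p} := by
    refine (hA.2 p hp q hq).mem_closed (mem_insert p _) ?_
    rintro a ha b hb hab
    by_cases hbp : b = p
    · exact Or.inl hbp
    right
    by_cases hbq : b = q
    · exfalso
      subst hbq
      rcases ha with rfl | ⟨ha, u, hu, hup⟩
      · exact hna hab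
      · exact hcon (cmp (wgr G W t) (A \ {p, b}) a) (fun x hx => (cmp_subset hx).1)
          (fun x hx => h1 (cmp_subset hx)) ((con_cmp ha).mono_graph wgr_le) ⟨u, hu, hup.1⟩ a
          (mem_cmp_self ha) hab.1
    · have hbA : b ∈ A \ {p, q} := ⟨hb, fun e => e.elim hbp hbq⟩
      rcases ha with rfl | ⟨ha, u, hu, hup⟩
      · exact ⟨hbA, b, mem_cmp_self hbA, hab.symm⟩
      · refine ⟨hbA, u, ?_, hup⟩
        have h3 : b ∈ cmp (wgr G W t) (A \ {p, q}) a := cmp_closed (mem_cmp_self ha) hbA hab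
        rw [cmp_eq h3]
        exact hu
  rcases h2 with h2 | h2
  · exact hpq h2.symm
  · exact h2.1.2 (Or.inr rfl)

theorem Web.not_adj (h : Web G W t) {i j : Fin 4} (hij : j = pt i) :
    ¬ (wgr G W t).Adj (t i) (t j) := by
  rintro ⟨-, h1 | h1 | ⟨a, b, -, hb, ha', hb'⟩⟩
  · exact h.tW i h1
  · exact h.tW j h1
  · have h2 := h.inj ha'
    have h3 := h.inj hb'
    subst h2 h3
    exact hb hij

/-- There is no cross in a web. -/
theorem Web.xf (h : Web G W t) : XF (wgr G W t) t := by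
  intro A B hA hB h0 h1 h2 h3 hd
  rw [Set.disjoint_left] at hd
  have hA' : ∀ j, t j ∈ A → t j = t 0 ∨ t j = t 1 := by
    intro j hj
    fin_cases j
    · exact Or.inl rfl
    · exact Or.inr rfl
    · exact absurd h2 (hd hj)
    · exact absurd h3 (hd hj)
  have hB' : ∀ j, t j ∈ B → t j = t 2 ∨ t j = t 3 := by
    intro j hj
    fin_cases j
    · exact absurd hj (hd h0)
    · exact absurd hj (hd h1)
    · exact Or.inl rfl
    · exact Or.inr rfl
  have h01 : t 0 ≠ t 1 := fun e => absurd (h.inj e) (by decide)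
  have h23 : t 2 ≠ t 3 := fun e => absurd (h.inj e) (by decide)
  obtain ⟨F, hFA, hFW, hF, ⟨u, hu, hu0⟩, v, hv, hv1⟩ := h.inner hA h0 h1 h01
    (h.not_adj (by decide)) hA'
  obtain ⟨F', hFA', hFW', hF', ⟨u', hu', hu2⟩, v', hv', hv3⟩ := h.inner hB h2 h3 h23
    (h.not_adj (by decide)) hB'
  refine h.nox F F' hF hF' hFW hFW' ⟨fun e => h.tW 0 (hFW e), u, hu, hu0⟩
    ⟨fun e => h.tW 1 (hFW e), v, hv, hv1⟩ ⟨fun e => h.tW 2 (hFW' e), u', hu', hu2⟩
    ⟨fun e => h.tW 3 (hFW' e), v', hv', hv3⟩ ?_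
  rw [Set.disjoint_left]
  exact fun x hx hx' => hd (hFA hx) (hFA' hx')

/-- (PL): three disjoint connected sets which do not separate `D` from the terminals can not all
be adjacent to `z`. -/
theorem Web.pl [Finite V] (h : Web G W t) (hS : Con G S) (h0 : t 0 ∈ S) (h1 : t 1 ∉ S)
    (h2 : t 2 ∉ S) (h3 : t 3 ∉ S) (hSW : ∀ x ∈ S, x ∈ W ∨ x = t 0) (hz : z ∈ W)
    (hzS : z ∈ Nb G S) (hD : Sol G D)
    (hDe : ∀ x, x ∈ D ↔ (x ∈ W ∨ x = t 1 ∨ x = t 2 ∨ x = t 3) ∧ x ∉ S ∧ x ≠ z)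
    (hE : ∀ i, Con G (E i)) (hEW : ∀ i, E i ⊆ W) (hED : ∀ i, E i ⊆ D)
    (hdis : ∀ i j, i ≠ j → ∀ x ∈ E i, x ∉ E j) (h2N : ∀ i, (Nb G (E i) ∩ D).ncard ≤ 2)
    (hzE : ∀ i, z ∈ Nb G (E i)) : False := by
  have hne : ∀ i j : Fin 4, i ≠ j → t i ≠ t j := fun i j hij e => hij (h.inj e)
  have hzt : ∀ j, t j ≠ z := fun j e => h.tW j (e ▸ hz)
  have hD1 : t 1 ∈ D := (hDe _).2 ⟨Or.inr (Or.inl rfl), h1, hzt 1⟩
  have hD2 : t 2 ∈ D := (hDe _).2 ⟨Or.inr (Or.inr (Or.inl rfl)), h2, hzt 2⟩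
  have hD3 : t 3 ∈ D := (hDe _).2 ⟨Or.inr (Or.inr (Or.inr rfl)), h3, hzt 3⟩
  have htE : ∀ i j, t j ∉ E i := fun i j hj => h.tW j (hEW i hj)
  -- the sets do not separate
  have hcpl : ∀ i, Con G (D \ E i) := by
    intro i
    obtain ⟨r, hr, hrE, hrN⟩ : ∃ r ∈ D, r ∉ E i ∧ r ∉ Nb G (E i) := by
      by_contra hcon
      push Not at hcon
      have h4 := (two_lt_ncard_iff (toFinite (Nb G (E i) ∩ D))).2
        ⟨t 1, t 2, t 3, ⟨hcon _ hD1 (htE i 1), hD1⟩, ⟨hcon _ hD2 (htE i 2), hD2⟩,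
          ⟨hcon _ hD3 (htE i 3), hD3⟩, hne _ _ (by decide), hne _ _ (by decide),
          hne _ _ (by decide)⟩
      have := h2N i
      omega
    exact con_sdiff_of_two hD (h2N i) hr hrE hrN
  -- the sets are adjacent to `S`
  have hES : ∀ i, ∃ y ∈ S, y ∈ Nb G (E i) := by
    intro i
    by_contra hcon
    push Not at hcon
    have h4 := h.four (E i) (hE i).1 (hEW i)
    have h5 : Nb G (E i) ⊆ insert z (Nb G (E i) ∩ D) := by
      intro y hy
      by_cases hyz : y = z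
      · exact Or.inl hyz
      right
      refine ⟨hy, (hDe y).2 ⟨?_, fun e => hcon y e hy, hyz⟩⟩
      obtain ⟨hy', x, hx, hxy⟩ := hy
      rcases h.nb x (hEW i hx) y hxy with h6 | ⟨j, rfl⟩
      · exact Or.inl h6
      · fin_cases j
        · exact absurd ⟨hy', x, hx, hxy⟩ (hcon _ h0)
        · exact Or.inr (Or.inl rfl)
        · exact Or.inr (Or.inr (Or.inl rfl))
        · exact Or.inr (Or.inr (Or.inr rfl))
    have h6 := ncard_le_ncard h5
    have h7 := ncard_insert_le z (Nb G (E i) ∩ D)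
    have := h2N i
    omega
  have hP : P3 G D E (t 2) (t 3) :=
    { sol := hD
      aD := hD2
      bD := hD3
      ab := hne _ _ (by decide)
      con := hE
      sub := hED
      aE := fun i => htE i 2
      bE := fun i => htE i 3
      dis := hdis
      cpl := hcpl }
  obtain ⟨i, j, k, hij, hik, hjk, X, hXD, h2X, h3X, hiX, hkX, hjX, hcX, hcR, ⟨u, hu, v, hv, huv⟩,
    u', hu', v', hv', huv'⟩ := hP.part
  have hDS : ∀ x ∈ D, x ∉ S := fun x hx => ((hDe x).1 hx).2.1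
  have hDz : z ∉ D := fun e => ((hDe z).1 e).2.2 rfl
  have hDW : ∀ x ∈ D, x ∈ W ∨ ∃ j, t j = x := by
    intro x hx
    rcases ((hDe x).1 hx).1 with h4 | rfl | rfl | rfl
    · exact Or.inl h4
    · exact Or.inr ⟨1, rfl⟩
    · exact Or.inr ⟨2, rfl⟩
    · exact Or.inr ⟨3, rfl⟩
  have h0D : t 0 ∉ D := fun e => hDS _ e h0
  have hS' : Con (wgr G W t) S := by
    refine con_wgr hS (fun x hx => ?_) (fun e => h1 e.2) (fun e => h2 e.1)
    rcases hSW x hx with h4 | h4
    · exact Or.inl h4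
    · exact Or.inr ⟨0, h4.symm⟩
  have hX' : Con (wgr G W t) X := con_wgr hcX (fun x hx => hDW x (hXD hx))
    (fun e => h0D (hXD e.1)) (fun e => h3X e.2)
  have hR' : Con (wgr G W t) ((D \ X) \ E k) := con_wgr hcR (fun x hx => hDW x hx.1.1)
    (fun e => h0D e.1.1.1) (fun e => e.1.1.2 h2X)
  have hEk : Con (wgr G W t) (E k) := con_wgr (hE k) (fun x hx => Or.inl (hEW k hx))
    (fun e => htE k 0 e.1) (fun e => htE k 2 e.1)
  obtain ⟨hzS', s, hs, hsz⟩ := hzS
  obtain ⟨-, ei, hei, heiz⟩ := hzE i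
  obtain ⟨-, ej, hej, hejz⟩ := hzE j
  obtain ⟨y, hyS, -, ek, hek, heky⟩ := hES k
  refine Kc.false (H := wgr G W t) (W := W) (t := t) (B := {z}) (Y := E k)
    (P := ![S, X, (D \ X) \ E k]) h.xf ?_ ?_ ?_
  · exact fun x _ y hxy => h.wgr_mem hxy
  · intro F hF hFW
    rw [nb_wgr hFW]
    exact h.four F hF hFW
  · exact {
      cB := con_singleton z
      cY := hEk
      cP := fun l => by
        fin_cases l
        · exact hS'
        · exact hX'
        · exact hR'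
      tW := h.tW
      BW := singleton_subset_iff.2 hz
      YW := hEW k
      tP := fun l => by
        fin_cases l
        · exact ⟨0, h0⟩
        · exact ⟨2, h2X⟩
        · exact ⟨3, ⟨hD3, h3X⟩, htE k 3⟩
      BY := fun x hx e => by
        rw [mem_singleton_iff] at hx
        subst hx
        exact hDz (hED k e)
      BP := fun l x hx e => by
        rw [mem_singleton_iff] at e
        subst e
        fin_cases l
        · exact hzS' hx
        · exact hDz (hXD hx)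
        · exact hDz hx.1.1
      YP := fun l x hx e => by
        fin_cases l
        · exact hDS x (hED k e) hx
        · exact hkX x e hx
        · exact hx.2 e
      PP := fun l m hlm x hx e => by
        fin_cases l <;> fin_cases m
        · exact hlm rfl
        · exact hDS x (hXD e) hx
        · exact hDS x e.1.1 hx
        · exact hDS x (hXD hx) e
        · exact hlm rfl
        · exact e.1.2 hx
        · exact hDS x hx.1.1 e
        · exact hx.1.2 e
        · exact hlm rfl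
      aB := fun l => by
        fin_cases l
        · exact ⟨z, rfl, s, hs, wgr_adj hz hsz.symm⟩
        · exact ⟨z, rfl, ei, hiX hei, wgr_adj hz heiz.symm⟩
        · exact ⟨z, rfl, ej, ⟨⟨hED j hej, hjX ej hej⟩, hdis j k hjk ej hej⟩,
            wgr_adj hz hejz.symm⟩
      aY := fun l => by
        fin_cases l
        · exact ⟨ek, hek, y, hyS, wgr_adj (hEW k hek) heky⟩
        · exact ⟨v, hv, u, hu, wgr_adj (hEW k hv) huv.symm⟩
        · exact ⟨v', hv', u', hu', wgr_adj (hEW k hv') huv'.symm⟩ }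

end Pool.Agent.Lib.MP_d9512b_co.Wb
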