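import Pool.Agent.Lib.MP_d9512b_co.CC.St

set_option autoImplicit false

/-!
(PL) for states: swallowing a vertex creates at most two new minimal fragments.
-/

namespace Pool.Agent.Lib.MP_d9512b_co.Wb

open Set

variable {V : Type*} {G : SimpleGraph V} {W S D A E F K : Set V} {t : Fin 4 → V} {c x y z : V}

/-- The edges of the web with all edges between the terminals. -/
def wgp (G : SimpleGraph V) (W : Set V) (t : Fin 4 → V) : SimpleGraph V where
  Adj x y := x ≠ y ∧ ((G.Adj x y ∧ (x ∈ W ∨ y ∈ W)) ∨ ((∃ i, t i = x) ∧ ∃ j, t j = y))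
  symm := ⟨fun x y h => by
    refine ⟨h.1.symm, ?_⟩
    rcases h.2 with ⟨h1, h2⟩ | ⟨h1, h2⟩
    · exact Or.inl ⟨h1.symm, h2.symm⟩
    · exact Or.inr ⟨h2, h1⟩⟩
  loopless := ⟨fun x h => h.1 rfl⟩

theorem wgp_adj (hx : x ∈ W) (h : G.Adj x y) : (wgp G W t).Adj x y :=
  ⟨h.ne, Or.inl ⟨h, Or.inl hx⟩⟩

theorem wgp_adj_left (ht : ∀ j, t j ∉ W) (hx : x ∈ W) (h : (wgp G W t).Adj x y) : G.Adj x y := by
  rcases h.2 with ⟨h1, -⟩ | ⟨⟨i, rfl⟩, -⟩
  · exact h1
  · exact absurd hx (ht i)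

theorem nb_wgp (ht : ∀ j, t j ∉ W) (hA : A ⊆ W) : Nb (wgp G W t) A = Nb G A := by
  ext v
  constructor
  · rintro ⟨h1, c, hc, h2⟩
    exact ⟨h1, c, hc, wgp_adj_left ht (hA hc) h2⟩
  · rintro ⟨h1, c, hc, h2⟩
    exact ⟨h1, c, hc, wgp_adj (hA hc) h2⟩

theorem con_wgp (hA : A ⊆ W) (h : Con G A) : Con (wgp G W t) A :=
  ⟨h.1, fun x hx y hy => (h.2 x hx y hy).induct (P := fun y => Rc (wgp G W t) A x y)
    (Rc.refl hx) fun _ _ ha h1 hb hab => h1.tail (wgp_adj (hA ha.right_mem) hab) hb⟩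

theorem con_wgp' (ht : ∀ j, t j ∉ W) (hA : A ⊆ W) (h : Con (wgp G W t) A) : Con G A :=
  ⟨h.1, fun x hx y hy => (h.2 x hx y hy).induct (P := fun y => Rc G A x y)
    (Rc.refl hx) fun _ _ ha h1 hb hab => h1.tail (wgp_adj_left ht (hA ha.right_mem) hab) hb⟩

theorem Web.wgp (h : Web G W t) : Web (wgp G W t) W t where
  inj := h.inj
  tW := h.tW
  nb := fun x hx y hxy => h.nb x hx y (wgp_adj_left h.tW hx hxy)
  four := fun E hE hEW => by
    rw [nb_wgp h.tW hEW]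
    exact h.four E hE hEW
  nox := fun F F' hF hF' hFW hFW' h0 h1 h2 h3 => by
    rw [nb_wgp h.tW hFW] at h0 h1
    rw [nb_wgp h.tW hFW'] at h2 h3
    exact h.nox F F' (con_wgp' h.tW hFW hF) (con_wgp' h.tW hFW' hF') hFW hFW' h0 h1 h2 h3

/-- The rest of the web is solid. -/
theorem Web.sol (h : Web G W t) [Finite V] (hS : St G W (t 0) S)
    (hDe : ∀ x, x ∈ D ↔ (x ∈ W ∨ x = t 1 ∨ x = t 2 ∨ x = t 3) ∧ x ∉ S) :
    Sol (Wb.wgp G W t) D := by
  have h0 : ∀ j : Fin 4, j ≠ 0 → t j ∉ S := by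
    intro j hj e
    rcases hS.sub _ e with e | e
    · exact h.tW j e
    · exact hj (h.inj e)
  have hD1 : t 1 ∈ D := (hDe _).2 ⟨Or.inr (Or.inl rfl), h0 1 (by decide)⟩
  have hD2 : t 2 ∈ D := (hDe _).2 ⟨Or.inr (Or.inr (Or.inl rfl)), h0 2 (by decide)⟩
  have key : ∀ y, ∀ a ∈ D, a ≠ y → ∃ j, t j ∈ D \ {y} ∧
      Rc (Wb.wgp G W t) (D \ {y}) a (t j) := by
    intro y a ha hay
    by_contra hcon
    push Not at hcon
    have haD : a ∈ D \ {y} := ⟨ha, hay⟩
    have hC : cmp (Wb.wgp G W t) (D \ {y}) a ⊆ W \ S := by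
      intro x hx
      have hx' := cmp_subset hx
      have h1 := (hDe x).1 hx'.1
      refine ⟨?_, h1.2⟩
      rcases h1.1 with h2 | rfl | rfl | rfl
      · exact h2
      · exact absurd hx (hcon 1 hx')
      · exact absurd hx (hcon 2 hx')
      · exact absurd hx (hcon 3 hx')
    have h1 := hS.two _ ⟨a, mem_cmp_self haD⟩ hC
    have h2 : Nb G (cmp (Wb.wgp G W t) (D \ {y}) a) \ S ⊆ {y} := by
      rintro v ⟨⟨hv, u, hu, huv⟩, hvS⟩
      by_contra hvy
      refine hv (cmp_closed hu ?_ (wgp_adj (hC hu).1 huv))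
      refine ⟨(hDe v).2 ⟨?_, hvS⟩, hvy⟩
      rcases h.nb u (hC hu).1 v huv with h3 | ⟨j, rfl⟩
      · exact Or.inl h3
      · fin_cases j
        · exact absurd hS.mem hvS
        · exact Or.inr (Or.inl rfl)
        · exact Or.inr (Or.inr (Or.inl rfl))
        · exact Or.inr (Or.inr (Or.inr rfl))
    have h3 := ncard_le_ncard h2
    rw [ncard_singleton] at h3
    omega
  refine sol_of_rc ⟨t 1, hD1⟩ ?_ ⟨t 0, fun e => ((hDe _).1 e).2 hS.mem⟩
  intro y a ha b hb hay hby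
  obtain ⟨i, hi, hai⟩ := key y a ha hay
  obtain ⟨j, hj, hbj⟩ := key y b hb hby
  refine hai.trans (Rc.trans ?_ hbj.symm)
  by_cases hij : t i = t j
  · rw [hij]
    exact Rc.refl hj
  · exact Rc.adj hi hj ⟨hij, Or.inr ⟨⟨i, rfl⟩, j, rfl⟩⟩

/-- (PL) for states. -/
theorem Web.pl_state [Finite V] (h : Web G W t) (hS : St G W (t 0) S)
    (hS' : St G W (t 0) (insert z S)) (hz : z ∈ W) (hzS : z ∈ Nb G S) {E : Fin 3 → Set V}
    (hE : ∀ i, MFr G W (insert z S) (E i)) (hinj : Function.Injective E)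
    (hzE : ∀ i, z ∈ Nb G (E i)) : False := by
  have h0 : ∀ j : Fin 4, j ≠ 0 → t j ∉ insert z S := by
    intro j hj e
    rcases hS'.sub _ e with e | e
    · exact h.tW j e
    · exact hj (h.inj e)
  have hEW : ∀ i, E i ⊆ W := fun i x hx => ((hE i).frg.sub hx).1
  have hDe : ∀ x, x ∈ {x | (x ∈ W ∨ x = t 1 ∨ x = t 2 ∨ x = t 3) ∧ x ∉ insert z S} ↔
      (x ∈ W ∨ x = t 1 ∨ x = t 2 ∨ x = t 3) ∧ x ∉ insert z S := fun x => Iff.rfl
  have hcon : Con (Wb.wgp G W t) S := by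
    refine ⟨hS.con.1, fun x hx y hy => (hS.con.2 x hx y hy).induct
      (P := fun y => Rc (Wb.wgp G W t) S x y) (Rc.refl hx) ?_⟩
    intro a b ha h1 hb hab
    refine h1.tail ⟨hab.ne, ?_⟩ hb
    rcases hS.sub a ha.right_mem with ha' | rfl
    · exact Or.inl ⟨hab, Or.inl ha'⟩
    rcases hS.sub b hb with hb' | rfl
    · exact Or.inl ⟨hab, Or.inr hb'⟩
    · exact absurd rfl hab.ne
  refine h.wgp.pl (S := S) (z := z)
    (D := {x | (x ∈ W ∨ x = t 1 ∨ x = t 2 ∨ x = t 3) ∧ x ∉ insert z S}) (E := E)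
    hcon hS.mem (fun e => h0 1 (by decide) (Or.inr e)) (fun e => h0 2 (by decide) (Or.inr e))
    (fun e => h0 3 (by decide) (Or.inr e)) hS.sub hz ?_ (h.sol hS' hDe) ?_ ?_ hEW ?_ ?_ ?_ ?_
  · obtain ⟨h1, s, hs, hsz⟩ := hzS
    exact ⟨h1, s, hs, (wgp_adj hz hsz.symm).symm⟩
  · intro x
    rw [hDe]
    constructor
    · rintro ⟨h1, h2⟩
      exact ⟨h1, fun e => h2 (Or.inr e), fun e => h2 (Or.inl e)⟩
    · rintro ⟨h1, h2, h3⟩
      exact ⟨h1, fun e => e.elim h3 h2⟩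
  · exact fun i => con_wgp (hEW i) ((hE i).con hS')
  · exact fun i x hx => ⟨Or.inl (hEW i hx), ((hE i).frg.sub hx).2⟩
  · exact fun i j hij x hx => (hE i).disj (hE j) hS' (fun e => hij (hinj e)) hx
  · intro i
    rw [nb_wgp h.tW (hEW i), ← (hE i).frg.two]
    exact ncard_le_ncard fun v hv => ⟨hv.1, hv.2.2⟩
  · intro i
    rw [nb_wgp h.tW (hEW i)]
    exact hzE i

/-- Swallowing `z`: at most two minimal fragments are adjacent to `z`. -/
theorem Web.pl_card [Finite V] (h : Web G W t) (hS : St G W (t 0) S)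
    (hS' : St G W (t 0) (insert z S)) (hz : z ∈ W) (hzS : z ∈ Nb G S) :
    {E | MFr G W (insert z S) E ∧ z ∈ Nb G E}.ncard ≤ 2 := by
  by_contra hcon
  obtain ⟨A, B, C, hA, hB, hC, hAB, hAC, hBC⟩ := (two_lt_ncard_iff (toFinite _)).1
    (Nat.lt_of_not_le hcon)
  refine h.pl_state hS hS' hz hzS (E := ![A, B, C]) ?_ ?_ ?_
  · intro i
    fin_cases i
    · exact hA.1
    · exact hB.1
    · exact hC.1
  · intro i j hij
    fin_cases i <;> fin_cases j
    · rfl
    · exact absurd hij hAB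
    · exact absurd hij hAC
    · exact absurd hij hAB.symm
    · rfl
    · exact absurd hij hBC
    · exact absurd hij hAC.symm
    · exact absurd hij hBC.symm
    · rfl
  · intro i
    fin_cases i
    · exact hA.2
    · exact hB.2
    · exact hC.2

/-- The number of minimal fragments after a step at a minimal fragment with two vertices. -/
theorem Web.nfr_ins [Finite V] (h : Web G W t) (hS : St G W (t 0) S)
    (hS' : St G W (t 0) (insert z S)) (hz : z ∈ W) (hzS : z ∈ Nb G S) (hK : MFr G W S K)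
    (hzK : z ∈ K) : nfr G W (insert z S) ≤ nfr G W S + 1 := by
  have h1 : {E | MFr G W (insert z S) E} ⊆ {E | MFr G W (insert z S) E ∧ z ∈ Nb G E} ∪
      ({E | MFr G W S E} \ {K}) := by
    intro E hE
    by_cases hzE : z ∈ Nb G E
    · exact Or.inl ⟨hE, hzE⟩
    right
    refine ⟨MFr.old hE (subset_insert z S) hS' ?_, ?_⟩
    · rintro x (rfl | hx) hxS
      · exact hzE
      · exact absurd hx hxS
    · rintro rfl
      exact (MFr.frg hE).sub hzK |>.2 (Or.inl rfl)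
  have h2 := (ncard_le_ncard h1).trans (ncard_union_le _ _)
  have h3 := h.pl_card hS hS' hz hzS
  have h4 : ({E | MFr G W S E} \ {K}).ncard + 1 = {E | MFr G W S E}.ncard :=
    ncard_sdiff_singleton_add_one hK
  unfold nfr
  omega

/-- The number of minimal fragments after the first step of a phase. -/
theorem Web.nfr_first [Finite V] (h : Web G W t) (hS : St G W (t 0) S)
    (hno : ∀ E, ¬ Frg G W S E) (hz : z ∈ W) (hzS : z ∈ Nb G S) :
    nfr G W (insert z S) ≤ 2 := by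
  have hS' := hS.ins_of_no_frg hno hz hzS
  refine le_trans (ncard_le_ncard ?_) (h.pl_card hS hS' hz hzS)
  intro E hE
  refine ⟨hE, ?_⟩
  by_contra hzE
  refine hno E (MFr.old hE (subset_insert z S) hS' ?_).frg
  rintro x (rfl | hx) hxS
  · exact hzE
  · exact absurd hx hxS

end Pool.Agent.Lib.MP_d9512b_co.Wb
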