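import Pool.Agent.Lib.MP_d9512b_co.CC.PLS
import Pool.Agent.Lib.MP_d9512b_co.Far

set_option autoImplicit false

/-!
Short webs: an extremal path between the terminals `t 0` and `t 2` of a web is so short that
its initial segments are no states with a given number of vertices, or there is such a state.
-/

namespace Pool.Agent.Lib.MP_d9512b_co.Wb

open Set

variable {V : Type*} {G : SimpleGraph V} {W P Q X Y C D E N : Set V} {t : Fin 4 → V}
  {c x y z p q w l r j : V}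

/-- The edges of `G` with an end in `W`. -/
def gw (G : SimpleGraph V) (W : Set V) : SimpleGraph V where
  Adj x y := G.Adj x y ∧ (x ∈ W ∨ y ∈ W)
  symm := ⟨fun _ _ h => ⟨h.1.symm, h.2.symm⟩⟩
  loopless := ⟨fun _ h => h.1.ne rfl⟩

theorem gw_le : gw G W ≤ G := fun _ _ h => h.1

/-- The edges of the web with the edges between terminals which are no partners. -/
abbrev hg (G : SimpleGraph V) (W : Set V) (t : Fin 4 → V) : SimpleGraph V :=
  wgr (wgp G W t) W t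

theorem gw_le_hg : gw G W ≤ hg G W t := fun _ _ h =>
  ⟨⟨h.1.ne, Or.inl h⟩, h.2.elim Or.inl fun h => Or.inr (Or.inl h)⟩

theorem hg_adj (ht : ∀ j, t j ∉ W) (hx : x ∈ W) : (hg G W t).Adj x y ↔ G.Adj x y :=
  ⟨fun h => wgp_adj_left ht hx h.1, fun h => gw_le_hg ⟨h, Or.inl hx⟩⟩

theorem hg_adj' (ht : ∀ j, t j ∉ W) (hy : y ∈ W) : (hg G W t).Adj x y ↔ G.Adj x y :=
  ⟨fun h => ((hg_adj ht hy).1 h.symm).symm, fun h => gw_le_hg ⟨h, Or.inr hy⟩⟩

theorem hg_adj13 (hinj : Function.Injective t) : (hg G W t).Adj (t 1) (t 3) :=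
  ⟨⟨fun e => absurd (hinj e) (by decide), Or.inr ⟨⟨1, rfl⟩, 3, rfl⟩⟩,
    Or.inr (Or.inr ⟨1, 3, by decide, by decide, rfl, rfl⟩)⟩

theorem nb_hg (ht : ∀ j, t j ∉ W) (hE : E ⊆ W) : Nb (hg G W t) E = Nb G E := by
  rw [nb_wgr hE, nb_wgp ht hE]

theorem con_gw (hE : E ⊆ W) (h : Con G E) : Con (gw G W) E :=
  ⟨h.1, fun x hx y hy => (h.2 x hx y hy).induct (P := fun y => Rc (gw G W) E x y)
    (Rc.refl hx) fun _ _ ha h1 hb hab => h1.tail ⟨hab, Or.inl (hE ha.right_mem)⟩ hb⟩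

/-- Connections of `t 0` and `t 2` inside of `W`. -/
structure Pp (G : SimpleGraph V) (W : Set V) (t : Fin 4 → V) (P : Set V) : Prop where
  sub : P ⊆ W
  con : Con G P
  a0 : ∃ x ∈ P, G.Adj x (t 0)
  a2 : ∃ x ∈ P, G.Adj x (t 2)

/-- The part of the rest which contains `t 1` and `t 3`. -/
def Cc (G : SimpleGraph V) (W : Set V) (t : Fin 4 → V) (P : Set V) : Set V :=
  cmp (hg G W t) ((W \ P) ∪ {t 1, t 3}) (t 1)

theorem Cc_mono (h : Q ⊆ P) : Cc G W t P ⊆ Cc G W t Q :=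
  cmp_mono (union_subset_union_left _ (sdiff_subset_sdiff_right h))

/-- A connection contains an inner connection. -/
theorem exists_pp (ht : ∀ j, t j ∉ W) (h02 : t 0 ≠ t 2) (hQ : ∀ x ∈ Q, x ∈ W ∨ x = t 0 ∨ x = t 2)
    (h : Rc (gw G W) Q (t 0) (t 2)) : ∃ P ⊆ Q, Pp G W t P := by
  by_contra hcon
  push Not at hcon
  have h1 : t 2 ∈ insert (t 0) {x | x ∈ Q ∩ W ∧ ∃ u ∈ cmp (gw G W) (Q ∩ W) x, G.Adj u (t 0)} := by
    refine h.mem_closed (mem_insert _ _) ?_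
    rintro a ha b hb hab
    by_cases hb0 : b = t 0
    · exact Or.inl hb0
    right
    by_cases hbW : b ∈ W
    · rcases ha with rfl | ⟨ha, u, hu, hu0⟩
      · exact ⟨⟨hb, hbW⟩, b, mem_cmp_self ⟨hb, hbW⟩, hab.1.symm⟩
      · refine ⟨⟨hb, hbW⟩, u, ?_, hu0⟩
        have h3 : b ∈ cmp (gw G W) (Q ∩ W) a := cmp_closed (mem_cmp_self ha) ⟨hb, hbW⟩ hab
        rw [cmp_eq h3]
        exact hu
    · exfalso
      have hb2 : b = t 2 := by
        rcases hQ b hb with h2 | h2 | h2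
        · exact absurd h2 hbW
        · exact absurd h2 hb0
        · exact h2
      subst hb2
      rcases ha with rfl | ⟨ha, u, hu, hu0⟩
      · exact hab.2.elim (ht 0) (ht 2)
      · refine hcon (cmp (gw G W) (Q ∩ W) a) (fun x hx => (cmp_subset hx).1)
          ⟨fun x hx => (cmp_subset hx).2, (con_cmp ha).mono_graph gw_le, ⟨u, hu, hu0⟩,
            a, mem_cmp_self ha, hab.1⟩
  rcases h1 with h1 | h1
  · exact h02 h1.symm
  · exact ht 2 h1.1.2

/-- Extremal connections. -/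
structure Xt (G : SimpleGraph V) (W : Set V) (t : Fin 4 → V) (P : Set V) : Prop where
  pp : Pp G W t P
  max : ∀ Q, Pp G W t Q → ¬ (Cc G W t P).ncard < (Cc G W t Q).ncard
  min : ∀ Q ⊆ P, Pp G W t Q → Q = P

theorem exists_xt [Finite V] (h : Pp G W t P) : ∃ P, Xt G W t P := by
  obtain ⟨P, hP, hmax⟩ := exists_max_image {P | Pp G W t P}
    (fun P => (Cc G W t P).ncard * (Nat.card V + 1) + (Nat.card V - P.ncard)) (toFinite _) ⟨P, h⟩
  refine ⟨P, hP, fun Q hQ hlt => ?_, fun Q hQP hQ => ?_⟩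
  · have h1 := hmax Q hQ
    have h2 : ((Cc G W t P).ncard + 1) * (Nat.card V + 1) ≤
        (Cc G W t Q).ncard * (Nat.card V + 1) := Nat.mul_le_mul_right _ hlt
    rw [Nat.add_mul] at h2
    omega
  · have h1 := hmax Q hQ
    have h2 : (Cc G W t P).ncard * (Nat.card V + 1) ≤ (Cc G W t Q).ncard * (Nat.card V + 1) :=
      Nat.mul_le_mul_right _ (ncard_le_ncard (Cc_mono hQP))
    have h3 : P.ncard ≤ Nat.card V := by
      rw [← ncard_univ]
      exact ncard_le_ncard (subset_univ P)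
    refine eq_of_subset_of_ncard_le hQP ?_ (toFinite _)
    omega

/-- The connection with its ends. -/
def Pe (t : Fin 4 → V) (P : Set V) : Set V := insert (t 0) (insert (t 2) P)

/-- The vertices before `y`. -/
def Lf (G : SimpleGraph V) (W : Set V) (t : Fin 4 → V) (P : Set V) (y : V) : Set V :=
  cmp (gw G W) (Pe t P \ {y}) (t 0)

/-- The vertices behind `y`. -/
def Rg (G : SimpleGraph V) (W : Set V) (t : Fin 4 → V) (P : Set V) (y : V) : Set V :=
  cmp (gw G W) (Pe t P \ {y}) (t 2)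

theorem t0_mem : t 0 ∈ Pe t P := Or.inl rfl

theorem t2_mem : t 2 ∈ Pe t P := Or.inr (Or.inl rfl)

theorem Lf_sub : Lf G W t P y ⊆ Pe t P := fun _ h => (cmp_subset h).1

theorem Rg_sub : Rg G W t P y ⊆ Pe t P := fun _ h => (cmp_subset h).1

theorem Lf_ne (h : x ∈ Lf G W t P y) : x ≠ y := (cmp_subset h).2

theorem Rg_ne (h : x ∈ Rg G W t P y) : x ≠ y := (cmp_subset h).2

theorem Pp.con_Pe (h : Pp G W t P) : Con (gw G W) (Pe t P) := by
  obtain ⟨x, hx, hx0⟩ := h.a0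
  obtain ⟨y, hy, hy2⟩ := h.a2
  exact ((con_gw h.sub h.con).ins hy ⟨hy2, Or.inl (h.sub hy)⟩).ins (Or.inr hx)
    ⟨hx0, Or.inl (h.sub hx)⟩

theorem Xt.con_A (h : Xt G W t P) (hy : y ∈ Pe t P) :
    Con (gw G W) (insert y (Lf G W t P y)) ∧ t 0 ∈ insert y (Lf G W t P y) := by
  by_cases hy0 : y = t 0
  · subst hy0
    have h1 : Lf G W t P (t 0) = ∅ := by
      rw [eq_empty_iff_forall_notMem]
      exact fun x hx => hx.left_mem.2 rfl
    rw [h1, insert_empty_eq]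
    exact ⟨con_singleton _, rfl⟩
  · have h0 : t 0 ∈ Pe t P \ {y} := ⟨t0_mem, fun e => hy0 e.symm⟩
    obtain ⟨a, ha, b, hb, -, hbP, hab⟩ := h.pp.con_Pe.exists_edge (X := Lf G W t P y)
      (mem_cmp_self h0) t0_mem (y := y) (fun e => Lf_ne e rfl) hy
    have hby : b = y := by
      by_contra e
      exact hb (cmp_closed ha ⟨hbP, e⟩ hab)
    subst hby
    exact ⟨(con_cmp h0).ins ha hab, Or.inr (mem_cmp_self h0)⟩

theorem Xt.con_B (h : Xt G W t P) (hy : y ∈ Pe t P) :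
    Con (gw G W) (insert y (Rg G W t P y)) ∧ t 2 ∈ insert y (Rg G W t P y) := by
  by_cases hy0 : y = t 2
  · subst hy0
    have h1 : Rg G W t P (t 2) = ∅ := by
      rw [eq_empty_iff_forall_notMem]
      exact fun x hx => hx.left_mem.2 rfl
    rw [h1, insert_empty_eq]
    exact ⟨con_singleton _, rfl⟩
  · have h0 : t 2 ∈ Pe t P \ {y} := ⟨t2_mem, fun e => hy0 e.symm⟩
    obtain ⟨a, ha, b, hb, -, hbP, hab⟩ := h.pp.con_Pe.exists_edge (X := Rg G W t P y)
      (mem_cmp_self h0) t2_mem (y := y) (fun e => Rg_ne e rfl) hy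
    have hby : b = y := by
      by_contra e
      exact hb (cmp_closed ha ⟨hbP, e⟩ hab)
    subst hby
    exact ⟨(con_cmp h0).ins ha hab, Or.inr (mem_cmp_self h0)⟩

section order

variable (hW : ∀ j, t j ∉ W) (h02 : t 0 ≠ t 2) (h : Xt G W t P)

include hW h02 h

theorem Xt.cut (hz : z ∈ Pe t P) : z ∈ Cut (gw G W) (Pe t P) (t 0) (t 2) := by
  rcases hz with rfl | rfl | hz
  · exact left_mem_cut t0_mem
  · exact right_mem_cut t2_mem
  · refine ⟨Or.inr (Or.inr hz), fun hr => ?_⟩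
    obtain ⟨Q, hQ, hQp⟩ := exists_pp hW h02 (fun x hx => by
      rcases hx.1 with rfl | rfl | hx
      · exact Or.inr (Or.inl rfl)
      · exact Or.inr (Or.inr rfl)
      · exact Or.inl (h.pp.sub hx)) hr
    have h1 : Q ⊆ P := by
      intro x hx
      rcases (hQ hx).1 with rfl | rfl | hx'
      · exact absurd (hQp.sub hx) (hW 0)
      · exact absurd (hQp.sub hx) (hW 2)
      · exact hx'
    have h2 := h.min Q h1 hQp
    subst h2
    exact (hQ hz).2 rfl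

theorem Xt.o1 (hx : x ∈ Pe t P) (hy : y ∈ Pe t P) (hne : x ≠ y) :
    x ∈ Lf G W t P y ∨ x ∈ Rg G W t P y :=
  cut_order1 h.pp.con_Pe t0_mem t2_mem (h.cut hW h02 hy) (h.cut hW h02 hx) hne.symm

theorem Xt.o2 (hy : y ∈ Pe t P) (h1 : x ∈ Lf G W t P y) (h2 : x ∈ Rg G W t P y) : False :=
  cut_order2 (h.cut hW h02 hy) h1 h2

theorem Xt.o3 (hy : y ∈ Pe t P) (h1 : x ∈ Lf G W t P y) : y ∈ Rg G W t P x :=
  cut_order3 h.pp.con_Pe t2_mem (h.cut hW h02 hy) (Lf_ne h1).symm h1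

theorem Xt.o3' (hy : y ∈ Pe t P) (h1 : x ∈ Rg G W t P y) : y ∈ Lf G W t P x :=
  cut_order3' h.pp.con_Pe t0_mem (h.cut hW h02 hy) (Rg_ne h1).symm h1

theorem Xt.Lf_sub_Lf (hy : y ∈ Pe t P) (hyz : y ∈ Lf G W t P z) (hz : z ∈ Pe t P) :
    Lf G W t P y ⊆ Lf G W t P z := by
  intro x hx
  have hy0 : t 0 ∈ Pe t P \ {y} := hx.left_mem
  have hz0 : t 0 ∈ Pe t P \ {z} := hyz.left_mem
  have hzy : z ∉ Lf G W t P y := fun e => h.o2 hW h02 hz hyz (h.o3 hW h02 hy e)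
  have h1 : cmp (gw G W) (Pe t P \ {y}) (t 0) ⊆ Pe t P \ {z} := fun a ha =>
    ⟨(cmp_subset ha).1, fun e => hzy (by rw [mem_singleton_iff] at e; exact e ▸ ha)⟩
  exact (con_cmp hy0).subset_cmp h1 (mem_cmp_self hy0) (mem_cmp_self hz0) hx

theorem Xt.Rg_sub_Rg (hy : y ∈ Pe t P) (hyz : y ∈ Rg G W t P z) (hz : z ∈ Pe t P) :
    Rg G W t P y ⊆ Rg G W t P z := by
  intro x hx
  have hy0 : t 2 ∈ Pe t P \ {y} := hx.left_mem
  have hz0 : t 2 ∈ Pe t P \ {z} := hyz.left_mem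
  have hzy : z ∉ Rg G W t P y := fun e => h.o2 hW h02 hz (h.o3' hW h02 hy e) hyz
  have h1 : cmp (gw G W) (Pe t P \ {y}) (t 2) ⊆ Pe t P \ {z} := fun a ha =>
    ⟨(cmp_subset ha).1, fun e => hzy (by rw [mem_singleton_iff] at e; exact e ▸ ha)⟩
  exact (con_cmp hy0).subset_cmp h1 (mem_cmp_self hy0) (mem_cmp_self hz0) hx

/-- The smallest element. -/
theorem Xt.exists_min [Finite V] (hN : N ⊆ Pe t P) (hne : N.Nonempty) :
    ∃ l ∈ N, ∀ x ∈ N, x ≠ l → x ∈ Rg G W t P l := by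
  obtain ⟨l, hl, hmin⟩ := exists_min_image N (fun x => (Lf G W t P x).ncard) (toFinite _) hne
  refine ⟨l, hl, fun x hx hxl => ?_⟩
  rcases h.o1 hW h02 (hN hx) (hN hl) hxl with h1 | h1
  · exfalso
    have h2 := h.Lf_sub_Lf hW h02 (hN hx) h1 (hN hl)
    have h3 : (Lf G W t P x).ncard < (Lf G W t P l).ncard :=
      ncard_lt_ncard ⟨h2, fun h4 => Lf_ne (h4 h1) rfl⟩ (toFinite _)
    have h4 := hmin x hx
    omega
  · exact h1

/-- The largest element. -/
theorem Xt.exists_max [Finite V] (hN : N ⊆ Pe t P) (hne : N.Nonempty) :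
    ∃ r ∈ N, ∀ x ∈ N, x ≠ r → x ∈ Lf G W t P r := by
  obtain ⟨l, hl, hmin⟩ := exists_min_image N (fun x => (Rg G W t P x).ncard) (toFinite _) hne
  refine ⟨l, hl, fun x hx hxl => ?_⟩
  rcases h.o1 hW h02 (hN hx) (hN hl) hxl with h1 | h1
  · exact h1
  · exfalso
    have h2 := h.Rg_sub_Rg hW h02 (hN hx) h1 (hN hl)
    have h3 : (Rg G W t P x).ncard < (Rg G W t P l).ncard :=
      ncard_lt_ncard ⟨h2, fun h4 => Rg_ne (h4 h1) rfl⟩ (toFinite _)
    have h4 := hmin x hx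
    omega

/-- Three elements: the first, the last and one between them. -/
theorem Xt.exists_three [Finite V] (hN : N ⊆ Pe t P) (h3 : 3 ≤ N.ncard) :
    ∃ l ∈ N, ∃ r ∈ N, ∃ j ∈ N, l ≠ r ∧ j ∈ Rg G W t P l ∧ j ∈ Lf G W t P r ∧
      ∀ x ∈ N, x = l ∨ x = r ∨ (x ∈ Rg G W t P l ∧ x ∈ Lf G W t P r) := by
  have hne : N.Nonempty := by
    rw [← ncard_pos (toFinite _)]
    omega
  obtain ⟨l, hl, hl'⟩ := h.exists_min hW h02 hN hne
  obtain ⟨r, hr, hr'⟩ := h.exists_max hW h02 hN hne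
  obtain ⟨j, hj, hjl, hjr⟩ : ∃ j ∈ N, j ≠ l ∧ j ≠ r := by
    by_contra hcon
    push Not at hcon
    have h4 : N ⊆ {l, r} := by
      intro x hx
      by_cases hxl : x = l
      · exact Or.inl hxl
      · exact Or.inr (hcon x hx hxl)
    have h5 := ncard_le_ncard h4
    have h6 := ncard_insert_le l ({r} : Set V)
    rw [ncard_singleton] at h6
    omega
  have h4 := hl' j hj hjl
  have h5 := hr' j hj hjr
  refine ⟨l, hl, r, hr, j, hj, ?_, h4, h5, ?_⟩
  · rintro rfl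
    exact h.o2 hW h02 (hN hl) h5 h4
  · intro x hx
    by_cases hxl : x = l
    · exact Or.inl hxl
    by_cases hxr : x = r
    · exact Or.inr (Or.inl hxr)
    · exact Or.inr (Or.inr ⟨hl' x hx hxl, hr' x hx hxr⟩)

end order


section web

variable (h : Web G W t) (hX : Xt G W t P)

include h in
theorem Web.h02 : t 0 ≠ t 2 := fun e => absurd (h.inj e) (by decide)

include h in
theorem Web.h13 : t 1 ≠ t 3 := fun e => absurd (h.inj e) (by decide)

theorem Cc_sub : Cc G W t P ⊆ (W \ P) ∪ {t 1, t 3} := cmp_subset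

theorem t1_mem_Cc : t 1 ∈ Cc G W t P := mem_cmp_self (Or.inr (Or.inl rfl))

include h in
theorem Web.t3_mem_Cc : t 3 ∈ Cc G W t P :=
  cmp_closed t1_mem_Cc (Or.inr (Or.inr rfl)) (hg_adj13 h.inj)

theorem Cc_not_P (ht : ∀ j, t j ∉ W) (hP : P ⊆ W) (hx : x ∈ Cc G W t P) : x ∉ P := by
  intro hxP
  rcases Cc_sub hx with h1 | rfl | h1
  · exact h1.2 hxP
  · exact ht 1 (hP hxP)
  · rw [mem_singleton_iff] at h1
    subst h1
    exact ht 3 (hP hxP)

include h in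
theorem Web.Cc_not_Pe (hP : P ⊆ W) (hx : x ∈ Cc G W t P) : x ∉ Pe t P := by
  rintro (rfl | rfl | h1)
  · rcases Cc_sub hx with h1 | h1 | h1
    · exact h.tW 0 h1.1
    · exact absurd (h.inj h1) (by decide)
    · exact absurd (h.inj h1) (by decide)
  · rcases Cc_sub hx with h1 | h1 | h1
    · exact h.tW 2 h1.1
    · exact absurd (h.inj h1) (by decide)
    · exact absurd (h.inj h1) (by decide)
  · exact Cc_not_P h.tW hP hx h1

theorem con_Cc : Con (hg G W t) (Cc G W t P) := con_cmp (Or.inr (Or.inl rfl))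

include h in
/-- Vertices outside of the path with a neighbour in `Cc` are in `Cc`. -/
theorem Web.mem_Cc (hv : x ∈ W) (hvP : x ∉ P) (hq : q ∈ Cc G W t P) (hqx : G.Adj q x) :
    x ∈ Cc G W t P := cmp_closed hq (Or.inl ⟨hv, hvP⟩) ((hg_adj' h.tW hv).2 hqx)

include h hX in
/-- All vertices of `W` are on the path or in `Cc`, and those of the path have neighbours in
`Cc`. -/
theorem Web.cover [Finite V] (hx : x ∈ W) (hxC : x ∉ Cc G W t P) :
    ∃ q ∈ Cc G W t P, G.Adj x q := by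
  by_contra hcon
  push Not at hcon
  set B0 : Set V := {v | v ∈ W ∧ v ∉ Cc G W t P ∧ ∀ q ∈ Cc G W t P, ¬ G.Adj v q} with hB0
  have hx0 : x ∈ B0 := ⟨hx, hxC, hcon⟩
  set E := cmp G B0 x with hE
  have hEB : E ⊆ B0 := cmp_subset
  have hEW : E ⊆ W := fun v hv => (hEB hv).1
  have hEc : Con G E := con_cmp hx0
  have hN : Nb G E ⊆ Pe t P := by
    rintro v hv
    have hv' := hv
    obtain ⟨hvE, e, he, hev⟩ := hv'
    have hvC : v ∉ Cc G W t P := fun h1 => (hEB he).2.2 v h1 hev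
    rcases h.nb e (hEW he) v hev with h1 | ⟨i, rfl⟩
    · have h2 : v ∉ B0 := notMem_of_mem_nb_cmp hv
      obtain ⟨q, hq, hvq⟩ : ∃ q ∈ Cc G W t P, G.Adj v q := by
        by_contra h3
        push Not at h3
        exact h2 ⟨h1, hvC, h3⟩
      by_contra h4
      exact hvC (h.mem_Cc h1 (fun h5 => h4 (Or.inr (Or.inr h5))) hq hvq.symm)
    · fin_cases i
      · exact t0_mem
      · exact absurd t1_mem_Cc hvC
      · exact t2_mem
      · exact absurd h.t3_mem_Cc hvC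
  have h4 := h.four E hEc.1 hEW
  obtain ⟨l, hl, r, hr, j, hj, -, hjl, hjr, -⟩ :=
    hX.exists_three h.tW h.h02 hN (by omega)
  have hlr : l ∈ Pe t P ∧ r ∈ Pe t P ∧ j ∈ Pe t P := ⟨hN hl, hN hr, hN hj⟩
  -- `j` is on the path
  have hjW : j ∈ W := by
    rcases hlr.2.2 with rfl | rfl | h1
    · exfalso
      exact (hX.o3' h.tW h.h02 hlr.1 hjl).left_mem.2 rfl
    · exfalso
      exact (hX.o3 h.tW h.h02 hlr.2.1 hjr).left_mem.2 rfl
    · exact hX.pp.sub h1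
  obtain ⟨q, hq, hjq⟩ : ∃ q ∈ Cc G W t P, G.Adj j q := by
    by_contra h3
    push Not at h3
    exact notMem_of_mem_nb_cmp hj
      ⟨hjW, fun h5 => h.Cc_not_Pe hX.pp.sub h5 hlr.2.2, h3⟩
  have hA := hX.con_A hlr.1
  have hB := hX.con_B hlr.2.1
  have hEg : Con (gw G W) E := con_gw hEW hEc
  obtain ⟨-, el, hel, hell⟩ := hl
  obtain ⟨-, er, her, herr⟩ := hr
  have h5 : Con (gw G W) (insert l (Lf G W t P l) ∪ E) :=
    hA.1.union_adj hEg (Or.inl rfl) hel ⟨hell.symm, Or.inr (hEW hel)⟩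
  have h6 : Con (gw G W) ((insert l (Lf G W t P l) ∪ E) ∪ insert r (Rg G W t P r)) :=
    h5.union_adj hB.1 (Or.inr her) (Or.inl rfl) ⟨herr, Or.inl (hEW her)⟩
  have hAP : insert l (Lf G W t P l) ⊆ Pe t P := insert_subset hlr.1 Lf_sub
  have hBP : insert r (Rg G W t P r) ⊆ Pe t P := insert_subset hlr.2.1 Rg_sub
  obtain ⟨Q, hQ, hQp⟩ := exists_pp h.tW h.h02 (fun v hv => by
      have : v ∈ Pe t P ∨ v ∈ E := by
        rcases hv with (hv | hv) | hv
        · exact Or.inl (hAP hv)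
        · exact Or.inr hv
        · exact Or.inl (hBP hv)
      rcases this with (rfl | rfl | h7) | h7
      · exact Or.inr (Or.inl rfl)
      · exact Or.inr (Or.inr rfl)
      · exact Or.inl (hX.pp.sub h7)
      · exact Or.inl (hEW h7))
    (h6.2 (t 0) (Or.inl (Or.inl hA.2)) (t 2) (Or.inr hB.2))
  have hQC : ∀ v ∈ Cc G W t P, v ∉ Q := by
    intro v hv hvQ
    rcases hQ hvQ with (h7 | h7) | h7
    · exact h.Cc_not_Pe hX.pp.sub hv (hAP h7)
    · exact (hEB h7).2.1 hv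
    · exact h.Cc_not_Pe hX.pp.sub hv (hBP h7)
  have hjQ : j ∉ Q := by
    intro hjQ
    rcases hQ hjQ with (h7 | h7) | h7
    · rcases h7 with h7 | h7
      · exact Rg_ne hjl h7
      · exact hX.o2 h.tW h.h02 hlr.1 h7 hjl
    · exact (hEB h7).2.2 q hq hjq
    · rcases h7 with h7 | h7
      · exact Lf_ne hjr h7
      · exact hX.o2 h.tW h.h02 hlr.2.1 hjr h7
  have h7 : Cc G W t P ⊆ Cc G W t Q := by
    refine con_Cc.subset_cmp (fun v hv => ?_) t1_mem_Cc t1_mem_Cc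
    rcases Cc_sub hv with h8 | h8
    · exact Or.inl ⟨h8.1, hQC v hv⟩
    · exact Or.inr h8
  have h8 : j ∈ Cc G W t Q := h.mem_Cc hjW hjQ (h7 hq) hjq.symm
  refine hX.max Q hQp (ncard_lt_ncard ⟨h7, fun h9 => ?_⟩ (toFinite _))
  exact h.Cc_not_Pe hX.pp.sub (h9 h8) hlr.2.2

include h hX in
/-- Each vertex of the path has two neighbours in `Cc`. -/
theorem Web.two_nb [Finite V] (hp : p ∈ P) (w : V) : ∃ q ∈ Cc G W t P, q ≠ w ∧ G.Adj p q := by
  have hpW : p ∈ W := hX.pp.sub hp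
  have hpP : p ∈ Pe t P := Or.inr (Or.inr hp)
  have h2 : (Nb G {p} ∩ Pe t P).ncard ≤ 2 := by
    by_contra hcon
    obtain ⟨c1, h1, c2, h2, c3, h3, n12, n13, n23⟩ :=
      exists_three (U := Nb G {p} ∩ Pe t P) (by omega)
    have hsub : ∀ c ∈ Nb G {p} ∩ Pe t P, ({p} : Set V) ⊆ Pe t P \ {c} := by
      rintro c ⟨hc, -⟩ z hz
      rw [mem_singleton_iff] at hz
      subst hz
      exact ⟨hpP, fun e => hc.1 e.symm⟩
    have hgn : ∀ c ∈ Nb G {p} ∩ Pe t P, c ∈ Nb (gw G W) {p} := by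
      rintro c ⟨⟨hc, a, ha, hac⟩, -⟩
      rw [mem_singleton_iff] at ha
      subst ha
      exact ⟨hc, a, rfl, hac, Or.inl hpW⟩
    exact cut_three hX.pp.con_Pe t0_mem t2_mem (hX.cut h.tW h.h02 h1.2) (hX.cut h.tW h.h02 h2.2)
      (hX.cut h.tW h.h02 h3.2) n12 n13 n23
      (nb_link (con_singleton p) (hgn _ h1) (hgn _ h2) (hsub c3 h3) ⟨h1.2, n13⟩ ⟨h2.2, n23⟩)
      (nb_link (con_singleton p) (hgn _ h1) (hgn _ h3) (hsub c2 h2) ⟨h1.2, n12⟩
        ⟨h3.2, n23.symm⟩)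
      (nb_link (con_singleton p) (hgn _ h2) (hgn _ h3) (hsub c1 h1) ⟨h2.2, n12.symm⟩
        ⟨h3.2, n13.symm⟩)
  have h4 := h.four {p} ⟨p, rfl⟩ (singleton_subset_iff.2 hpW)
  have h5 : Nb G {p} ⊆ (Nb G {p} ∩ Pe t P) ∪ {q | q ∈ Cc G W t P ∧ G.Adj p q} := by
    rintro v hv
    by_cases hvP : v ∈ Pe t P
    · exact Or.inl ⟨hv, hvP⟩
    right
    obtain ⟨-, a, ha, hav⟩ := hv
    rw [mem_singleton_iff] at ha
    subst ha
    refine ⟨?_, hav⟩
    rcases h.nb a hpW v hav with h6 | ⟨i, rfl⟩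
    · by_contra h7
      obtain ⟨q, hq, hvq⟩ := h.cover hX h6 h7
      exact h7 (h.mem_Cc h6 (fun h8 => hvP (Or.inr (Or.inr h8))) hq hvq.symm)
    · fin_cases i
      · exact absurd t0_mem hvP
      · exact t1_mem_Cc
      · exact absurd t2_mem hvP
      · exact h.t3_mem_Cc
  by_contra hcon
  push Not at hcon
  have h6 : {q | q ∈ Cc G W t P ∧ G.Adj p q} ⊆ {w} := by
    rintro q ⟨hq, hpq⟩
    by_contra h7
    exact hcon q hq h7 hpq
  have h7 := ncard_le_ncard h5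
  have h8 := ncard_union_le (Nb G {p} ∩ Pe t P) {q | q ∈ Cc G W t P ∧ G.Adj p q}
  have h9 := ncard_le_ncard h6
  rw [ncard_singleton] at h9
  omega

end web

end Pool.Agent.Lib.MP_d9512b_co.Wb
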