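import Pool.Agent.Lib.MP_d9512b_co.CC.PL

set_option autoImplicit false

/-!
States of a web and their fragments.
-/

namespace Pool.Agent.Lib.MP_d9512b_co.Wb

open Set

variable {V : Type*} {G : SimpleGraph V} {W S D A E F K : Set V} {t : Fin 4 → V} {c x y z : V}

/-- States: connected sets which contain `c`, otherwise only vertices of `W`, such that each subset
of the rest of `W` has at least two neighbours outside of the state. -/
structure St (G : SimpleGraph V) (W : Set V) (c : V) (S : Set V) : Prop where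
  mem : c ∈ S
  sub : ∀ x ∈ S, x ∈ W ∨ x = c
  con : Con G S
  two : ∀ E : Set V, E.Nonempty → E ⊆ W \ S → 2 ≤ (Nb G E \ S).ncard

/-- Fragments: two neighbours outside of the state. -/
structure Frg (G : SimpleGraph V) (W S E : Set V) : Prop where
  ne : E.Nonempty
  sub : E ⊆ W \ S
  two : (Nb G E \ S).ncard = 2

/-- Minimal fragments. -/
structure MFr (G : SimpleGraph V) (W S E : Set V) : Prop where
  frg : Frg G W S E
  min : ∀ F ⊆ E, Frg G W S F → F = E

/-- The number of minimal fragments. -/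
noncomputable def nfr (G : SimpleGraph V) (W S : Set V) : ℕ := {E | MFr G W S E}.ncard

/-- Submodularity. -/
theorem nb_submod [Finite V] (G : SimpleGraph V) (S E F : Set V) :
    (Nb G (E ∩ F) \ S).ncard + (Nb G (E ∪ F) \ S).ncard ≤
      (Nb G E \ S).ncard + (Nb G F \ S).ncard := by
  rw [← ncard_union_add_ncard_inter (Nb G (E ∩ F) \ S), ← ncard_union_add_ncard_inter (Nb G E \ S)]
  refine Nat.add_le_add (ncard_le_ncard ?_) (ncard_le_ncard ?_)
  · rintro v (⟨⟨hv, c, hc, hcv⟩, hvS⟩ | ⟨⟨hv, c, hc, hcv⟩, hvS⟩)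
    · by_cases hvE : v ∈ E
      · exact Or.inr ⟨⟨fun h => hv ⟨hvE, h⟩, c, hc.2, hcv⟩, hvS⟩
      · exact Or.inl ⟨⟨hvE, c, hc.1, hcv⟩, hvS⟩
    · rcases hc with hc | hc
      · exact Or.inl ⟨⟨fun h => hv (Or.inl h), c, hc, hcv⟩, hvS⟩
      · exact Or.inr ⟨⟨fun h => hv (Or.inr h), c, hc, hcv⟩, hvS⟩
  · rintro v ⟨⟨⟨hv, c, hc, hcv⟩, hvS⟩, ⟨⟨hv', -⟩, -⟩⟩
    exact ⟨⟨⟨fun h => hv' (Or.inl h), c, hc.1, hcv⟩, hvS⟩,
      ⟨⟨fun h => hv' (Or.inr h), c, hc.2, hcv⟩, hvS⟩⟩

theorem St.frg (h : St G W c S) (hne : E.Nonempty) (hE : E ⊆ W \ S)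
    (h2 : (Nb G E \ S).ncard ≤ 2) : Frg G W S E :=
  ⟨hne, hE, le_antisymm h2 (h.two E hne hE)⟩

/-- The intersection of two fragments is a fragment. -/
theorem St.frg_inter [Finite V] (h : St G W c S) (hE : Frg G W S E) (hF : Frg G W S F)
    (hne : (E ∩ F).Nonempty) : Frg G W S (E ∩ F) := by
  refine h.frg hne (fun x hx => hE.sub hx.1) ?_
  have h1 := nb_submod G S E F
  have h2 := h.two (E ∪ F) (hE.ne.mono subset_union_left) (union_subset hE.sub hF.sub)
  have h3 := hE.two
  have h4 := hF.two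
  omega

/-- A minimal fragment which meets a fragment lies in it. -/
theorem MFr.subset [Finite V] (hK : MFr G W S K) (h : St G W c S) (hE : Frg G W S E)
    (hne : (K ∩ E).Nonempty) : K ⊆ E := by
  have h1 := hK.min (K ∩ E) inter_subset_left (h.frg_inter hK.frg hE hne)
  exact inter_eq_left.1 h1

/-- Minimal fragments are disjoint. -/
theorem MFr.disj [Finite V] (hK : MFr G W S K) (hE : MFr G W S E) (h : St G W c S)
    (hne : K ≠ E) (hx : x ∈ K) : x ∉ E := by
  intro hxE
  have h1 := hK.subset h hE.frg ⟨x, hx, hxE⟩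
  exact hne (hE.min K h1 hK.frg)

/-- Minimal fragments are connected. -/
theorem MFr.con [Finite V] (hK : MFr G W S K) (h : St G W c S) : Con G K := by
  obtain ⟨x, hx⟩ := hK.frg.ne
  have h1 : cmp G K x = K := by
    refine hK.min _ cmp_subset (h.frg ⟨x, mem_cmp_self hx⟩ (cmp_subset.trans hK.frg.sub) ?_)
    rw [← hK.frg.two]
    refine ncard_le_ncard ?_
    rintro v ⟨hv, hvS⟩
    refine ⟨⟨notMem_of_mem_nb_cmp hv, ?_⟩, hvS⟩
    obtain ⟨-, a, ha, hav⟩ := hv
    exact ⟨a, cmp_subset ha, hav⟩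
  have h2 := con_cmp (G := G) hx
  rwa [h1] at h2

/-- Each fragment contains a minimal one. -/
theorem Frg.exists_min [Finite V] (hE : Frg G W S E) : ∃ K ⊆ E, MFr G W S K := by
  induction hn : E.ncard using Nat.strong_induction_on generalizing E with
  | _ n ih =>
    by_cases h : ∃ F ⊆ E, Frg G W S F ∧ F ≠ E
    · obtain ⟨F, hFE, hF, hne⟩ := h
      obtain ⟨K, hK, hK'⟩ := ih _ (by
        rw [← hn]
        exact ncard_lt_ncard (hFE.ssubset_of_ne hne)) hF rfl
      exact ⟨K, hK.trans hFE, hK'⟩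
    · push Not at h
      exact ⟨E, Subset.rfl, hE, h⟩

/-- A subset of `W` with at most three neighbours outside of `S` is adjacent to `S`. -/
theorem Web.exists_adj [Finite V] (h : Web G W t) (hne : E.Nonempty) (hE : E ⊆ W)
    (h3 : (Nb G E \ S).ncard ≤ 3) : ∃ y ∈ S, ∃ x ∈ E, G.Adj x y := by
  by_contra hcon
  push Not at hcon
  have h1 := h.four E hne hE
  have h2 : Nb G E ⊆ Nb G E \ S := by
    rintro v ⟨hv, x, hx, hxv⟩
    exact ⟨⟨hv, x, hx, hxv⟩, fun hvS => hcon v hvS x hx hxv⟩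
  have := ncard_le_ncard h2
  omega

theorem Frg.exists_nb [Finite V] (hE : Frg G W S E) (h : Web G W t) :
    ∃ z ∈ E, z ∈ Nb G S := by
  obtain ⟨y, hy, x, hx, hxy⟩ := h.exists_adj (S := S) hE.ne (fun z hz => (hE.sub hz).1)
    (by have := hE.two; omega)
  exact ⟨x, hx, (hE.sub hx).2, y, hy, hxy.symm⟩

/-- Neighbours outside of `insert z S`. -/
theorem ncard_nb_insert [Finite V] (z : V) :
    (Nb G E \ S).ncard ≤ (Nb G E \ insert z S).ncard + 1 := by
  have h1 : Nb G E \ S ⊆ insert z (Nb G E \ insert z S) := by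
    rintro v ⟨hv, hvS⟩
    by_cases hvz : v = z
    · exact Or.inl hvz
    · exact Or.inr ⟨hv, fun e => e.elim hvz hvS⟩
  have h2 := ncard_le_ncard h1
  have h3 := ncard_insert_le z (Nb G E \ insert z S)
  omega

theorem sdiff_insert_subset : W \ insert z S ⊆ W \ S := fun _ hx => ⟨hx.1, fun h => hx.2 (Or.inr h)⟩

/-- Minimal fragments of `S'` not adjacent to the new vertices are minimal fragments of `S`. -/
theorem MFr.old [Finite V] {S' : Set V} (hE : MFr G W S' E) (hSS : S ⊆ S')
    (h' : St G W c S') (hN : ∀ x ∈ S', x ∉ S → x ∉ Nb G E) : MFr G W S E := by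
  have h1 : Nb G E \ S = Nb G E \ S' := by
    ext v
    constructor
    · rintro ⟨hv, hvS⟩
      exact ⟨hv, fun e => hN v e hvS hv⟩
    · rintro ⟨hv, hvS⟩
      exact ⟨hv, fun e => hvS (hSS e)⟩
  refine ⟨⟨hE.frg.ne, fun x hx => ⟨(hE.frg.sub hx).1, fun e => (hE.frg.sub hx).2 (hSS e)⟩, ?_⟩,
    ?_⟩
  · rw [h1]
    exact hE.frg.two
  · intro F hFE hF
    refine hE.min F hFE (h'.frg hF.ne (hFE.trans hE.frg.sub) ?_)
    rw [← hF.two]
    exact ncard_le_ncard fun v hv => ⟨hv.1, fun e => hv.2 (hSS e)⟩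

/-- Without fragments each vertex can be swallowed. -/
theorem St.ins_of_no_frg [Finite V] (h : St G W c S) (hno : ∀ E, ¬ Frg G W S E) (hz : z ∈ W)
    (hzS : z ∈ Nb G S) : St G W c (insert z S) := by
  refine ⟨Or.inr h.mem, ?_, h.con.nb_ins hzS, ?_⟩
  · rintro x (rfl | hx)
    · exact Or.inl hz
    · exact h.sub x hx
  · intro E hne hE
    have hE' : E ⊆ W \ S := hE.trans sdiff_insert_subset
    have h1 := h.two E hne hE'
    have h2 : (Nb G E \ S).ncard ≠ 2 := fun e => hno E ⟨hne, hE', e⟩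
    have h3 := ncard_nb_insert (G := G) (E := E) (S := S) z
    omega

/-- Each vertex of a minimal fragment with at least two vertices can be swallowed. -/
theorem St.ins_of_mfr [Finite V] (h : St G W c S) (hK : MFr G W S K) (h2 : 2 ≤ K.ncard)
    (hz : z ∈ K) (hzS : z ∈ Nb G S) : St G W c (insert z S) := by
  refine ⟨Or.inr h.mem, ?_, h.con.nb_ins hzS, ?_⟩
  · rintro x (rfl | hx)
    · exact Or.inl (hK.frg.sub hz).1
    · exact h.sub x hx
  · intro E hne hE
    by_contra hcon
    push Not at hcon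
    have hE' : E ⊆ W \ S := hE.trans sdiff_insert_subset
    have hzE : z ∉ E := fun e => (hE e).2 (Or.inl rfl)
    have h3 := ncard_nb_insert (G := G) (E := E) (S := S) z
    have hEf : Frg G W S E := h.frg hne hE' (by omega)
    have hKE : K ∩ E = ∅ := by
      by_contra e
      exact hzE (hK.subset h hEf (nonempty_iff_ne_empty.2 e) hz)
    have hdis : ∀ x ∈ K, x ∉ E := fun x hx hx' => by
      have : x ∈ K ∩ E := ⟨hx, hx'⟩
      rw [hKE] at this
      exact this
    -- `z` is a neighbour of `E`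
    have hzN : z ∈ Nb G E := by
      by_contra e
      have h4 : Nb G E \ S ⊆ Nb G E \ insert z S := by
        rintro v ⟨hv, hvS⟩
        refine ⟨hv, fun e' => ?_⟩
        rcases e' with rfl | e'
        · exact e hv
        · exact hvS e'
      have h5 := ncard_le_ncard h4
      have := hEf.two
      omega
    obtain ⟨-, p, hp, hpz⟩ := id hzN
    have hpK : p ∈ Nb G K := ⟨fun e => hdis p e hp, z, hz, hpz.symm⟩
    have hpS : p ∉ S := (hE' hp).2
    have hzS' : z ∉ S := hzS.1
    -- the union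
    have h6 := h.two (E ∪ K) (hne.mono subset_union_left) (union_subset hE' hK.frg.sub)
    have h7 : Nb G (E ∪ K) \ S ⊆ ((Nb G E \ S) \ K) ∪ ((Nb G K \ S) \ {p}) := by
      rintro v ⟨⟨hv, a, ha, hav⟩, hvS⟩
      rcases ha with ha | ha
      · exact Or.inl ⟨⟨⟨fun e => hv (Or.inl e), a, ha, hav⟩, hvS⟩, fun e => hv (Or.inr e)⟩
      · exact Or.inr ⟨⟨⟨fun e => hv (Or.inr e), a, ha, hav⟩, hvS⟩,
          fun e => hv (Or.inl ((mem_singleton_iff.1 e) ▸ hp))⟩
    have h8 := (ncard_le_ncard h7).trans (ncard_union_le _ _)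
    have h9 : ((Nb G K \ S) \ {p}).ncard + 1 = (Nb G K \ S).ncard :=
      ncard_sdiff_singleton_add_one ⟨hpK, hpS⟩
    have h10 := hK.frg.two
    have h11 := hEf.two
    -- `z` is the only neighbour of `E` in `K`
    have h12 : ∀ v ∈ K, v ∈ Nb G E → v = z := by
      intro v hv hvN
      by_contra hvz
      have h13 : (Nb G E \ S) \ K ⊆ (Nb G E \ S) \ {v, z} := by
        rintro w ⟨hw, hwK⟩
        refine ⟨hw, fun e => hwK ?_⟩
        rcases e with rfl | e
        · exact hv
        · rw [mem_singleton_iff] at e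
          exact e ▸ hz
      have h14 := ncard_le_ncard h13
      have h15 : ((Nb G E \ S) \ {v, z}).ncard + ({v, z} : Set V).ncard = (Nb G E \ S).ncard := by
        refine ncard_sdiff_add_ncard_of_subset ?_
        rintro w (rfl | e)
        · exact ⟨hvN, (hK.frg.sub hv).2⟩
        · rw [mem_singleton_iff] at e
          exact e ▸ ⟨hzN, hzS'⟩
      rw [ncard_pair hvz] at h15
      omega
    -- a smaller fragment
    have hne' : (K \ {z}).Nonempty := by
      by_contra e
      rw [not_nonempty_iff_eq_empty] at e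
      have h16 : K.ncard ≤ 1 := by
        have : K ⊆ {z} := sdiff_eq_empty.1 e
        have := ncard_le_ncard this
        rwa [ncard_singleton] at this
      omega
    have h17 : Nb G (K \ {z}) \ S ⊆ insert z ((Nb G K \ S) \ {p}) := by
      rintro v ⟨⟨hv, a, ha, hav⟩, hvS⟩
      by_cases hvz : v = z
      · exact Or.inl hvz
      right
      have hvK : v ∉ K := fun e => hv ⟨e, hvz⟩
      refine ⟨⟨⟨hvK, a, ha.1, hav⟩, hvS⟩, fun e => ?_⟩
      rw [mem_singleton_iff] at e
      subst e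
      exact ha.2 (h12 a ha.1 ⟨hdis a ha.1, v, hp, hav.symm⟩)
    have h18 := (ncard_le_ncard h17).trans (ncard_insert_le _ _)
    have h19 := hK.min (K \ {z}) sdiff_subset (h.frg hne' (sdiff_subset.trans hK.frg.sub)
      (by omega))
    rw [← h19] at hz
    exact hz.2 rfl

end Pool.Agent.Lib.MP_d9512b_co.Wb
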