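import Pool.Agent.Lib.MP_d9512b_co.CC.Defs

set_option autoImplicit false

/-!
Fragments of states: submodularity, minimal fragments.
-/

namespace Pool.Agent.Lib.MP_d9512b_co

open Set

variable {V : Type*} {G : SimpleGraph V} {W S E F K L X : Set V} {c x y z v : V}

theorem nb_union_diff : Nb G (E ∪ F) \ S ⊆ ((Nb G E \ S) \ F) ∪ ((Nb G F \ S) \ E) := by
  rintro x ⟨⟨h1, e, he, hx⟩, h2⟩
  rcases he with he | he
  · exact Or.inl ⟨⟨⟨fun h => h1 (Or.inl h), e, he, hx⟩, h2⟩, fun h => h1 (Or.inr h)⟩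
  · exact Or.inr ⟨⟨⟨fun h => h1 (Or.inr h), e, he, hx⟩, h2⟩, fun h => h1 (Or.inl h)⟩

theorem nb_inter_diff : Nb G (E ∩ F) \ S ⊆ (Nb G E \ S) ∪ (Nb G F \ S) := by
  rintro x ⟨⟨h1, e, he, hx⟩, h2⟩
  by_cases h3 : x ∈ E
  · exact Or.inr ⟨⟨fun h => h1 ⟨h3, h⟩, e, he.2, hx⟩, h2⟩
  · exact Or.inl ⟨⟨h3, e, he.1, hx⟩, h2⟩

/-- Submodularity of the number of neighbours. -/
theorem nb_submod [Finite V] (S E F : Set V) :
    (Nb G (E ∩ F) \ S).ncard + (Nb G (E ∪ F) \ S).ncard ≤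
      (Nb G E \ S).ncard + (Nb G F \ S).ncard := by
  have h1 := ncard_union_add_ncard_inter (Nb G (E ∩ F) \ S) (Nb G (E ∪ F) \ S)
    (toFinite _) (toFinite _)
  have h2 := ncard_union_add_ncard_inter (Nb G E \ S) (Nb G F \ S) (toFinite _) (toFinite _)
  have h3 : (Nb G (E ∩ F) \ S) ∪ (Nb G (E ∪ F) \ S) ⊆ (Nb G E \ S) ∪ (Nb G F \ S) := by
    refine union_subset nb_inter_diff (nb_union_diff.trans ?_)
    exact union_subset_union sdiff_subset sdiff_subset
  have h4 : (Nb G (E ∩ F) \ S) ∩ (Nb G (E ∪ F) \ S) ⊆ (Nb G E \ S) ∩ (Nb G F \ S) := by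
    rintro x ⟨⟨⟨-, e, he, hx⟩, h⟩, ⟨h1, -⟩, -⟩
    exact ⟨⟨⟨fun h => h1 (Or.inl h), e, he.1, hx⟩, h⟩,
      ⟨⟨fun h => h1 (Or.inr h), e, he.2, hx⟩, h⟩⟩
  have h5 := ncard_le_ncard h3 (toFinite _)
  have h6 := ncard_le_ncard h4 (toFinite _)
  omega

theorem Frag.inter [Finite V] (hS : St G W c S) (hE : Frag G W S E) (hF : Frag G W S F)
    (h : (E ∩ F).Nonempty) : Frag G W S (E ∩ F) := by
  refine ⟨inter_subset_left.trans hE.1, h, ?_⟩
  have h1 := nb_submod (G := G) S E F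
  have h2 := hS.two (E ∪ F) (union_subset hE.1 hF.1) (hE.2.1.inl)
  have h3 := hE.2.2
  have h4 := hF.2.2
  omega

/-- Each fragment contains a minimal fragment. -/
theorem Frag.exists_mfrag [Finite V] (hE : Frag G W S E) : ∃ F ⊆ E, MFrag G W S F := by
  induction hn : E.ncard using Nat.strong_induction_on generalizing E with
  | _ m ih =>
  by_cases h : ∀ E' ⊆ E, Frag G W S E' → E' = E
  · exact ⟨E, Subset.rfl, hE, h⟩
  · push Not at h
    obtain ⟨E', h1, h2, h3⟩ := h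
    have h4 : E'.ncard < E.ncard := ncard_lt_ncard (h1.ssubset_of_ne h3) (toFinite _)
    obtain ⟨F, hF, hF'⟩ := ih E'.ncard (hn ▸ h4) h2 rfl
    exact ⟨F, hF.trans h1, hF'⟩

theorem MFrag.disj [Finite V] (hS : St G W c S) (hE : MFrag G W S E) (hF : MFrag G W S F)
    (hne : E ≠ F) : Disjoint E F := by
  rw [disjoint_iff_inter_eq_empty, ← not_nonempty_iff_eq_empty]
  intro h
  have h1 := Frag.inter hS hE.1 hF.1 h
  exact hne ((hE.2 _ inter_subset_left h1).symm.trans (hF.2 _ inter_subset_right h1))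

/-- A minimal fragment meets no other fragment properly. -/
theorem MFrag.subset_of_meet [Finite V] (hS : St G W c S) (hK : MFrag G W S K)
    (hE : Frag G W S E) (h : (K ∩ E).Nonempty) : K ⊆ E := by
  have h1 := hK.2 _ inter_subset_left (Frag.inter hS hK.1 hE h)
  rw [← h1]
  exact inter_subset_right

/-- The number of minimal fragments. -/
noncomputable def Nf (G : SimpleGraph V) (W S : Set V) : ℕ := {E | MFrag G W S E}.ncard

/-- Minimal fragments of a larger state which are not adjacent to the new vertices. -/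
theorem MFrag.of_union [Finite V] (hF : MFrag G W (S ∪ L) F) (h : ∀ v ∈ L, v ∉ Nb G F) :
    MFrag G W S F := by
  have h1 : Nb G F \ (S ∪ L) = Nb G F \ S := by
    ext x
    constructor
    · rintro ⟨h1, h2⟩
      exact ⟨h1, fun h => h2 (Or.inl h)⟩
    · rintro ⟨h1, h2⟩
      exact ⟨h1, fun h3 => h3.elim h2 fun h4 => h x h4 h1⟩
  refine ⟨⟨hF.1.1.trans (sdiff_subset_sdiff_right subset_union_left), hF.1.2.1, ?_⟩, ?_⟩
  · rw [← h1]
    exact hF.1.2.2
  · intro E' hE' hf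
    refine hF.2 E' hE' ⟨hE'.trans hF.1.1, hf.2.1, ?_⟩
    exact (ncard_le_ncard (sdiff_subset_sdiff_right subset_union_left) (toFinite _)).trans hf.2.2

/-- At most two minimal fragments meet a set with two elements. -/
theorem ncard_mfrag_meet [Finite V] (hS : St G W c S) (hX : X.ncard ≤ 2) :
    {F | MFrag G W S F ∧ (F ∩ X).Nonempty}.ncard ≤ 2 := by
  have : Nonempty V := ⟨c⟩
  refine le_trans ?_ hX
  have h1 : ∀ F ∈ {F | MFrag G W S F ∧ (F ∩ X).Nonempty}, ∃ x, x ∈ F ∩ X := fun F hF => hF.2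
  choose! f hf using h1
  refine ncard_le_ncard_of_injOn f (fun F hF => (hf F hF).2) ?_ (toFinite _)
  intro F hF F' hF' he
  by_contra hne
  have h2 := disjoint_left.1 (MFrag.disj hS hF.1 hF'.1 hne) (hf F hF).1
  rw [he] at h2
  exact h2 (hf F' hF').1

/-- A state is enlarged by an adjacent connected set. -/
theorem St.union (hS : St G W c S) (hL : Con G L) (hLW : L ⊆ W) (hx : x ∈ S) (hy : y ∈ L)
    (hxy : G.Adj x y) (h2 : ∀ E ⊆ W \ (S ∪ L), E.Nonempty → 2 ≤ (Nb G E \ (S ∪ L)).ncard) :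
    St G W c (S ∪ L) :=
  ⟨Or.inl hS.mem, union_subset hS.sub (hLW.trans (subset_insert _ _)),
    hS.con.union_adj hL hx hy hxy, h2⟩

/-- The vertices of a minimal fragment with at least two vertices can be removed. -/
theorem MFrag.two_insert [Finite V] (hS : St G W c S) (hK : MFrag G W S K) (h2 : 2 ≤ K.ncard)
    (hz : z ∈ K) : ∀ E ⊆ W \ (S ∪ {z}), E.Nonempty → 2 ≤ (Nb G E \ (S ∪ {z})).ncard := by
  intro E hE hne
  by_contra hcon
  push Not at hcon
  have hE' : E ⊆ W \ S := hE.trans (sdiff_subset_sdiff_right subset_union_left)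
  have hzE : z ∉ E := fun h => (hE h).2 (Or.inr rfl)
  have hzS : z ∉ S := (hK.1.1 hz).2
  have h3 := hS.two E hE' hne
  have h4 : (Nb G E \ S) ⊆ insert z (Nb G E \ (S ∪ {z})) := by
    rintro x ⟨hx, hxS⟩
    by_cases hxz : x = z
    · exact Or.inl hxz
    · exact Or.inr ⟨hx, fun h => h.elim hxS hxz⟩
  have h5 := ncard_le_ncard h4 (toFinite _)
  have h6 := ncard_insert_le z (Nb G E \ (S ∪ {z}))
  have hfr : Frag G W S E := ⟨hE', hne, by omega⟩
  have hzN : z ∈ Nb G E := by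
    by_contra hzN
    have h7 : Nb G E \ S ⊆ Nb G E \ (S ∪ {z}) := by
      rintro x ⟨hx, hxS⟩
      exact ⟨hx, fun h => h.elim hxS fun e => hzN (e ▸ hx)⟩
    have := ncard_le_ncard h7 (toFinite _)
    omega
  have hdis : ∀ k ∈ K, k ∉ E := by
    intro k hk hkE
    exact hzE (hK.subset_of_meet hS hfr ⟨k, hk, hkE⟩ hz)
  obtain ⟨-, e, heE, hez⟩ := hzN
  have heS : e ∉ S := (hE' heE).2
  have heK : e ∈ Nb G K \ S := ⟨⟨fun h => hdis e h heE, z, hz, hez.symm⟩, heS⟩
  -- the second neighbour of `e` in `K`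
  obtain ⟨x, hxK, hxz, hex⟩ : ∃ x ∈ K, x ≠ z ∧ G.Adj e x := by
    by_contra hno
    push Not at hno
    have h8 : Nb G (K \ {z}) \ S ⊆ insert z ((Nb G K \ S) \ {e}) := by
      rintro y ⟨⟨hy, k, hk, hky⟩, hyS⟩
      by_cases hyz : y = z
      · exact Or.inl hyz
      · refine Or.inr ⟨⟨⟨fun h => hy ⟨h, hyz⟩, k, hk.1, hky⟩, hyS⟩, ?_⟩
        rintro rfl
        exact hno k hk.1 hk.2 hky.symm
    have h9 := ncard_le_ncard h8 (toFinite _)
    have h10 := ncard_insert_le z ((Nb G K \ S) \ {e})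
    have h11 := ncard_sdiff_singleton_of_mem heK
    have h12 := hK.1.2.2
    have h13 : (Nb G K \ S).ncard ≠ 0 := by
      rw [Ne, ncard_eq_zero (toFinite _)]
      rintro h
      rw [h] at heK
      exact heK
    have h14 : (K \ {z}).Nonempty := by
      rw [← ncard_pos (toFinite _), ncard_sdiff_singleton_of_mem hz]
      omega
    have h15 := hK.2 (K \ {z}) sdiff_subset ⟨sdiff_subset.trans hK.1.1, h14, by omega⟩
    rw [← h15] at hz
    exact hz.2 rfl
  have hNE : Nb G E \ S ⊆ K := by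
    intro y hy
    by_contra hyK
    have hx' : x ∈ Nb G E \ S := ⟨⟨hdis x hxK, e, heE, hex⟩, (hK.1.1 hxK).2⟩
    have hz' : z ∈ Nb G E \ S := ⟨⟨hzE, e, heE, hez⟩, hzS⟩
    have : 2 < (Nb G E \ S).ncard := (two_lt_ncard_iff (toFinite _)).2
      ⟨y, x, z, hy, hx', hz', fun h => hyK (h ▸ hxK), fun h => hyK (h ▸ hz), hxz⟩
    omega
  have h16 := hS.two (E ∪ K) (union_subset hE' hK.1.1) hne.inl
  have h17 : Nb G (E ∪ K) \ S ⊆ (Nb G K \ S) \ {e} := by
    intro y hy
    rcases nb_union_diff hy with h | h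
    · exact absurd (hNE h.1) h.2
    · exact ⟨h.1, fun h' => h.2 (by
        rw [mem_singleton_iff] at h'
        exact h' ▸ heE)⟩
  have h18 := ncard_le_ncard h17 (toFinite _)
  rw [ncard_sdiff_singleton_of_mem heK] at h18
  have := hK.1.2.2
  omega

end Pool.Agent.Lib.MP_d9512b_co
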