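import Pool.Agent.Lib.MP_d9512b_co.CC.PLS

set_option autoImplicit false

/-!
States all of whose minimal fragments are single vertices: some thread can be swallowed.
-/

namespace Pool.Agent.Lib.MP_d9512b_co.Wb

open Set

variable {V : Type*} {G : SimpleGraph V} {W S D A E F K L : Set V} {t : Fin 4 → V}
  {c x y z v p : V}

/-- The vertices with exactly two neighbours outside of `S`. -/
def D2 (G : SimpleGraph V) (W S : Set V) : Set V := {v | v ∈ W \ S ∧ (Nb G {v} \ S).ncard = 2}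

/-- Connected sets of such vertices have at most two neighbours outside of `S`. -/
theorem D2.ncard_le [Finite V] (hL : Con G L) (hLD : L ⊆ D2 G W S) :
    (Nb G L \ S).ncard ≤ 2 := by
  induction hn : L.ncard using Nat.strong_induction_on generalizing L with
  | _ n ih =>
    obtain ⟨y, hy⟩ := hL.1
    by_cases h2 : 2 ≤ L.ncard
    · obtain ⟨z, hz, hc⟩ := hL.exists_noncut h2
      have h1 := ih _ (by
        have := ncard_sdiff_singleton_add_one hz
        omega) hc (sdiff_subset.trans hLD) rfl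
      have hzS : z ∉ S := (hLD hz).1.2
      -- `z` is adjacent to the rest
      obtain ⟨w, hw⟩ := hc.1
      obtain ⟨a, ha, b, hb, -, hbL, hab⟩ := hL.exists_edge (X := {z}) (x := z) rfl hz (y := w)
        hw.2 hw.1
      rw [mem_singleton_iff] at ha
      subst ha
      have h3 : a ∈ Nb G (L \ {a}) \ S := ⟨⟨fun e => e.2 rfl, b, ⟨hbL, hb⟩, hab.symm⟩, hzS⟩
      have h4 : b ∈ Nb G {a} \ S := ⟨⟨hb, a, rfl, hab⟩, (hLD hbL).1.2⟩
      have h5 : Nb G L \ S ⊆ ((Nb G (L \ {a}) \ S) \ {a}) ∪ ((Nb G {a} \ S) \ {b}) := by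
        rintro u ⟨⟨hu, d, hd, hdu⟩, huS⟩
        have hua : u ≠ a := fun e => hu (e ▸ hz)
        by_cases hda : d = a
        · subst hda
          exact Or.inr ⟨⟨⟨hua, d, rfl, hdu⟩, huS⟩, fun e => hu ((mem_singleton_iff.1 e) ▸ hbL)⟩
        · exact Or.inl ⟨⟨⟨fun e => hu e.1, d, ⟨hd, hda⟩, hdu⟩, huS⟩, hua⟩
      have h6 := (ncard_le_ncard h5).trans (ncard_union_le _ _)
      have h7 : ((Nb G (L \ {a}) \ S) \ {a}).ncard + 1 = (Nb G (L \ {a}) \ S).ncard :=
        ncard_sdiff_singleton_add_one h3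
      have h8 : ((Nb G {a} \ S) \ {b}).ncard + 1 = (Nb G {a} \ S).ncard :=
        ncard_sdiff_singleton_add_one h4
      have h9 := (hLD hz).2
      omega
    · have h1 : L = {y} := by
        refine subset_antisymm ?_ (singleton_subset_iff.2 hy)
        intro u hu
        by_contra huy
        have h3 : ({u, y} : Set V) ⊆ L := by
          rintro w (rfl | hw)
          · exact hu
          · exact (mem_singleton_iff.1 hw) ▸ hy
        have h4 := ncard_le_ncard h3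
        rw [ncard_pair huy] at h4
        exact h2 h4
      rw [h1]
      rw [h1] at hLD
      exact (hLD rfl).2.le

/-- Removing a leaf. -/
theorem con_sdiff_leaf {v a : V} (hL : Con G L) (hv : v ∈ L) (ha : a ∈ L) (hav : a ≠ v)
    (hN : ∀ u ∈ L, G.Adj v u → u = a) : Con G (L \ {v}) := by
  have haL : a ∈ L \ {v} := ⟨ha, hav⟩
  have key : ∀ x ∈ L \ {v}, Rc G (L \ {v}) x a := by
    intro x hx
    by_contra hcon
    obtain ⟨d, hd, w, hw, -, hwL, hdw⟩ := hL.exists_edge (X := cmp G (L \ {v}) x)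
      (mem_cmp_self hx) hx.1 (y := v) (fun e => (cmp_subset e).2 rfl) hv
    have hwv : w = v := by
      by_contra e
      exact hw (cmp_closed hd ⟨hwL, e⟩ hdw)
    subst hwv
    have := hN d (cmp_subset hd).1 hdw.symm
    subst this
    exact hcon hd
  exact ⟨⟨a, haL⟩, fun x hx y hy => (key x hx).trans (key y hy).symm⟩

/-- Each of the two neighbours of a thread has exactly one neighbour in it. -/
theorem D2.unique [Finite V] (hL : Con G L) (hLD : L ⊆ D2 G W S)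
    (h2 : (Nb G L \ S).ncard = 2) (hp : p ∈ Nb G L \ S) {v v' : V} (hv : v ∈ L) (hv' : v' ∈ L)
    (h1 : G.Adj v p) (h1' : G.Adj v' p) : v = v' := by
  by_contra hne
  obtain ⟨a, ha, b, hb, -, hbL, hab⟩ := hL.exists_edge (X := {v'}) (x := v') rfl hv' (y := v)
    (fun e => hne (mem_singleton_iff.1 e)) hv
  rw [mem_singleton_iff] at ha
  subst ha
  have hpL : p ∉ L := hp.1.1
  have hbp : b ≠ p := fun e => hpL (e ▸ hbL)
  have hbS : b ∉ S := (hLD hbL).1.2
  have h3 : Nb G {a} \ S = {p, b} := by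
    symm
    refine eq_of_subset_of_ncard_le ?_ ?_ (toFinite _)
    · rintro u (rfl | hu)
      · exact ⟨⟨fun e => hpL ((mem_singleton_iff.1 e) ▸ hv'), a, rfl, h1'⟩, hp.2⟩
      · rw [mem_singleton_iff] at hu
        subst hu
        exact ⟨⟨hb, a, rfl, hab⟩, hbS⟩
    · rw [(hLD hv').2, ncard_pair hbp.symm]
  have h4 : Con G (L \ {a}) := by
    refine con_sdiff_leaf hL hv' hbL (fun e => hb (mem_singleton_iff.2 e)) ?_
    intro u hu hau
    have h5 : u ∈ Nb G {a} \ S := ⟨⟨fun e => by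
      rw [mem_singleton_iff] at e
      subst e
      exact hau.ne rfl, a, rfl, hau⟩, (hLD hu).1.2⟩
    rw [h3] at h5
    rcases h5 with rfl | h5
    · exact absurd hu hpL
    · exact h5
  have h5 := D2.ncard_le h4 (sdiff_subset.trans hLD)
  obtain ⟨q, hq, hqp⟩ : ∃ q ∈ Nb G L \ S, q ≠ p := by
    by_contra hcon
    push Not at hcon
    have : Nb G L \ S ⊆ {p} := hcon
    have := ncard_le_ncard this
    rw [ncard_singleton] at this
    omega
  obtain ⟨⟨hqL, w, hw, hwq⟩, hqS⟩ := hq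
  have hwa : w ≠ a := by
    rintro rfl
    have h6 : q ∈ Nb G {w} \ S := ⟨⟨fun e => hqL ((mem_singleton_iff.1 e) ▸ hw), w, rfl, hwq⟩,
      hqS⟩
    rw [h3] at h6
    rcases h6 with h6 | h6
    · exact hqp h6
    · exact hqL ((mem_singleton_iff.1 h6) ▸ hbL)
  have h7 := (two_lt_ncard_iff (toFinite (Nb G (L \ {a}) \ S))).2
    ⟨a, p, q, ⟨⟨fun e => e.2 rfl, b, ⟨hbL, hb⟩, hab.symm⟩, (hLD hv').1.2⟩,
      ⟨⟨fun e => hpL e.1, v, ⟨hv, hne⟩, h1⟩, hp.2⟩,
      ⟨⟨fun e => hqL e.1, w, ⟨hw, hwa⟩, hwq⟩, hqS⟩, fun e => hpL (e ▸ hv'),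
      fun e => hqL (e ▸ hv'), hqp.symm⟩
  omega

/-- A set which shows that the thread `L` can not be swallowed. -/
structure Wt (G : SimpleGraph V) (W S L E : Set V) : Prop where
  ne : E.Nonempty
  sub : E ⊆ W \ S
  dis : ∀ x ∈ E, x ∉ L
  one : (Nb G E \ (S ∪ L)).ncard ≤ 1

/-- The shape of a witness. -/
structure Wd (G : SimpleGraph V) (S L E : Set V) (p q v x : V) : Prop where
  pE : p ∈ E
  qE : q ∉ E
  pS : p ∉ S
  hpL : p ∈ Nb G L
  nL : ∀ u ∈ Nb G L \ S, u = p ∨ u = q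
  vL : v ∈ L
  vp : G.Adj v p
  xL : x ∉ L
  xN : x ∈ Nb G E
  xS : x ∉ S
  nE : ∀ u ∈ Nb G E \ S, u = v ∨ u = x

theorem Wt.data [Finite V] (h : St G W c S) (hL : Con G L) (hLD : L ⊆ D2 G W S)
    (hE : Wt G W S L E) : Frg G W S E ∧ ∃ p q v x, Wd G S L E p q v x := by
  have hLW : L ⊆ W \ S := fun x hx => (hLD hx).1
  have h2 : (Nb G L \ S).ncard = 2 := le_antisymm (D2.ncard_le hL hLD) (h.two L hL.1 hLW)
  have h3 := h.two E hE.ne hE.sub
  obtain ⟨v, hv, hvL⟩ : ∃ v ∈ Nb G E \ S, v ∈ L := by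
    by_contra hcon
    push Not at hcon
    have h4 : Nb G E \ S ⊆ Nb G E \ (S ∪ L) := by
      rintro u ⟨hu, huS⟩
      exact ⟨hu, fun e => e.elim huS (hcon u ⟨hu, huS⟩)⟩
    have := ncard_le_ncard h4
    have := hE.one
    omega
  obtain ⟨⟨hvE, p, hp, hpv⟩, hvS⟩ := hv
  have hpN : p ∈ Nb G L \ S := ⟨⟨hE.dis p hp, v, hvL, hpv.symm⟩, (hE.sub hp).2⟩
  obtain ⟨q, hq, hqp⟩ : ∃ q ∈ Nb G L \ S, q ≠ p := by
    by_contra hcon
    push Not at hcon
    have : Nb G L \ S ⊆ {p} := hcon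
    have := ncard_le_ncard this
    rw [ncard_singleton] at this
    omega
  have hNL : ∀ u ∈ Nb G L \ S, u = p ∨ u = q := by
    intro u hu
    by_contra hcon
    push Not at hcon
    have := (two_lt_ncard_iff (toFinite (Nb G L \ S))).2
      ⟨u, p, q, hu, hpN, hq, hcon.1, hcon.2, hqp.symm⟩
    omega
  have hqE : q ∉ E := by
    intro hqE
    have h4 := h.two (E ∪ L) (hE.ne.mono subset_union_left) (union_subset hE.sub hLW)
    have h5 : Nb G (E ∪ L) \ S ⊆ Nb G E \ (S ∪ L) := by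
      rintro u ⟨⟨hu, a, ha, hau⟩, huS⟩
      have huE : u ∉ E := fun e => hu (Or.inl e)
      have huL : u ∉ L := fun e => hu (Or.inr e)
      rcases ha with ha | ha
      · exact ⟨⟨huE, a, ha, hau⟩, fun e => e.elim huS huL⟩
      · rcases hNL u ⟨⟨huL, a, ha, hau⟩, huS⟩ with rfl | rfl
        · exact absurd hp huE
        · exact absurd hqE huE
    have := ncard_le_ncard h5
    have := hE.one
    omega
  have hvu : ∀ u ∈ Nb G E, u ∈ L → u = v := by
    rintro u ⟨hu, a, ha, hau⟩ huL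
    have h4 : a = p := by
      rcases hNL a ⟨⟨hE.dis a ha, u, huL, hau.symm⟩, (hE.sub ha).2⟩ with h5 | h5
      · exact h5
      · exact absurd (h5 ▸ ha) hqE
    subst h4
    exact D2.unique hL hLD h2 hpN huL hvL hau.symm hpv.symm
  obtain ⟨x, hx, hxv⟩ : ∃ x ∈ Nb G E \ S, x ≠ v := by
    by_contra hcon
    push Not at hcon
    have : Nb G E \ S ⊆ {v} := hcon
    have := ncard_le_ncard this
    rw [ncard_singleton] at this
    omega
  have hxL : x ∉ L := fun e => hxv (hvu x hx.1 e)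
  have hNE : ∀ u ∈ Nb G E \ S, u = v ∨ u = x := by
    intro u hu
    by_cases huL : u ∈ L
    · exact Or.inl (hvu u hu.1 huL)
    right
    by_contra hux
    have h4 : ({u, x} : Set V) ⊆ Nb G E \ (S ∪ L) := by
      rintro w (rfl | hw)
      · exact ⟨hu.1, fun e => e.elim hu.2 huL⟩
      · rw [mem_singleton_iff] at hw
        subst hw
        exact ⟨hx.1, fun e => e.elim hx.2 hxL⟩
    have h5 := ncard_le_ncard h4
    rw [ncard_pair hux] at h5
    have := hE.one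
    omega
  refine ⟨⟨hE.ne, hE.sub, le_antisymm ?_ h3⟩, p, q, v, x, hp, hqE, hpN.2, hpN.1, hNL, hvL,
    hpv.symm, hxL, hx.1, hx.2, hNE⟩
  have h6 : Nb G E \ S ⊆ {v, x} := hNE
  have h7 := ncard_le_ncard h6
  rwa [ncard_pair hxv.symm] at h7

theorem mfr_singleton [Finite V] (hv : v ∈ D2 G W S) : MFr G W S {v} := by
  refine ⟨⟨⟨v, rfl⟩, singleton_subset_iff.2 hv.1, hv.2⟩, ?_⟩
  intro F hF hF'
  obtain ⟨u, hu⟩ := hF'.ne
  refine subset_antisymm hF ?_
  rintro w hw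
  rw [mem_singleton_iff] at hw
  subst hw
  have := hF hu
  rw [mem_singleton_iff] at this
  exact this ▸ hu

/-- Some thread has no witness. -/
theorem exists_thread [Finite V] (h : St G W c S)
    (hall : ∀ K, MFr G W S K → K.ncard ≤ 1) (hne : (D2 G W S).Nonempty) :
    ∃ v ∈ D2 G W S, ∀ E, ¬ Wt G W S (cmp G (D2 G W S) v) E := by
  by_contra hcon
  push Not at hcon
  obtain ⟨v00, hv00⟩ := hne
  obtain ⟨E00, hE00⟩ := hcon v00 hv00
  obtain ⟨⟨v0, E⟩, ⟨hv0, hE⟩, hmin⟩ := Set.exists_min_image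
    {P : V × Set V | P.1 ∈ D2 G W S ∧ Wt G W S (cmp G (D2 G W S) P.1) P.2}
    (fun P => P.2.ncard) (toFinite _) ⟨(v00, E00), hv00, hE00⟩
  have hmin' : ∀ u ∈ D2 G W S, ∀ F, Wt G W S (cmp G (D2 G W S) u) F → E.ncard ≤ F.ncard :=
    fun u hu F hF => hmin (u, F) ⟨hu, hF⟩
  simp only at hv0 hE
  have hLD : cmp G (D2 G W S) v0 ⊆ D2 G W S := cmp_subset
  obtain ⟨hEf, p, q, v, x, hd⟩ := Wt.data h (con_cmp hv0) hLD hE
  have hpD : p ∉ D2 G W S := notMem_of_mem_nb_cmp hd.hpL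
  -- a vertex with two neighbours in `E`
  obtain ⟨K, hKE, hK⟩ := hEf.exists_min
  obtain ⟨v', hv'K⟩ := hK.frg.ne
  have hKv : K = {v'} := by
    refine subset_antisymm ?_ (singleton_subset_iff.2 hv'K)
    intro u hu
    by_contra huy
    have h3 : ({u, v'} : Set V) ⊆ K := by
      rintro w (rfl | hw)
      · exact hu
      · exact (mem_singleton_iff.1 hw) ▸ hv'K
    have h4 := ncard_le_ncard h3
    rw [ncard_pair huy] at h4
    have := hall K hK
    omega
  have hv'E : v' ∈ E := hKE hv'K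
  have hv'D : v' ∈ D2 G W S := ⟨hE.sub hv'E, by
    rw [← hKv]
    exact hK.frg.two⟩
  have hv'L' : v' ∈ cmp G (D2 G W S) v' := mem_cmp_self hv'D
  have hL'D : cmp G (D2 G W S) v' ⊆ D2 G W S := cmp_subset
  have hLL : ∀ u ∈ cmp G (D2 G W S) v0, u ∉ cmp G (D2 G W S) v' := by
    intro u hu hu'
    exact hE.dis v' hv'E (Rc.trans hu (Rc.symm hu'))
  have hvD : v ∈ D2 G W S := hLD hd.vL
  -- smaller witnesses
  have hsmall : ∀ {u : V} {F : Set V}, u ∈ D2 G W S → F ⊆ E → v' ∈ E → (∃ w ∈ E, w ∉ F) →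
      ¬ Wt G W S (cmp G (D2 G W S) u) F := by
    rintro u F hu hFE - ⟨w, hw, hwF⟩ hF
    have h1 := hmin' u hu F hF
    have h2 := ncard_lt_ncard (hFE.ssubset_of_ne fun e => hwF (e ▸ hw))
    omega
  -- the thread of `v'` lies in `E`
  have hL'E : cmp G (D2 G W S) v' ⊆ E := by
    intro u hu
    by_contra huE
    obtain ⟨a, ha, b, hb, haL, hbL, hab⟩ := (con_cmp hv'D).exists_edge (X := E) hv'E hv'L' huE hu
    have hbN : b ∈ Nb G E \ S := ⟨⟨hb, a, ha, hab⟩, (hL'D hbL).1.2⟩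
    have hbx : b = x := by
      rcases hd.nE b hbN with h1 | h1
      · exact absurd (h1 ▸ hbL) (hLL v hd.vL)
      · exact h1
    refine hsmall (F := E \ cmp G (D2 G W S) v') hv'D sdiff_subset hv'E
      ⟨v', hv'E, fun e => e.2 hv'L'⟩ ?_
    refine ⟨⟨p, hd.pE, fun e => hpD (hL'D e)⟩, sdiff_subset.trans hE.sub, fun w hw => hw.2, ?_⟩
    have h2 : Nb G (E \ cmp G (D2 G W S) v') \ (S ∪ cmp G (D2 G W S) v') ⊆ {v} := by
      rintro w ⟨⟨hw, d, hd', hdw⟩, hwS⟩
      have hwL : w ∉ cmp G (D2 G W S) v' := fun e => hwS (Or.inr e)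
      have hwE : w ∉ E := fun e => hw ⟨e, hwL⟩
      rcases hd.nE w ⟨⟨hwE, d, hd'.1, hdw⟩, fun e => hwS (Or.inl e)⟩ with h3 | h3
      · exact h3
      · exact absurd (h3 ▸ hbx ▸ hbL) hwL
    have h3 := ncard_le_ncard h2
    rwa [ncard_singleton] at h3
  obtain ⟨E2, hE2⟩ := hcon v' hv'D
  obtain ⟨hE2f, p', q', v'', x2, hd2⟩ := Wt.data h (con_cmp hv'D) hL'D hE2
  have hp'D : p' ∉ D2 G W S := notMem_of_mem_nb_cmp hd2.hpL
  have hv''E : v'' ∈ E := hL'E hd2.vL
  have hv''E2 : v'' ∉ E2 := fun e => hE2.dis v'' e hd2.vL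
  by_cases hp'E : p' ∈ E
  · -- case a
    have hf := h.frg_inter hEf hE2f ⟨p', hp'E, hd2.pE⟩
    refine hsmall (F := E ∩ E2) hv'D inter_subset_left hv'E ⟨v'', hv''E, fun e => hv''E2 e.2⟩
      ⟨hf.ne, hf.sub, fun w hw => hE2.dis w hw.2, ?_⟩
    have h1 : v'' ∈ Nb G (E ∩ E2) \ S := ⟨⟨fun e => hv''E2 e.2, p', ⟨hp'E, hd2.pE⟩,
      hd2.vp.symm⟩, (hE.sub hv''E).2⟩
    have h2 : Nb G (E ∩ E2) \ (S ∪ cmp G (D2 G W S) v') ⊆ (Nb G (E ∩ E2) \ S) \ {v''} := by
      rintro w ⟨hw, hwS⟩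
      exact ⟨⟨hw, fun e => hwS (Or.inl e)⟩, fun e => hwS (Or.inr
        ((mem_singleton_iff.1 e) ▸ hd2.vL))⟩
    have h3 := ncard_le_ncard h2
    have h4 : ((Nb G (E ∩ E2) \ S) \ {v''}).ncard + 1 = (Nb G (E ∩ E2) \ S).ncard :=
      ncard_sdiff_singleton_add_one h1
    have h5 := hf.two
    omega
  -- case b
  have hp'x : p' = x := by
    rcases hd.nE p' ⟨⟨hp'E, v'', hv''E, hd2.vp⟩, hd2.pS⟩ with h1 | h1
    · exact absurd (h1 ▸ hvD) hp'D
    · exact h1
  have hxE2 : x ∈ E2 := hp'x ▸ hd2.pE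
  have hun : Nb G (E ∪ E2) \ S ⊆ {v, x2} := by
    rintro u ⟨⟨hu, a, ha, hau⟩, huS⟩
    have huE : u ∉ E := fun e => hu (Or.inl e)
    have huE2 : u ∉ E2 := fun e => hu (Or.inr e)
    rcases ha with ha | ha
    · rcases hd.nE u ⟨⟨huE, a, ha, hau⟩, huS⟩ with h1 | h1
      · exact Or.inl h1
      · exact absurd (h1 ▸ hxE2) huE2
    · rcases hd2.nE u ⟨⟨huE2, a, ha, hau⟩, huS⟩ with h1 | h1
      · exact absurd (h1 ▸ hv''E) huE
      · exact Or.inr h1
  have hun2 := h.two (E ∪ E2) (hE.ne.mono subset_union_left) (union_subset hE.sub hE2.sub)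
  have hvx2 : v ≠ x2 := by
    intro e
    have h1 := ncard_le_ncard hun
    rw [← e, pair_eq_singleton, ncard_singleton] at h1
    omega
  have heq : Nb G (E ∪ E2) \ S = {v, x2} := by
    refine eq_of_subset_of_ncard_le hun ?_ (toFinite _)
    rw [ncard_pair hvx2]
    exact hun2
  have hvE2 : v ∉ E2 := by
    have h1 : v ∈ Nb G (E ∪ E2) \ S := heq ▸ Or.inl rfl
    exact fun e => h1.1.1 (Or.inr e)
  have hx2E : x2 ∉ E := by
    have h1 : x2 ∈ Nb G (E ∪ E2) \ S := heq ▸ Or.inr rfl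
    exact fun e => h1.1.1 (Or.inl e)
  by_cases hEE : (E ∩ E2).Nonempty
  · have hf := h.frg_inter hEf hE2f hEE
    have hin : Nb G (E ∩ E2) \ S ⊆ {v, x} := by
      rintro u ⟨⟨hu, e, he, heu⟩, huS⟩
      by_cases huE : u ∈ E
      · have huE2 : u ∉ E2 := fun e' => hu ⟨huE, e'⟩
        exfalso
        rcases hd2.nE u ⟨⟨huE2, e, he.2, heu⟩, huS⟩ with rfl | rfl
        · have heL : e ∈ Nb G (cmp G (D2 G W S) v') \ S :=
            ⟨⟨hE2.dis e he.2, u, hd2.vL, heu.symm⟩, (hE.sub he.1).2⟩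
          rcases hd2.nL e heL with rfl | rfl
          · exact hp'E he.1
          · exact hd2.qE he.2
        · exact hx2E huE
      · exact hd.nE u ⟨⟨huE, e, he.1, heu⟩, huS⟩
    have hvN : v ∈ Nb G (E ∩ E2) \ S := by
      by_contra e
      have h1 : Nb G (E ∩ E2) \ S ⊆ {x} := by
        intro u hu
        rcases hin hu with rfl | h2
        · exact absurd hu e
        · exact h2
      have h2 := ncard_le_ncard h1
      rw [ncard_singleton] at h2
      have := hf.two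
      omega
    refine hsmall (F := E ∩ E2) hv0 inter_subset_left hv'E ⟨v'', hv''E, fun e => hv''E2 e.2⟩
      ⟨hf.ne, hf.sub, fun w hw => hE.dis w hw.1, ?_⟩
    have h2 : Nb G (E ∩ E2) \ (S ∪ cmp G (D2 G W S) v0) ⊆ (Nb G (E ∩ E2) \ S) \ {v} := by
      rintro w ⟨hw, hwS⟩
      exact ⟨⟨hw, fun e => hwS (Or.inl e)⟩, fun e => hwS (Or.inr
        ((mem_singleton_iff.1 e) ▸ hd.vL))⟩
    have h3 := ncard_le_ncard h2
    have h4 : ((Nb G (E ∩ E2) \ S) \ {v}).ncard + 1 = (Nb G (E ∩ E2) \ S).ncard :=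
      ncard_sdiff_singleton_add_one hvN
    have h5 := hf.two
    omega
  · refine hsmall (F := E \ cmp G (D2 G W S) v') hv'D sdiff_subset hv'E
      ⟨v', hv'E, fun e => e.2 hv'L'⟩ ?_
    refine ⟨⟨p, hd.pE, fun e => hpD (hL'D e)⟩, sdiff_subset.trans hE.sub, fun w hw => hw.2, ?_⟩
    have h2 : Nb G (E \ cmp G (D2 G W S) v') \ (S ∪ cmp G (D2 G W S) v') ⊆ {v} := by
      rintro w ⟨⟨hw, d, hd', hdw⟩, hwS⟩
      have hwL : w ∉ cmp G (D2 G W S) v' := fun e => hwS (Or.inr e)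
      have hwE : w ∉ E := fun e => hw ⟨e, hwL⟩
      rcases hd.nE w ⟨⟨hwE, d, hd'.1, hdw⟩, fun e => hwS (Or.inl e)⟩ with h3 | h3
      · exact h3
      · exfalso
        subst h3
        have hdE2 : d ∉ E2 := fun e => hEE ⟨d, hd'.1, e⟩
        rcases hd2.nE d ⟨⟨hdE2, w, hxE2, hdw.symm⟩, (hE.sub hd'.1).2⟩ with rfl | rfl
        · exact hd'.2 hd2.vL
        · exact hx2E hd'.1
    have h3 := ncard_le_ncard h2
    rwa [ncard_singleton] at h3

/-- A thread without a witness can be swallowed. -/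
theorem St.union_thread [Finite V] (h : St G W c S) (hW : Web G W t) (hL : Con G L)
    (hLD : L ⊆ D2 G W S) (hno : ∀ E, ¬ Wt G W S L E) : St G W c (S ∪ L) := by
  obtain ⟨v, hv⟩ := hL.1
  refine ⟨Or.inl h.mem, ?_, ?_, ?_⟩
  · rintro x (hx | hx)
    · exact h.sub x hx
    · exact Or.inl (hLD hx).1.1
  · obtain ⟨y, hy, x, hx, hxy⟩ := hW.exists_adj (S := S) (E := {v}) ⟨v, rfl⟩
      (singleton_subset_iff.2 (hLD hv).1.1) (by
        have := (hLD hv).2
        omega)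
    rw [mem_singleton_iff] at hx
    subst hx
    exact h.con.union_adj hL hy hv hxy.symm
  · intro E hne hE
    by_contra hcon
    exact hno E ⟨hne, fun x hx => ⟨(hE hx).1, fun e => (hE hx).2 (Or.inl e)⟩,
      fun x hx e => (hE hx).2 (Or.inr e), by omega⟩

/-- The number of minimal fragments after swallowing a thread. -/
theorem nfr_thread [Finite V] (h : St G W c S) (h' : St G W c (S ∪ L)) (hL : Con G L)
    (hLD : L ⊆ D2 G W S) : nfr G W (S ∪ L) + L.ncard ≤ nfr G W S + 2 := by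
  have hLW : L ⊆ W \ S := fun x hx => (hLD hx).1
  have h2 : (Nb G L \ S).ncard = 2 := le_antisymm (D2.ncard_le hL hLD) (h.two L hL.1 hLW)
  obtain ⟨p, q, hpq, hNL⟩ := ncard_eq_two.1 h2
  have hone : ∀ r, {E | MFr G W (S ∪ L) E ∧ r ∈ E}.ncard ≤ 1 := by
    intro r
    rw [ncard_le_one_iff]
    intro A B hA hB
    by_contra hne
    exact hA.1.disj hB.1 h' hne hA.2 hB.2
  have h1 : {E | MFr G W (S ∪ L) E} ⊆ ({E | MFr G W (S ∪ L) E ∧ p ∈ E} ∪
      {E | MFr G W (S ∪ L) E ∧ q ∈ E}) ∪ ({E | MFr G W S E} \ ((fun v => ({v} : Set V)) '' L)) := by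
    intro E hE
    by_cases hEN : ∃ x ∈ L, x ∈ Nb G E
    · left
      obtain ⟨x, hx, -, a, ha, hax⟩ := hEN
      have haS := (MFr.frg hE).sub ha
      have h3 : a ∈ Nb G L \ S := ⟨⟨fun e => haS.2 (Or.inr e), x, hx, hax.symm⟩,
        fun e => haS.2 (Or.inl e)⟩
      rw [hNL] at h3
      rcases h3 with rfl | h3
      · exact Or.inl ⟨hE, ha⟩
      · rw [mem_singleton_iff] at h3
        subst h3
        exact Or.inr ⟨hE, ha⟩
    · right
      push Not at hEN
      refine ⟨MFr.old hE subset_union_left h' ?_, ?_⟩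
      · rintro x (hx | hx) hxS
        · exact absurd hx hxS
        · exact hEN x hx
      · rintro ⟨u, hu, rfl⟩
        exact ((MFr.frg hE).sub rfl).2 (Or.inr hu)
  have h3 := (ncard_le_ncard h1).trans (ncard_union_le _ _)
  have h4 := ncard_union_le {E | MFr G W (S ∪ L) E ∧ p ∈ E} {E | MFr G W (S ∪ L) E ∧ q ∈ E}
  have h5 := hone p
  have h6 := hone q
  have h7 : ((fun v => ({v} : Set V)) '' L) ⊆ {E | MFr G W S E} := by
    rintro _ ⟨u, hu, rfl⟩
    exact mfr_singleton (hLD hu)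
  have h8 := ncard_sdiff_add_ncard_of_subset h7
  have h9 : ((fun v => ({v} : Set V)) '' L).ncard = L.ncard :=
    ncard_image_of_injective L singleton_injective
  unfold nfr
  omega

end Pool.Agent.Lib.MP_d9512b_co.Wb
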